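import Pool.Agent.Work.MP_31144c_an.G.Pos
import Pool.Agent.Work.MP_31144c_an.Exm

-- merged part: Neg
section
/-! The example when the test fails (part II of the paper; the models are `bad_le`, `Blk_det`, `Blk_new`, `blk_abs`, `blk_par`, `haus_zero`, `exists_par`, `partB` in Exm.lean).
PLAN. `bad_mul`: induction on `K` generalising `r lam α T x`, peel the first scale (`sum_range_succ'`, `prod_range_succ'`, `Ex_append`, `occ_append`, `Ex_sq`); cases `‖x‖ ≤ r 0` or not.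
`pick`: otherwise `exp (-b m) ≤ 1 / b m ≤ exp (-σ m) / ε`, and `α m * exp (-σ m) ≤ exp (-σ (m - 1)) - exp (-σ m)` telescopes (`summable_of_sum_range_le`, `summable_nat_add_iff`).
`block'`: `b m = g (1 / 2 ^ 3 ^ m) / 3 ^ m`, `A = 4 * 676 * 3456 / ε`, `j m = ⌈A * b m⌉₊`, `α m = if j m ≤ m then (1 / 14000) ^ j m else 0`, `m₀ ≥ 7` with `26 / 2 ^ 3 ^ m₀ < min η r₀`, `pick` with
`C = 10 A + 1`, `c = exp 10`; `E = 3 ^ m₁`, `n = 2 ^ E`, `K = m₁ - m₀`, `r k = 2 ^ (E - 3 ^ (m₁ - k))`, `T k = if j ≤ m then j * (r k * n) else 0`,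
`lam k = j * (r k ^ 2 / 216 * log (n / (2 r k))) / 8` with `m = m₁ - k`; `pz_pow`, `green_lower`; `∑ k < K, (1 / 2) ^ (m₁ - k) ≤ (1 / 2) ^ (m₁ - K)`. -/

namespace Pool.Agent.Work.MP_31144c_an.G

open Finset Complex Filter Topology MeasureTheory
open scoped BigOperators

variable {D : Type} [Fintype D] {e : D → ℂ} {g : ℝ → ℝ}

/-- The rescaled thickened path has a cover by small discs of cost at most `κ`. -/
def Cv (g : ℝ → ℝ) (n : ℕ) (η κ : ℝ) (l : List ℂ) : Prop :=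
  ∃ (F : Finset ℕ) (c : ℕ → ℂ) (R : ℕ → ℝ), (∀ i ∈ F, 0 < R i ∧ R i ≤ η) ∧
    ∑ i ∈ F, (2 * R i) ^ 2 * g (2 * R i) ≤ κ ∧
      ∀ s < n ^ 2, Metric.closedBall (pos l s / n) (6 / n) ⊆ ⋃ i ∈ F, Metric.closedBall (c i) (R i)

theorem bad_mul (S : Step e) (K : ℕ) {r lam α : ℕ → ℝ} {T : ℕ → ℕ} (hr : ∀ k ≤ K, 0 < r k)
    (hα : ∀ k < K, α k ≤ 1 / 2)
    (h : ∀ k < K, ∀ y, ‖y‖ ≤ r k → α k ≤ Ex e (T k) fun l => ind (lam k ≤ occ (r k) y l)) (x : ℂ) :
    (Ex e (∑ k ∈ range K, T k) fun l => ind (∀ k < K, occ (r k) x l < lam k)) ≤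
      (∏ k ∈ range K, (1 - α k + 2 * (r k ^ 2 + T k) / r (k + 1) ^ 2)) *
        (1 + 2 * ‖x‖ ^ 2 / r 0 ^ 2) := by
  induction K generalizing r lam α T x with
  | zero =>
    rw [sum_range_zero, prod_range_zero, one_mul]
    exact (Occ_le_one S 0 _).trans (le_add_of_nonneg_right (by positivity))
  | succ K ih =>
    have h0 := hr 0 (Nat.zero_le _)
    have h1 := hr 1 (by omega)
    obtain ⟨P, hP⟩ : ∃ P, P = ∏ k ∈ range K,
      (1 - α (k + 1) + 2 * (r (k + 1) ^ 2 + T (k + 1)) / r (k + 1 + 1) ^ 2) := ⟨_, rfl⟩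
    have hP0 : 0 ≤ P := hP ▸ prod_nonneg fun k hk => by
      have := hα (k + 1) (by have := mem_range.1 hk; omega)
      have : 0 ≤ 2 * (r (k + 1) ^ 2 + T (k + 1)) / r (k + 1 + 1) ^ 2 := by positivity
      linarith
    have h2 := fun y => ih (r := fun k => r (k + 1)) (lam := fun k => lam (k + 1))
      (α := fun k => α (k + 1)) (T := fun k => T (k + 1)) (fun k hk => hr _ (by omega))
      (fun k hk => hα _ (by omega)) (fun k hk => h _ (by omega)) y
    have h3 : (Ex e (T 0) fun l => ind (occ (r 0) x l < lam 0)) + 2 / r 1 ^ 2 * (‖x‖ ^ 2 + T 0) ≤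
        (1 - α 0 + 2 * (r 0 ^ 2 + T 0) / r 1 ^ 2) * (1 + 2 * ‖x‖ ^ 2 / r 0 ^ 2) := by
      have a1 := hα 0 (Nat.succ_pos _)
      obtain ⟨u, hu⟩ : ∃ u, u = ‖x‖ ^ 2 / r 0 ^ 2 := ⟨_, rfl⟩
      obtain ⟨v, hv⟩ : ∃ v, v = 2 / r 1 ^ 2 := ⟨_, rfl⟩
      have a2 : 0 ≤ u := by rw [hu]; positivity
      have a3 : 0 ≤ v := by rw [hv]; positivity
      have a4 : ‖x‖ ^ 2 = u * r 0 ^ 2 := by rw [hu]; field_simp
      have a5 : 0 ≤ v * T 0 := by positivity
      have a6 : 0 ≤ v * r 0 ^ 2 := by positivity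
      rw [mul_div_assoc 2 (‖x‖ ^ 2), ← hu, mul_div_right_comm, ← hv, a4]
      by_cases hx : ‖x‖ ≤ r 0
      · have a7 := h 0 (Nat.succ_pos _) x hx
        have a8 : (Ex e (T 0) fun l => ind (occ (r 0) x l < lam 0)) =
            1 - Ex e (T 0) fun l => ind (lam 0 ≤ occ (r 0) x l) := by
          rw [← Ex_const S (T 0) 1, ← Ex_sub]
          exact Ex_congr fun l _ => by rw [← ind_not, not_le]
        linarith only [a2, a6, a7, a8, a5, a1, mul_nonneg a2 a5, mul_nonneg a2 a6, mul_nonneg_of_nonpos_of_nonpos (Mathlib.Tactic.Linarith.sub_nonpos_of_le a1) (Mathlib.Tactic.Linarith.sub_nonpos_of_le a2)]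
      · have a7 : 1 ≤ u := by
          rw [hu, one_le_div (by positivity)]
          exact pow_le_pow_left₀ h0.le (not_le.1 hx).le 2
        have a8 := Occ_le_one S (T 0) fun l => occ (r 0) x l < lam 0
        linarith only [a1, a6, a7, a8, a2, a5, mul_nonneg a2 a5, mul_nonneg a2 a6, mul_nonneg_of_nonpos_of_nonpos (Mathlib.Tactic.Linarith.sub_nonpos_of_le a1) (Mathlib.Tactic.Linarith.sub_nonpos_of_le a2)]
    rw [sum_range_succ', prod_range_succ', add_comm, Ex_append, ← hP]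
    refine (Ex_mono S (Ψ := fun l => P * (ind (occ (r 0) x l < lam 0) +
      2 / r 1 ^ 2 * ‖x + l.sum‖ ^ 2)) fun l _ _ => ?_).trans ?_
    · by_cases hl : occ (r 0) x l < lam 0
      · rw [ind_pos hl]
        refine (Ex_mono S (Ψ := fun l' => ind (∀ k < K, occ (r (k + 1)) (x + l.sum) l' <
          lam (k + 1))) fun l' _ _ => ind_mono fun H k hk => ?_).trans ((h2 _).trans (le_of_eq ?_))
        · have := H (k + 1) (by omega)
          rw [occ_append] at this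
          linarith only [this, occ_nonneg (r (k + 1)) x l]
        · rw [← hP]
          ring
      · refine (Ex_mono S (Ψ := fun _ => 0) fun l' _ _ => (ind_neg fun H => hl ?_).le).trans
          ((Ex_const S _ 0).trans_le (mul_nonneg hP0 (add_nonneg (ind_nonneg _) (by positivity))))
        have := H 0 (Nat.succ_pos _)
        rw [occ_append] at this
        linarith only [hl, this, occ_nonneg (r 0) (x + l.sum) l']
    · rw [Ex_const_mul, Ex_add, Ex_const_mul, Ex_sq S, mul_assoc]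
      exact mul_le_mul_of_nonneg_left h3 hP0

theorem pick {b α : ℕ → ℝ} (hb : ∀ m, 0 < b m) (hα : ∀ m, 0 ≤ α m) {C c : ℝ} (hc : 0 ≤ c)
    (hn : ¬ Summable fun m => Real.exp (-(C * b m))) (m₀ : ℕ)
    (h : ∀ m, m₀ < m → Real.exp (-(C * b m)) ≤ Real.exp (-m) + c * α m * Real.exp (-b m)) {ε : ℝ}
    (hε : 0 < ε) : ∃ m₁, m₀ < m₁ ∧ b m₁ * Real.exp (-∑ m ∈ Ioc m₀ m₁, α m) ≤ ε := by
  by_contra H
  push Not at H
  have h1 : ∀ N : ℕ, ∑ i ∈ range N, α (i + (m₀ + 1)) * Real.exp (-∑ m ∈ Ioc m₀ (i + (m₀ + 1)), α m) ≤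
      1 - Real.exp (-∑ m ∈ Ioc m₀ (N + m₀), α m) := fun N => by
    induction N with
    | zero => simp
    | succ N ih =>
      rw [sum_range_succ, show N + 1 + m₀ = N + m₀ + 1 by omega,
        show N + (m₀ + 1) = N + m₀ + 1 by omega, sum_Ioc_succ_top (by omega), neg_add, Real.exp_add]
      have a1 : (α (N + m₀ + 1) + 1) * Real.exp (-α (N + m₀ + 1)) ≤ 1 := by
        rw [Real.exp_neg, ← div_eq_mul_inv, div_le_one (Real.exp_pos _)]
        exact Real.add_one_le_exp _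
      linarith only [ih, a1, mul_le_mul_of_nonneg_left a1 (Real.exp_pos (-∑ m ∈ Ioc m₀ (N + m₀), α m)).le]
  have h2 : Summable fun i => α (i + (m₀ + 1)) * Real.exp (-∑ m ∈ Ioc m₀ (i + (m₀ + 1)), α m) :=
    summable_of_sum_range_le (c := 1) (fun i => mul_nonneg (hα _) (Real.exp_pos _).le) fun N =>
      (h1 N).trans (sub_le_self _ (Real.exp_pos _).le)
  refine hn ((summable_nat_add_iff (m₀ + 1)).1 (Summable.of_nonneg_of_le
    (fun i => (Real.exp_pos _).le) (fun i => ?_)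
    (((summable_nat_add_iff (m₀ + 1)).2 Real.summable_exp_neg_nat).add (h2.mul_left (c / ε)))))
  refine (h _ (by omega)).trans (add_le_add le_rfl ?_)
  have a1 := H (i + (m₀ + 1)) (by omega)
  have a2 : b (i + (m₀ + 1)) * Real.exp (-b (i + (m₀ + 1))) ≤ 1 := by
    rw [Real.exp_neg, ← div_eq_mul_inv, div_le_one (Real.exp_pos _)]
    linarith only [Real.add_one_le_exp (b (i + (m₀ + 1)))]
  have a3 : Real.exp (-b (i + (m₀ + 1))) ≤ Real.exp (-∑ m ∈ Ioc m₀ (i + (m₀ + 1)), α m) / ε := by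
    rw [le_div_iff₀ hε]
    linarith only [a1, a2, mul_le_mul_of_nonneg_left a1.le (Real.exp_pos (-b (i + (m₀ + 1)))).le,
      mul_le_mul_of_nonneg_left a2 (Real.exp_pos (-∑ m ∈ Ioc m₀ (i + (m₀ + 1)), α m)).le]
  refine (mul_le_mul_of_nonneg_left a3 (mul_nonneg hc (hα _))).trans (le_of_eq ?_)
  ring

theorem Neg_n {n : ℕ} (hn : 3 ≤ Real.log (n / 16)) : 0 < (n : ℝ) := by
  rcases (Nat.cast_nonneg (α := ℝ) n).eq_or_lt with h0 | h0
  · rw [← h0] at hn
    norm_num at hn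
  · exact h0

theorem Neg_new (S : Step e) {n : ℕ} (h16 : 3 ≤ Real.log (n / 16)) :
    Real.log n * ∑ s ∈ range (n ^ 2), (Ex e s fun l => ind (New l)) ≤ 7776 * (n : ℝ) ^ 2 := by
  have hn := Neg_n h16
  have h1 := new_count S (n ^ 2) n
  have h2 := green_lower S one_pos n
  have hn1 : n ≤ n ^ 2 := Nat.le_self_pow (by norm_num) _
  have hn2 : (n : ℝ) ≤ (n : ℝ) ^ 2 := by exact_mod_cast hn1
  have h3 : 0 ≤ ∑ s ∈ range (n ^ 2), (Ex e s fun l => ind (New l)) :=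
    sum_nonneg fun s _ => Ex_nonneg fun l => ind_nonneg _
  have h4 : Real.log n ≤ 2 * Real.log (n / 2) := by
    have a1 : Real.log (n / 16) ≤ Real.log (n / 2) :=
      Real.log_le_log (by positivity) (by gcongr; norm_num)
    have a2 := Real.log_two_lt_d9
    have a3 : Real.log (n / 2) = Real.log n - Real.log 2 := Real.log_div hn.ne' (by norm_num)
    linarith only [h16, a1, a2, a3]
  simp only [Nat.cast_one, one_pow, mul_one] at h2
  push_cast at h1
  have h5 := mul_le_mul_of_nonneg_left h2 h3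
  have h6 := mul_le_mul_of_nonneg_left h4 h3
  linarith only [hn2, h1, h5, h6]

theorem Neg_det {n K T : ℕ} {r : ℕ → ℕ} {lam : ℕ → ℝ} {η ε c κ : ℝ} (hn : 0 < (n : ℝ))
    (hT : T ≤ n ^ 2) (hη : 8 / (n : ℝ) ≤ η) (hε : 0 ≤ ε)
    (hr : ∀ k < K, 0 < r k ∧ 13 * (r k : ℝ) / n ≤ η ∧
      (26 * (r k : ℝ) / n) ^ 2 * g (26 * r k / n) ≤ ε / (n : ℝ) ^ 2 * lam k)
    (h2 : (16 / (n : ℝ)) ^ 2 * g (16 / n) ≤ c) {w : List ℂ} (hw : w.length = n ^ 2 + T)
    (hκ : 2 * ε + c * ∑ s ∈ range (n ^ 2),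
      ind (New (w.take s)) * ind (∀ k < K, occ (r k) 0 ((w.drop s).take T) < lam k) ≤ κ) :
    Cv g n η κ (w.take (n ^ 2)) := by
  classical
  have hr1 : ∀ k < K, (1 : ℝ) ≤ r k := fun k hk => by exact_mod_cast (hr k hk).1
  obtain ⟨A, m, hm, hsum, hcov⟩ := cover_det (K := K) (r := fun k => (r k : ℝ)) (lam := lam) hw hr1
  obtain ⟨B, hB⟩ : ∃ B, B = (range (n ^ 2)).filter fun s =>
    New (w.take s) ∧ ∀ k < K, occ (r k) 0 ((w.drop s).take T) < lam k := ⟨_, rfl⟩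
  have hcard : ∑ s ∈ range (n ^ 2), ind (New (w.take s)) *
      ind (∀ k < K, occ (r k) 0 ((w.drop s).take T) < lam k) = B.card := by
    rw [hB, card_filter]
    push_cast
    refine sum_congr rfl fun s _ => ?_
    rw [← ind_and]
    split_ifs with h
    · exact ind_pos h
    · exact ind_neg h
  rw [hcard] at hκ
  have e1 : ∀ s : ℕ, 2 * s % 2 = 0 := fun s => by omega
  have e2 : ∀ s : ℕ, 2 * s / 2 = s := fun s => by omega
  have e3 : ∀ s : ℕ, ¬ (2 * s + 1) % 2 = 0 := fun s => by omega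
  have e4 : ∀ s : ℕ, (2 * s + 1) / 2 = s := fun s => by omega
  refine ⟨A.image (fun s => 2 * s) ∪ B.image (fun s => 2 * s + 1), fun i => pos w (i / 2) / n,
    fun i => if i % 2 = 0 then 13 * r (m (i / 2)) / n else 8 / n, ?_, ?_, ?_⟩
  · intro i hi
    rcases mem_union.1 hi with hi | hi
    · obtain ⟨s, hs, rfl⟩ := mem_image.1 hi
      have := hr1 _ (hm s hs)
      simp only [e1, e2, if_true]
      exact ⟨by positivity, (hr _ (hm s hs)).2.1⟩
    · obtain ⟨s, hs, rfl⟩ := mem_image.1 hi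
      simp only [e3, if_false]
      exact ⟨by positivity, hη⟩
  · rw [sum_union, sum_image (fun a _ b _ h => by simpa using h),
      sum_image (fun a _ b _ h => by simpa using h)]
    · simp only [e1, e2, e3, if_true, if_false]
      have a1 : ∑ s ∈ A, (2 * (13 * (r (m s) : ℝ) / n)) ^ 2 * g (2 * (13 * r (m s) / n)) ≤
          ∑ s ∈ A, ε / (n : ℝ) ^ 2 * lam (m s) := sum_le_sum fun s hs => by
        rw [show 2 * (13 * (r (m s) : ℝ) / n) = 26 * r (m s) / n by ring]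
        exact (hr _ (hm s hs)).2.2
      rw [← mul_sum] at a1
      rw [sum_const, nsmul_eq_mul, show 2 * (8 / (n : ℝ)) = 16 / n by ring]
      have hT' : (T : ℝ) ≤ (n : ℝ) ^ 2 := by exact_mod_cast hT
      have a3 : ε / (n : ℝ) ^ 2 * ∑ s ∈ A, lam (m s) ≤ 2 * ε := by
        rw [div_mul_eq_mul_div, div_le_iff₀ (by positivity)]
        push_cast at hsum
        linarith only [hε, hT', hsum, mul_nonneg_of_nonpos_of_nonpos (Mathlib.Tactic.Linarith.sub_nonpos_of_le hε) (Mathlib.Tactic.Linarith.sub_nonpos_of_le hT'), mul_nonneg_of_nonpos_of_nonpos (Mathlib.Tactic.Linarith.sub_nonpos_of_le hε) (Mathlib.Tactic.Linarith.sub_nonpos_of_le hsum)]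
      linarith only [hκ, a1, a3, h2, mul_le_mul_of_nonneg_left h2 (Nat.cast_nonneg (α := ℝ) B.card)]
    · rw [disjoint_left]
      intro i h1 h2
      obtain ⟨s, -, rfl⟩ := mem_image.1 h1
      obtain ⟨t, -, h⟩ := mem_image.1 h2
      omega
  · intro s hs
    rw [pos_take w hs.le]
    rcases hcov s hs with ⟨t, ht, h⟩ | ⟨t, ht, h1, h2, h⟩
    · refine Set.subset_iUnion₂_of_subset (2 * t) (mem_union_left _ (mem_image_of_mem _ ht)) ?_
      have := hr1 _ (hm t ht)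
      simp only [e1, e2, if_true]
      exact Blk_ball hn h (by linarith only [this])
    · refine Set.subset_iUnion₂_of_subset (2 * t + 1) (mem_union_right _ (mem_image_of_mem _ ?_)) ?_
      · rw [hB]
        exact mem_filter.2 ⟨mem_range.2 ht, h1, h2⟩
      simp only [e3, e4, if_false]
      exact Blk_ball hn h (by norm_num)

theorem blk_ex (S : Step e) {n K T : ℕ} {r : ℕ → ℕ} {lam : ℕ → ℝ} {η ε c P : ℝ}
    (hn : 3 ≤ Real.log (n / 16)) (hT : T ≤ n ^ 2) (hη : 8 / (n : ℝ) ≤ η) (hε : 0 ≤ ε) (hc : 0 ≤ c)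
    (hr : ∀ k < K, 0 < r k ∧ 13 * (r k : ℝ) / n ≤ η ∧
      (26 * (r k : ℝ) / n) ^ 2 * g (26 * r k / n) ≤ ε / (n : ℝ) ^ 2 * lam k)
    (h2 : (16 / (n : ℝ)) ^ 2 * g (16 / n) ≤ c * Real.log n / (n : ℝ) ^ 2)
    (hP : (Ex e T fun l => ind (∀ k < K, occ (r k) 0 l < lam k)) ≤ P) {κ : ℝ} (hκ : 0 < κ) :
    (Ex e (n ^ 2) fun l => ind (¬ Cv g n η κ l)) ≤ (2 * ε + 7776 * c * P) / κ := by
  have hn0 := Neg_n hn
  have hnew := Neg_new S hn
  have hlog : 0 ≤ Real.log n :=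
    le_trans (by linarith only [hn]) (Real.log_le_log (by positivity) (div_le_self hn0.le (by norm_num)) :
      Real.log (n / 16) ≤ Real.log n)
  rw [← Ex_take S (n ^ 2) T]
  have hX : Ex e (n ^ 2 + T) (fun w => ∑ s ∈ range (n ^ 2), ind (New (w.take s)) *
      ind (∀ k < K, occ (r k) 0 ((w.drop s).take T) < lam k)) =
      (∑ s ∈ range (n ^ 2), (Ex e s fun l => ind (New l))) *
        Ex e T fun l => ind (∀ k < K, occ (r k) 0 l < lam k) := by
    rw [Ex_sum, sum_mul]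
    exact sum_congr rfl fun s hs => Ex_split S (by have := mem_range.1 hs; omega)
      (fun l => ind (New l)) fun l => ind (∀ k < K, occ (r k) 0 l < lam k)
  calc _ ≤ Ex e (n ^ 2 + T) fun w => (2 * ε + c * Real.log n / (n : ℝ) ^ 2 *
        ∑ s ∈ range (n ^ 2), ind (New (w.take s)) *
          ind (∀ k < K, occ (r k) 0 ((w.drop s).take T) < lam k)) * κ⁻¹ := by
        refine Ex_mono S fun w hw _ => ?_
        by_cases h : Cv g n η κ (w.take (n ^ 2))
        · rw [ind_neg (not_not.2 h)]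
          have : 0 ≤ ∑ s ∈ range (n ^ 2), ind (New (w.take s)) *
              ind (∀ k < K, occ (r k) 0 ((w.drop s).take T) < lam k) :=
            sum_nonneg fun s _ => mul_nonneg (ind_nonneg _) (ind_nonneg _)
          positivity
        · rw [ind_pos h, ← div_eq_mul_inv, one_le_div hκ]
          exact le_of_not_ge fun h' => h (Neg_det hn0 hT hη hε hr h2 hw h')
    _ ≤ _ := by
        rw [Ex_mul_const, Ex_add, Ex_const S, Ex_const_mul, hX, ← div_eq_mul_inv]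
        have h1 := mul_le_mul_of_nonneg_left (mul_le_mul hnew hP
          (Ex_nonneg fun l => ind_nonneg _) (by positivity)) hc
        refine div_le_div_of_nonneg_right (add_le_add le_rfl ?_) hκ.le
        rw [div_mul_eq_mul_div, div_le_iff₀ (by positivity)]
        linarith only [h1]

theorem Neg_geo (m K : ℕ) (h : K ≤ m) :
    ∑ k ∈ range K, (1 / 2 : ℝ) ^ (m - k) ≤ (1 / 2) ^ (m - K) := by
  induction K with
  | zero => simp
  | succ K ih =>
    have h1 := ih (by omega)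
    rw [sum_range_succ]
    rw [show m - K = m - (K + 1) + 1 by omega, pow_succ] at h1 ⊢
    linarith only [h1]

theorem Neg_two {i : ℕ} (hi : 3 ≤ i) : ((i + 1 : ℕ) : ℝ) ≤ 2 ^ 3 ^ i * (1 / 2) ^ (i + 1) := by
  have h1 := Blk_four (i - 1)
  rw [show i - 1 + 1 = i by omega] at h1
  have h2 : (i + 1) * 2 ^ (i + 1) ≤ 2 ^ 3 ^ i :=
    (Nat.mul_le_mul_right _ Nat.lt_two_pow_self.le).trans
      (by rw [← pow_add]; exact Nat.pow_le_pow_right (by norm_num) (by omega))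
  rw [one_div_pow, mul_one_div, le_div_iff₀ (by positivity)]
  exact_mod_cast h2

theorem Neg_scale {R n u m T h : ℝ} (hR : 0 < R) (hu : 1 ≤ u) (hm : 1 ≤ m) (hmu : m ≤ u * h)
    (hn : n = R * u ^ 3) (hT : T ≤ m * (R * n)) :
    2 * (R ^ 2 + T) / (R * u ^ 2) ^ 2 ≤ 4 * h ∧ T ≤ n ^ 2 * h := by
  have h0 : 0 ≤ h := by (refine le_of_not_gt fun h_nl => ?_; linarith only [h_nl, hm, hmu, hu, mul_nonneg_of_nonpos_of_nonpos (Mathlib.Tactic.Linarith.sub_nonpos_of_le hu) (le_of_lt (Mathlib.Tactic.Linarith.sub_neg_of_lt h_nl))])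
  have h1 : m * (R * n) ≤ u * h * (R * n) :=
    mul_le_mul_of_nonneg_right hmu (by rw [hn]; positivity)
  have h2 : R ^ 2 ≤ m * (R * n) := by
    rw [hn]
    nlinarith only [hm, hu, mul_le_mul hm (one_le_pow₀ (n := 3) hu) zero_le_one (by linarith), sq_nonneg R]
  have h3 : R ^ 2 * u ^ 4 * h * 1 ≤ R ^ 2 * u ^ 4 * h * u ^ 2 :=
    mul_le_mul_of_nonneg_left (one_le_pow₀ hu) (by positivity)
  subst hn
  rw [div_le_iff₀ (by positivity)]
  constructor <;> linarith only [hT, h1, h2, h3]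

theorem Neg_log {m : ℕ} (hm : 7 ≤ m) : (3 : ℝ) ^ m / 2 ≤ Real.log (2 ^ 3 ^ m / 2) ∧
    216 ≤ Real.log ((2 : ℝ) ^ 3 ^ m / 2) := by
  have h1 : (3 : ℝ) ^ 7 ≤ 3 ^ m := pow_le_pow_right₀ (by norm_num) hm
  rw [Real.log_div (by positivity) (by norm_num), Real.log_pow]
  push_cast
  constructor <;> linarith only [h1, Real.log_two_gt_d9, Real.log_two_lt_d9, mul_nonneg_of_nonpos_of_nonpos (Mathlib.Tactic.Linarith.sub_nonpos_of_le h1) (le_of_lt (Mathlib.Tactic.Linarith.sub_neg_of_lt Real.log_two_gt_d9))]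

theorem Neg_alt {A b : ℝ} {j m : ℕ} (hA : 0 < A) (hb : 0 < b) (hj : j = ⌈A * b⌉₊) :
    Real.exp (-((10 * A + 1) * b)) ≤ Real.exp (-m) +
      Real.exp 10 * (if j ≤ m then (1 / 14000 : ℝ) ^ j else 0) * Real.exp (-b) := by
  split_ifs with h
  · have h1 : (j : ℝ) < A * b + 1 := hj ▸ Nat.ceil_lt_add_one (mul_pos hA hb).le
    have h2 : Real.exp (-10) ≤ 1 / 14000 := by
      rw [Real.exp_neg, ← one_div]
      refine one_div_le_one_div_of_le (by norm_num) ?_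
      calc (14000 : ℝ) ≤ 2.7 ^ 10 := by norm_num
        _ ≤ Real.exp 1 ^ 10 := pow_le_pow_left₀ (by norm_num) (by linarith only [Real.exp_one_gt_d9]) _
        _ = Real.exp 10 := by rw [← Real.exp_nat_mul]; norm_num
    have h3 := pow_le_pow_left₀ (Real.exp_pos _).le h2 j
    rw [← Real.exp_nat_mul] at h3
    refine le_add_of_nonneg_of_le (Real.exp_pos _).le (le_trans ?_ (mul_le_mul_of_nonneg_right
      (mul_le_mul_of_nonneg_left h3 (Real.exp_pos 10).le) (Real.exp_pos (-b)).le))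
    rw [← Real.exp_add, ← Real.exp_add, Real.exp_le_exp]
    linarith only [h1]
  · have h1 : (m : ℝ) < A * b := Nat.lt_ceil.1 (hj ▸ not_le.1 h)
    rw [mul_zero, zero_mul, add_zero, Real.exp_le_exp]
    linarith only [hb, h1, mul_pos hA hb]

theorem block' {r₀ : ℝ} (h0 : 0 < r₀) (ha : AntitoneOn g (Set.Ioo 0 r₀)) (hp : ∀ d, 0 < g d)
    (hn : ∀ C : ℝ, 0 < C → ¬ Summable fun m : ℕ => Real.exp (-(C * (g (1 / 2 ^ 3 ^ m) / 3 ^ m))))
    {η ε : ℝ} (hη : 0 < η) (hε : 0 < ε) : ∃ n : ℕ, 1 / η ≤ (n : ℝ) ∧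
      ∀ (D : Type) [Fintype D] (e : D → ℂ), Step e → ∀ κ : ℝ, 0 < κ →
        (Ex e (n ^ 2) fun l => ind (¬ Cv g n η κ l)) ≤ ε / κ := by
  obtain ⟨b, hb⟩ : ∃ b : ℕ → ℝ, ∀ m, b m = g (1 / 2 ^ 3 ^ m) / 3 ^ m := ⟨_, fun _ => rfl⟩
  obtain ⟨A, hA⟩ : ∃ A : ℝ, A = 4 * 676 * 3456 / ε := ⟨_, rfl⟩
  have hA0 : 0 < A := by rw [hA]; positivity
  have hb0 : ∀ m, 0 < b m := fun m => by have := hp (1 / 2 ^ 3 ^ m); rw [hb]; positivity
  obtain ⟨j, hj⟩ : ∃ j : ℕ → ℕ, ∀ m, j m = ⌈A * b m⌉₊ := ⟨_, fun _ => rfl⟩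
  obtain ⟨α, hα⟩ : ∃ α : ℕ → ℝ, ∀ m, α m = if j m ≤ m then (1 / 14000) ^ j m else 0 :=
    ⟨_, fun _ => rfl⟩
  have hα0 : ∀ m, 0 ≤ α m := fun m => by rw [hα]; split_ifs <;> positivity
  have hα1 : ∀ m, α m ≤ 1 / 2 := fun m => by
    rw [hα]
    split_ifs
    · have : j m ≠ 0 := by rw [hj]; exact (Nat.ceil_pos.2 (mul_pos hA0 (hb0 m))).ne'
      exact (pow_le_of_le_one (by norm_num) (by norm_num) this).trans (by norm_num)
    · norm_num
  obtain ⟨N, hN⟩ := exists_nat_ge (26 / min η r₀)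
  have hs : ∀ m, N + 7 ≤ m → 26 / (2 : ℝ) ^ 3 ^ m < min η r₀ := fun m hm => by
    have a1 : N < 2 ^ 3 ^ m := by
      have := Nat.lt_pow_self (n := m) (show 1 < 3 by norm_num)
      have := Nat.lt_pow_self (n := 3 ^ m) (show 1 < 2 by norm_num)
      omega
    have a2 : (N : ℝ) < 2 ^ 3 ^ m := by exact_mod_cast a1
    rw [div_le_iff₀ (lt_min hη h0)] at hN
    rw [div_lt_iff₀ (by positivity)]
    (refine lt_of_not_ge fun h_nl => ?_; linarith only [h_nl, a2, hN, lt_min hη h0, mul_nonneg_of_nonpos_of_nonpos (Mathlib.Tactic.Linarith.sub_nonpos_of_le (Mathlib.Tactic.Linarith.natCast_nonneg ℝ N)) (Mathlib.Tactic.Linarith.sub_nonpos_of_le hN), mul_nonneg_of_nonpos_of_nonpos (Mathlib.Tactic.Linarith.sub_nonpos_of_le (Mathlib.Tactic.Linarith.natCast_nonneg ℝ N)) (Mathlib.Tactic.Linarith.sub_nonpos_of_le h_nl), mul_nonneg_of_nonpos_of_nonpos (Mathlib.Tactic.Linarith.sub_nonpos_of_le hN) (le_of_lt (Mathlib.Tactic.Linarith.sub_neg_of_lt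 a2))])
  have hg : ∀ m, N + 7 ≤ m → ∀ a : ℝ, 1 ≤ a → a ≤ 26 → g (a / 2 ^ 3 ^ m) ≤ 3 ^ m * b m :=
    fun m hm a a1 a2 => by
      have a3 : a / (2 : ℝ) ^ 3 ^ m < r₀ :=
        lt_of_le_of_lt (by gcongr) ((hs m hm).trans_le (min_le_right _ _))
      have a4 : 1 / (2 : ℝ) ^ 3 ^ m ≤ a / 2 ^ 3 ^ m := by gcongr
      rw [hb, mul_div_cancel₀ _ (by positivity)]
      exact ha ⟨by positivity, a4.trans_lt a3⟩ ⟨by positivity, a3⟩ a4
  obtain ⟨m₁, hm, hpick⟩ := pick (b := b) (α := α) (C := 10 * A + 1) (c := Real.exp 10) hb0 hα0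
    (Real.exp_pos _).le (by simpa only [hb] using hn _ (by positivity)) (N + 7)
    (fun m _ => by rw [hα]; exact Neg_alt hA0 (hb0 m) (hj m))
    (ε := ε / (2 * 7776 * 512 * Real.exp 4)) (by positivity)
  obtain ⟨K, hK⟩ : ∃ K, K = m₁ - (N + 7) := ⟨_, rfl⟩
  obtain ⟨n, hn'⟩ : ∃ n : ℕ, n = 2 ^ 3 ^ m₁ := ⟨_, rfl⟩
  obtain ⟨r, hr⟩ : ∃ r : ℕ → ℕ, ∀ k, r k = 2 ^ (3 ^ m₁ - 3 ^ (m₁ - k)) := ⟨_, fun _ => rfl⟩
  obtain ⟨T, hT⟩ : ∃ T : ℕ → ℕ, ∀ k,
    T k = if j (m₁ - k) ≤ m₁ - k then j (m₁ - k) * (r k * n) else 0 := ⟨_, fun _ => rfl⟩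
  have hnR : (n : ℝ) = 2 ^ 3 ^ m₁ := by rw [hn']; push_cast; rfl
  have hr0 : ∀ k, 0 < r k := fun k => by rw [hr]; positivity
  have hrR : ∀ k, (0 : ℝ) < r k := fun k => by exact_mod_cast hr0 k
  have hdiv : ∀ k, (n : ℝ) = r k * 2 ^ 3 ^ (m₁ - k) := fun k => by
    rw [hnR, hr]
    push_cast
    rw [← pow_add, Nat.sub_add_cancel (Nat.pow_le_pow_right (by norm_num) (Nat.sub_le _ _))]
  have hsc : ∀ k < K, 2 * ((r k : ℝ) ^ 2 + T k) / (r (k + 1) : ℝ) ^ 2 ≤ 4 * (1 / 2) ^ (m₁ - k) ∧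
      (T k : ℝ) ≤ (n : ℝ) ^ 2 * (1 / 2) ^ (m₁ - k) := fun k hk => by
    obtain ⟨i, hi⟩ : ∃ i, i = m₁ - (k + 1) := ⟨_, rfl⟩
    have a1 : m₁ - k = i + 1 := by omega
    have a2 := hdiv k
    have a3 := hdiv (k + 1)
    rw [a1, pow_succ 3, pow_mul] at a2
    rw [← hi] at a3
    have a4 : (r (k + 1) : ℝ) = r k * (2 ^ 3 ^ i) ^ 2 :=
      mul_right_cancel₀ (b := (2 : ℝ) ^ 3 ^ i) (by positivity) (by rw [← a3, a2]; ring)
    have a5 : (T k : ℝ) ≤ ((i + 1 : ℕ) : ℝ) * (r k * n) := by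
      have : T k ≤ (i + 1) * (r k * n) := by
        rw [hT, a1]
        split_ifs with h
        · exact Nat.mul_le_mul_right _ h
        · exact Nat.zero_le _
      exact_mod_cast this
    rw [a4, a1]
    exact Neg_scale (hrR k) (one_le_pow₀ one_le_two) (by exact_mod_cast Nat.le_add_left 1 i)
      (Neg_two (by omega)) a2 a5
  have hlg : ∀ k < K, (3 : ℝ) ^ (m₁ - k) / 2 ≤ Real.log (n / (2 * r k)) ∧
      216 ≤ Real.log (n / (2 * r k)) := fun k hk => by
    rw [show (n : ℝ) / (2 * r k) = 2 ^ 3 ^ (m₁ - k) / 2 by have := hrR k; rw [hdiv k]; field_simp]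
    exact Neg_log (by omega)
  have hgeo := Neg_geo m₁ K (by omega)
  have hgeo1 : (1 / 2 : ℝ) ^ (m₁ - K) ≤ 1 := pow_le_one₀ (by norm_num) (by norm_num)
  have hsn := hs m₁ hm.le
  have hn0 : (0 : ℝ) < n := by rw [hnR]; positivity
  have hηn : 26 / (n : ℝ) ≤ η := hnR ▸ (hsn.trans_le (min_le_left _ _)).le
  refine ⟨n, ?_, fun D _ e S κ hκ => ?_⟩
  · rw [div_le_iff₀ hn0] at hηn
    rw [div_le_iff₀ hη]
    linarith only [hηn]
  have hbad := bad_mul S K (r := fun k => (r k : ℝ)) (lam := fun k => j (m₁ - k) *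
    ((r k : ℝ) ^ 2 / 216 * Real.log (n / (2 * r k))) / 8) (α := fun k => α (m₁ - k)) (T := T)
    (fun k _ => hrR k) (fun k _ => hα1 _) (fun k hk y hy => by
      rw [hα, hT]
      split_ifs
      · have a1 : (1 : ℝ) ≤ r k := by exact_mod_cast hr0 k
        refine pz_pow S (hrR k) ?_ ?_ _ hy
        · linarith only [a1, hlg, hk, one_le_pow₀ (n := 2) a1, (hlg k hk).2, mul_nonneg_of_nonpos_of_nonpos (Mathlib.Tactic.Linarith.sub_nonpos_of_le (sq_nonneg ↑(r k))) (Mathlib.Tactic.Linarith.sub_nonpos_of_le (hlg k hk).right)]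
        · refine le_trans (le_of_eq ?_) (green_lower S (hr0 k) (r k * n))
          congr 2
          push_cast
          field_simp
      · exact Ex_nonneg fun _ => ind_nonneg _) 0
  have hP : ∏ k ∈ range K, (1 - α (m₁ - k) + 2 * ((r k : ℝ) ^ 2 + T k) / (r (k + 1) : ℝ) ^ 2) ≤
      Real.exp 4 * Real.exp (-∑ m ∈ Ioc (N + 7) m₁, α m) := by
    refine (prod_le_prod (g := fun k => Real.exp (4 * (1 / 2) ^ (m₁ - k) - α (m₁ - k)))
      (fun k _ => add_nonneg (by linarith only [hα1, hα1 (m₁ - k)]) (by positivity)) fun k hk => ?_).trans ?_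
    · linarith only [hsc, hk, (hsc k (mem_range.1 hk)).1,
        Real.add_one_le_exp (4 * (1 / 2 : ℝ) ^ (m₁ - k) - α (m₁ - k))]
    · rw [← Real.exp_sum, ← Real.exp_add, sum_sub_distrib, ← mul_sum, Real.exp_le_exp,
        show ∑ k ∈ range K, α (m₁ - k) = ∑ m ∈ Ioc (N + 7) m₁, α m from
          sum_nbij' (fun k => m₁ - k) (fun m => m₁ - m) (fun k hk => by simp at hk ⊢; omega)
            (fun k hk => by simp at hk ⊢; omega) (fun k hk => by simp at hk ⊢; omega)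
            (fun k hk => by simp at hk ⊢; omega) fun _ _ => rfl]
      linarith only [hgeo, hgeo1]
  rw [norm_zero, zero_pow two_ne_zero, mul_zero, zero_div, add_zero, mul_one] at hbad
  refine (blk_ex S (ε := ε / 4) (c := 512 * b m₁) ?_ ?_ (le_trans (by gcongr; norm_num) hηn)
    (by positivity) (by have := hb0 m₁; positivity) (fun k hk => ⟨hr0 k, ?_, ?_⟩) ?_
    (hbad.trans hP) hκ).trans (div_le_div_of_nonneg_right ?_ hκ.le)
  · have a1 := Blk_log (M := 3 ^ m₁) (le_trans (by norm_num)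
      (Nat.pow_le_pow_right (by norm_num) (show 7 ≤ m₁ by omega)))
    rw [hnR]
    refine le_trans (by linarith only [a1]) (Real.log_le_log (by positivity) (?_ : (2 : ℝ) ^ 3 ^ m₁ / 26 ≤ _))
    gcongr
    norm_num
  · have a1 : ∑ k ∈ range K, (T k : ℝ) ≤ ∑ k ∈ range K, (n : ℝ) ^ 2 * (1 / 2) ^ (m₁ - k) :=
      sum_le_sum fun k hk => (hsc k (mem_range.1 hk)).2
    rw [← mul_sum] at a1
    have a2 := a1.trans (mul_le_of_le_one_right (sq_nonneg _) (hgeo.trans hgeo1))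
    exact_mod_cast a2
  · refine le_trans ?_ ((hs (m₁ - k) (by omega)).trans_le (min_le_left _ _)).le
    rw [show 13 * (r k : ℝ) / n = 13 / 2 ^ 3 ^ (m₁ - k) by have := hrR k; rw [hdiv k]; field_simp]
    gcongr
    norm_num
  · have a1 := hg (m₁ - k) (by omega) 26 (by norm_num) le_rfl
    rw [show (26 : ℝ) / 2 ^ 3 ^ (m₁ - k) = 26 * r k / n by
      have := hrR k; rw [hdiv k]; field_simp] at a1
    have a2 : A * b (m₁ - k) * (3 ^ (m₁ - k) / 2) ≤ j (m₁ - k) * Real.log (n / (2 * r k)) :=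
      mul_le_mul (hj _ ▸ Nat.le_ceil _) (hlg k hk).1 (by positivity) (Nat.cast_nonneg _)
    refine (mul_le_mul_of_nonneg_left a1 (sq_nonneg _)).trans (le_trans (le_of_eq ?_)
      ((mul_le_mul_of_nonneg_left a2 (show 0 ≤ ε / 4 / (n : ℝ) ^ 2 * ((r k : ℝ) ^ 2 / 216 / 8) by
        positivity)).trans (le_of_eq (by ring))))
    rw [hA]
    field_simp
    ring
  · have a1 := hg m₁ hm.le 16 (by norm_num) (by norm_num)
    have a2 : (3 : ℝ) ^ m₁ / 2 ≤ Real.log n := by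
      rw [hnR, Real.log_pow]
      push_cast
      nlinarith only [Real.log_two_gt_d9, pow_pos (show (0 : ℝ) < 3 by norm_num) m₁]
    rw [← hnR] at a1
    refine (mul_le_mul_of_nonneg_left a1 (sq_nonneg _)).trans ?_
    rw [div_pow, div_mul_eq_mul_div]
    exact div_le_div_of_nonneg_right (by linarith only [a2, hb0, hb0 m₁, mul_nonneg_of_nonpos_of_nonpos (Mathlib.Tactic.Linarith.sub_nonpos_of_le a2) (le_of_lt (Mathlib.Tactic.Linarith.sub_neg_of_lt (hb0 m₁)))]) (sq_nonneg _)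
  · rw [le_div_iff₀ (by positivity)] at hpick
    linarith only [hpick]

theorem haus_zero' {n m : ℕ → ℕ} (h : Par n m) {η : ℕ → ℝ} (hη : Tendsto η atTop (𝓝 0))
    (hg0 : ∀ d, 0 ≤ g d) {x : ℝ} (hx : ∀ᶠ b in atTop, Cv g (n b) (η b) ((1 / 2) ^ b) (bl n m b x))
    (C δ : ℝ) : haus g (vals (fex n m) (exp (2 * Real.pi * I * x))
      (stolz (exp (2 * Real.pi * I * x)) C δ)) = 0 := by
  obtain ⟨B, hB⟩ := eventually_atTop.1 hx
  choose! F c R hR hS hC using hB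
  set P := exp (2 * Real.pi * I * x)
  have hr : Tendsto (fun k => ⨆ j, ENNReal.ofReal (2 * η (j + k))) atTop (𝓝 0) := by
    refine ENNReal.tendsto_nhds_zero.2 fun ε hε => ?_
    have h1 := ENNReal.tendsto_ofReal (hη.const_mul 2)
    rw [mul_zero, ENNReal.ofReal_zero] at h1
    obtain ⟨N, hN⟩ := eventually_atTop.1 (ENNReal.tendsto_nhds_zero.1 h1 ε hε)
    filter_upwards [eventually_ge_atTop N] with k hk using iSup_le fun j => hN _ (by omega)
  refine nonpos_iff_eq_zero.1 ((Measure.mkMetric_le_liminf_tsum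
    (ι := fun k => Σ j : ℕ, F (j + k)) _ _ hr (fun k p => Metric.closedBall
      (psum n m P (st n (p.1 + k)) + c (p.1 + k) p.2) (R (p.1 + k) p.2)) ?_ ?_ _).trans
        (Tendsto.liminf_eq ?_).le)
  · filter_upwards [eventually_ge_atTop B] with k hk p
    refine le_iSup_of_le p.1 (Metric.ediam_le_of_forall_dist_le fun y hy z hz => ?_)
    have := (hR (p.1 + k) (by omega) p.2 p.2.2).2
    linarith only [this, hy, hz, dist_triangle_right y z (psum n m P (st n (p.1 + k)) + c (p.1 + k) p.2),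
      Metric.mem_closedBall.1 hy, Metric.mem_closedBall.1 hz]
  · filter_upwards [eventually_ge_atTop B] with k hk w hw
    obtain ⟨δ', h1, h2⟩ := sausage h x C k
    obtain ⟨z, hz, rfl⟩ := vals_subset _ _ C δ h1 hw
    obtain ⟨b, hb, s, hs, h3⟩ := h2 z hz
    obtain ⟨j, rfl⟩ := Nat.exists_eq_add_of_le' hb
    obtain ⟨i, hi, h4⟩ := Set.mem_iUnion₂.1 (hC (j + k) (by omega) s hs h3)
    refine Set.mem_iUnion.2 ⟨⟨j, i, hi⟩, ?_⟩
    rw [mem_closedBall_iff_norm] at h4 ⊢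
    rwa [← sub_sub]
  · refine tendsto_of_tendsto_of_tendsto_of_le_of_le' tendsto_const_nhds
      (ENNReal.tendsto_sum_nat_add (fun b => ENNReal.ofReal ((1 / 2) ^ b))
        summable_geometric_two.tsum_ofReal_ne_top) (Eventually.of_forall fun _ => zero_le) ?_
    filter_upwards [eventually_ge_atTop B] with k hk
    rw [ENNReal.tsum_sigma']
    refine ENNReal.tsum_le_tsum fun j => ?_
    have hb : j + k ≥ B := by omega
    rw [tsum_fintype, ← ENNReal.ofReal_sum_of_nonneg fun i _ => mul_nonneg (sq_nonneg _) (hg0 _)]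
    refine ENNReal.ofReal_le_ofReal (le_trans (le_of_eq ?_) (hS _ hb))
    rw [← Finset.sum_coe_sort (F (j + k))]
    refine Finset.sum_congr rfl fun i _ => ?_
    have h2 := Metric.diam_closedBall_eq (psum n m P (st n (j + k)) + c (j + k) i) (hR _ hb i i.2).1.le
    rw [Metric.diam] at h2
    rw [h2]

theorem Neg_par {r₀ : ℝ} (h0 : 0 < r₀) (ha : AntitoneOn g (Set.Ioo 0 r₀)) (hp : ∀ d, 0 < g d)
    (hn : ∀ C : ℝ, 0 < C → ¬ Summable fun m : ℕ => Real.exp (-(C * (g (1 / 2 ^ 3 ^ m) / 3 ^ m)))) :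
    ∃ n m, Par n m ∧ ∀ᵐ x : ℝ, x ∈ Set.Ico (0 : ℝ) 1 →
      ∀ᶠ b in atTop, Cv g (n b) (1 / (b + 1 : ℝ)) ((1 / 2) ^ b) (bl n m b x) := by
  have h1 : ∀ b k : ℕ, ∃ N : ℕ, k + 1 ≤ N ∧ ∀ (D : Type) [Fintype D] (e : D → ℂ), Step e →
      (Ex e (N ^ 2) fun l => ind (¬ Cv g N (1 / (b + 1 : ℝ)) ((1 / 2) ^ b) l)) ≤ (1 / 2) ^ b :=
    fun b k => by
      have h2 : 0 < min (1 / (b + 1 : ℝ)) (1 / (k + 1 : ℝ)) := lt_min (by positivity) (by positivity)
      obtain ⟨N, h3, h4⟩ := block' h0 ha hp hn h2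
        (show (0 : ℝ) < (1 / 2) ^ b * (1 / 2) ^ b by positivity)
      refine ⟨N, ?_, fun D _ e S => (Ex_mono S fun l _ _ => ind_mono fun h5 ⟨F, c, R, h6, h7⟩ =>
        h5 ⟨F, c, R, fun i hi => ⟨(h6 i hi).1, (h6 i hi).2.trans (min_le_left _ _)⟩, h7⟩).trans
          ((h4 D e S _ (by positivity)).trans_eq (mul_div_cancel_right₀ _ (by positivity)))⟩
      have h5 := (one_div_le_one_div_of_le h2 (min_le_right _ _)).trans h3
      rw [one_div_one_div] at h5
      exact_mod_cast h5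
  choose N h2 h3 using h1
  let n : ℕ → ℕ := fun b => Nat.rec (N 0 0) (fun b k => N (b + 1) k) b
  have h4 : ∀ b, n b + 1 ≤ n (b + 1) := fun b => h2 (b + 1) (n b)
  have h5 : ∀ b, ∃ k, n b = N b k := fun b => by
    cases b with
    | zero => exact ⟨0, rfl⟩
    | succ b => exact ⟨n b, rfl⟩
  have h : Par n fun b => 4 * (7 * n b ^ 2 + (b + 1) * n (b + 1)) := by
    refine ⟨monotone_nat_of_le_succ fun b => (Nat.le_succ _).trans (h4 b), fun b => ?_,
      fun b => Nat.dvd_mul_right _ _, fun b => by omega, fun b => by omega⟩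
    induction b with
    | zero => exact h2 0 0
    | succ b ih => exact (Nat.succ_le_succ ih).trans (h4 b)
  refine ⟨n, _, h, ?_⟩
  have h6 : ∀ b, volume {x ∈ Set.Ico (0 : ℝ) 1 | ¬ Cv g (n b) (1 / (b + 1 : ℝ)) ((1 / 2) ^ b)
      (bl n (fun b => 4 * (7 * n b ^ 2 + (b + 1) * n (b + 1))) b x)} ≤
        ENNReal.ofReal ((1 / 2) ^ b) := fun b => by
    refine (Exm_vol h b fun l => ¬ Cv g (n b) (1 / (b + 1 : ℝ)) ((1 / 2) ^ b) l).trans
      (ENNReal.ofReal_le_ofReal ?_)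
    obtain ⟨k, hk⟩ := h5 b
    have h8 := h3 b k _ _ (step_rt (Exm_m h b) (h.dvd b))
    rwa [← hk] at h8
  filter_upwards [ae_eventually_notMem (ne_top_of_le_ne_top
    summable_geometric_two.tsum_ofReal_ne_top (ENNReal.tsum_le_tsum h6))] with x hx h7
  filter_upwards [hx] with b hb using by_contra fun h8 => hb ⟨h7, h8⟩

theorem partN {r₀ : ℝ} (h0 : 0 < r₀) (ha : AntitoneOn g (Set.Ioo 0 r₀))
    (hp : ∀ r ∈ Set.Ioo 0 r₀, 0 < g r)
    (hn : ∀ C : ℝ, 0 < C → ¬ Summable fun m : ℕ => Real.exp (-(C * (g (1 / 2 ^ 3 ^ m) / 3 ^ m)))) :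
    ∃ f : ℂ → ℂ, DifferentiableOn ℂ f (Metric.ball 0 1) ∧ ∀ᵐ θ : ℝ, ¬ TypeA f (exp (θ * I)) ∧
      ∀ C δ : ℝ, haus g (vals f (exp (θ * I)) (stolz (exp (θ * I)) C δ)) = 0 ∧
        volume (vals f (exp (θ * I)) (stolz (exp (θ * I)) C δ)) = 0 := by
  have hn' : ∀ C : ℝ, 0 < C → ¬ Summable fun m : ℕ =>
      Real.exp (-(C * ((|g (1 / 2 ^ 3 ^ m)| + 4) / 3 ^ m))) := fun C hC H => by
    refine hn C hC ((H.mul_left (Real.exp (C * 4))).of_norm_bounded_eventually_nat ?_)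
    obtain ⟨N, hN⟩ := exists_nat_ge (1 / r₀)
    filter_upwards [eventually_ge_atTop N] with m hm
    have a1 : N < 2 ^ 3 ^ m := by
      have := Nat.lt_pow_self (n := m) (show 1 < 3 by norm_num)
      have := Nat.lt_pow_self (n := 3 ^ m) (show 1 < 2 by norm_num)
      omega
    have a2 : (N : ℝ) < 2 ^ 3 ^ m := by exact_mod_cast a1
    have a3 := hp (1 / 2 ^ 3 ^ m) ⟨by positivity, (one_div_lt (by positivity) h0).2 (hN.trans_lt a2)⟩
    have a4 : (4 : ℝ) / 3 ^ m ≤ 4 := div_le_self (by norm_num) (one_le_pow₀ (by norm_num))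
    rw [Real.norm_of_nonneg (Real.exp_pos _).le, ← Real.exp_add, Real.exp_le_exp, abs_of_pos a3,
      add_div]
    linarith only [hC, a4, mul_nonneg_of_nonpos_of_nonpos (le_of_lt (Mathlib.Tactic.Linarith.sub_neg_of_lt hC)) (Mathlib.Tactic.Linarith.sub_nonpos_of_le a4)]
  obtain ⟨n, m, h, h4⟩ := Neg_par (g := fun d => |g d| + 4) h0 (fun a h1 b h2 hab => by
    simpa only [abs_of_pos (hp a h1), abs_of_pos (hp b h2), add_le_add_iff_right] using ha h1 h2 hab)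
    (fun d => by positivity) hn'
  refine ⟨fex n m, fex_diff h, ae_circle (p := fun P => ¬ TypeA (fex n m) P ∧ ∀ C δ : ℝ,
    haus g (vals (fex n m) P (stolz P C δ)) = 0 ∧ volume (vals (fex n m) P (stolz P C δ)) = 0) ?_⟩
  filter_upwards [not_typeA h, h4] with x h5 h6 hx
  refine ⟨h5 hx, fun C δ => ?_⟩
  have h7 := haus_zero' h (g := fun d => |g d| + 4) tendsto_one_div_add_atTop_nhds_zero_nat
    (fun d => by positivity) (h6 hx) C δ
  refine ⟨nonpos_iff_eq_zero.1 (le_trans (Measure.le_iff'.1 ?_ _) h7.le),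
    nonpos_iff_eq_zero.1 (le_trans (Measure.le_iff'.1 ?_ _) h7.le)⟩
  · exact Measure.mkMetric_mono (Eventually.of_forall fun d => ENNReal.ofReal_le_ofReal
      (mul_le_mul_of_nonneg_left (by linarith only [le_abs_self (g d.toReal)]) (sq_nonneg _)))
  · refine Measure.le_mkMetric _ _ 1 one_pos fun s hs => ?_
    rcases s.eq_empty_or_nonempty with rfl | ⟨y, hy⟩
    · exact measure_empty.trans_le zero_le
    refine (measure_mono (t := Metric.closedBall y (Metric.diam s)) fun z hz =>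
      Metric.dist_le_diam_of_mem' (ne_top_of_le_ne_top ENNReal.one_ne_top hs) hz hy).trans ?_
    rw [Complex.volume_closedBall, ← ENNReal.ofReal_pow Metric.diam_nonneg,
      ← ENNReal.ofReal_coe_nnreal, ← ENNReal.ofReal_mul (sq_nonneg _)]
    refine ENNReal.ofReal_le_ofReal (mul_le_mul_of_nonneg_left ?_ (sq_nonneg _))
    linarith only [abs_nonneg (g (Metric.ediam s).toReal), Real.pi_le_four, NNReal.coe_real_pi]

end Pool.Agent.Work.MP_31144c_an.G
end

-- merged part: Fin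
section
/-! The characterisation of the gauges.
PLAN. `disc`: on `Ioc (1 / 2 ^ 3 ^ (m + 1)) (1 / 2 ^ 3 ^ m)` the integral of `1 / (r log (1 / r))` is `log 3` (primitive `- log (log (1 / r))`), and
`b m / 3 ≤ g r / log (1 / r) ≤ 5 b (m + 1)`; model `Cover_summable` in Cover.lean; `integrableOn_iUnion_of_summable_integral_norm`, `aemeasurable_restrict_of_antitoneOn`.
`partP`: `G n = min (g (1 / 2 ^ max n l₀)) (n ^ 2 + 1)`; `F` is the indicator of the half plane times `f (exp (w I))`; `AnalyticOnNhd.is_constant_or_isOpen` (model `hit`);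
`cone_to_stolz` for `C = 1 + 1 / (a + 1)`, `δ = 1 / (k + 1)`, `cone_mono` to get the aperture `1 + 5 δ'` with `δ' ≤ 1 / 2`; `px`, `big`, `mem_vals`, `typeA_of_NT`. -/

namespace Pool.Agent.Work.MP_31144c_an.G

open Set Filter Topology MeasureTheory Complex Metric
open scoped ENNReal

variable {g : ℝ → ℝ} {r₀ : ℝ}

lemma Fin_L (m : ℕ) : Real.log (1 / (1 / (2 : ℝ) ^ 3 ^ m)) = 3 ^ m * Real.log 2 := by
  rw [one_div_one_div, Real.log_pow]
  push_cast
  rfl

lemma Fin_anti : StrictAnti fun m : ℕ => 1 / (2 : ℝ) ^ 3 ^ m := fun m n h =>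
  one_div_lt_one_div_of_lt (by positivity)
    (pow_lt_pow_right₀ one_lt_two (Nat.pow_lt_pow_right (by norm_num) h))

lemma Fin_lim : Tendsto (fun n : ℕ => 1 / (2 : ℝ) ^ n) atTop (𝓝 0) :=
  tendsto_const_nhds.div_atTop (tendsto_pow_atTop_atTop_of_one_lt one_lt_two)

lemma Fin_lim3 : Tendsto (fun m : ℕ => 1 / (2 : ℝ) ^ 3 ^ m) atTop (𝓝 0) :=
  Fin_lim.comp (tendsto_pow_atTop_atTop_of_one_lt (by norm_num))

lemma Fin_pos {r : ℝ} (h0 : 0 < r) (h1 : r < 1) : 0 < Real.log (1 / r) :=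
  Real.log_pos (one_lt_one_div h0 h1)

lemma Fin_le {a b : ℝ} (h0 : 0 < a) (h : a ≤ b) : Real.log (1 / b) ≤ Real.log (1 / a) :=
  Real.log_le_log (one_div_pos.2 (h0.trans_le h)) (one_div_le_one_div_of_le h0 h)

lemma Fin_cont {a b : ℝ} (h0 : 0 < a) (h1 : b < 1) :
    ContinuousOn (fun r : ℝ => 1 / (r * Real.log (1 / r))) (Icc a b) := fun r hr => by
  have h2 := h0.trans_le hr.1
  have h3 := Fin_pos h2 (hr.2.trans_lt h1)
  have h4 := h2.ne'
  have h5 := (one_div_pos.2 h2).ne'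
  have h6 := (mul_pos h2 h3).ne'
  refine ContinuousAt.continuousWithinAt ?_
  fun_prop (disch := assumption)

lemma Fin_int (m : ℕ) : ∫ r in Ioc (1 / (2 : ℝ) ^ 3 ^ (m + 1)) (1 / 2 ^ 3 ^ m),
    1 / (r * Real.log (1 / r)) = Real.log 3 := by
  have h1 := (Fin_anti (Nat.lt_succ_self m)).le
  have h0 : 0 < 1 / (2 : ℝ) ^ 3 ^ (m + 1) := by positivity
  have h2 : 1 / (2 : ℝ) ^ 3 ^ m < 1 :=
    (div_lt_one (by positivity)).2 (one_lt_pow₀ one_lt_two (by positivity))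
  have h3 := Real.log_pos (one_lt_two : (1 : ℝ) < 2)
  rw [← intervalIntegral.integral_of_le h1,
    intervalIntegral.integral_eq_sub_of_hasDerivAt (f := fun r => -Real.log (Real.log (1 / r)))
      (fun r hr => ?_) ((Fin_cont h0 h2).intervalIntegrable_of_Icc h1)]
  · rw [Fin_L, Fin_L, pow_succ, mul_right_comm,
      Real.log_mul (x := 3 ^ m * Real.log 2) (by positivity) (by norm_num)]
    ring
  · rw [uIcc_of_le h1] at hr
    have h4 := h0.trans_le hr.1
    have h5 := Fin_pos h4 (hr.2.trans_lt h2)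
    have h6 : HasDerivAt (fun r : ℝ => Real.log (1 / r)) (-r⁻¹) r := by
      simp only [one_div, Real.log_inv]
      exact (Real.hasDerivAt_log h4.ne').neg
    refine (h6.log h5.ne').neg.congr_deriv ?_
    field_simp

lemma Fin_dom (h1 : r₀ < 1) (ha : AntitoneOn g (Ioo 0 r₀)) (hp : ∀ r ∈ Ioo 0 r₀, 0 < g r) {C a b : ℝ}
    (hC : 0 < C) (h0 : 0 < a) (hb : b < 1) {S : Set ℝ} (hS : MeasurableSet S) (h2 : S ⊆ Ioo 0 r₀)
    (h3 : S ⊆ Icc a b) : IntegrableOn (fun r => Real.exp (-(C * g r / Real.log (1 / r))) /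
      (r * Real.log (1 / r))) S := by
  have hg := aemeasurable_restrict_of_antitoneOn (μ := volume) hS (ha.mono h2)
  refine Integrable.mono' ((Fin_cont h0 hb).integrableOn_Icc.mono_set h3)
    (AEMeasurable.aestronglyMeasurable (by fun_prop)) ?_
  filter_upwards [ae_restrict_mem hS] with r hr
  have h4 := (h2 hr).1
  have h5 := Fin_pos h4 ((h2 hr).2.trans h1)
  have h6 := hp r (h2 hr)
  rw [Real.norm_of_nonneg (by positivity)]
  exact div_le_div_of_nonneg_right (Real.exp_le_one_iff.2 (neg_nonpos.2 (by positivity)))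
    (by positivity)

lemma Fin_cmp (ha : AntitoneOn g (Ioo 0 r₀)) (hp : ∀ r ∈ Ioo 0 r₀, 0 < g r) {m : ℕ}
    (hm : 1 / (2 : ℝ) ^ 3 ^ m < r₀) {r : ℝ}
    (hr : r ∈ Ioc (1 / (2 : ℝ) ^ 3 ^ (m + 1)) (1 / 2 ^ 3 ^ m)) :
    g (1 / 2 ^ 3 ^ m) / 3 ^ m ≤ 3 * (g r / Real.log (1 / r)) ∧
      g r / Real.log (1 / r) ≤ 5 * (g (1 / 2 ^ 3 ^ (m + 1)) / 3 ^ (m + 1)) := by
  have h0 : 0 < 1 / (2 : ℝ) ^ 3 ^ (m + 1) := by positivity
  have h1 : r ∈ Ioo 0 r₀ := ⟨h0.trans hr.1, hr.2.trans_lt hm⟩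
  have h2 : 1 / (2 : ℝ) ^ 3 ^ m ∈ Ioo 0 r₀ := ⟨by positivity, hm⟩
  have h3 : 1 / (2 : ℝ) ^ 3 ^ (m + 1) ∈ Ioo 0 r₀ := ⟨h0, hr.1.trans h1.2⟩
  have h4 := Fin_le h1.1 hr.2
  have h5 := Fin_le h0 hr.1.le
  rw [Fin_L] at h4 h5
  have h6 := ha h1 h2 hr.2
  have h7 := ha h3 h1 hr.1.le
  have h8 := hp _ h2
  have h9 := hp _ h1
  have l1 := Real.log_two_gt_d9
  have l2 := Real.log_two_lt_d9
  have p3 : (0 : ℝ) < 3 ^ m := by positivity
  rw [pow_succ (3 : ℝ)] at h5 ⊢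
  have hL : 0 < Real.log (1 / r) := lt_of_lt_of_le (by positivity) h4
  constructor
  · rw [← mul_div_assoc, div_le_div_iff₀ p3 hL]
    have : Real.log (1 / r) ≤ 3 * 3 ^ m := by (refine le_of_not_gt fun h_nl => ?_; linarith only [h_nl, h5, p3, h4, l2, l1, mul_nonneg_of_nonpos_of_nonpos (Mathlib.Tactic.Linarith.sub_nonpos_of_le h4) (le_of_lt (Mathlib.Tactic.Linarith.sub_neg_of_lt l2)), mul_nonneg_of_nonpos_of_nonpos (Mathlib.Tactic.Linarith.sub_nonpos_of_le h5) (le_of_lt (Mathlib.Tactic.Linarith.sub_neg_of_lt l2)), mul_pos_of_neg_of_neg (Mathlib.Tactic.Linarith.sub_neg_of_lt l1) (Mathlib.Tactic.Linarith.sub_neg_of_lt h_nl)])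
    linarith only [h6, this, hL, h9, mul_le_mul h6 this hL.le h9.le]
  · rw [← mul_div_assoc, div_le_div_iff₀ hL (by positivity)]
    have : 3 ^ m * 3 ≤ 5 * Real.log (1 / r) := by linarith only [h4, hL, l1, p3, mul_pos_of_neg_of_neg (Mathlib.Tactic.Linarith.sub_neg_of_lt l1) (Mathlib.Tactic.Linarith.sub_neg_of_lt p3)]
    linarith only [h7, this, h9, mul_le_mul h7 this (by positivity) (h9.le.trans h7)]

theorem disc (h0 : 0 < r₀) (h1 : r₀ < 1) (ha : AntitoneOn g (Ioo 0 r₀))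
    (hp : ∀ r ∈ Ioo 0 r₀, 0 < g r) :
    (∃ C : ℝ, 0 < C ∧ IntegrableOn (fun r => Real.exp (-(C * g r / Real.log (1 / r))) /
      (r * Real.log (1 / r))) (Ioo 0 r₀)) ↔
    ∃ C : ℝ, 0 < C ∧ Summable fun m : ℕ => Real.exp (-(C * (g (1 / 2 ^ 3 ^ m) / 3 ^ m))) := by
  obtain ⟨k, hk⟩ := eventually_atTop.1 (Fin_lim3.eventually (gt_mem_nhds h0))
  have hm : ∀ m, 1 / (2 : ℝ) ^ 3 ^ (m + k) < r₀ := fun m => hk _ (Nat.le_add_left _ _)
  set s : ℕ → Set ℝ := fun m => Ioc (1 / (2 : ℝ) ^ 3 ^ (m + k + 1)) (1 / 2 ^ 3 ^ (m + k)) with hs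
  have hsub : ∀ m, s m ⊆ Ioo 0 r₀ := fun m x hx =>
    ⟨lt_trans (by positivity) hx.1, hx.2.trans_lt (hm m)⟩
  have hi : ∀ {C : ℝ}, 0 < C → ∀ m, IntegrableOn (fun r => Real.exp
      (-(C * g r / Real.log (1 / r))) / (r * Real.log (1 / r))) (s m) := fun hC m =>
    Fin_dom h1 ha hp hC (by positivity) ((hm m).trans h1) measurableSet_Ioc (hsub m)
      Ioc_subset_Icc_self
  have hj : ∀ m (c : ℝ), IntegrableOn (fun r => c * (1 / (r * Real.log (1 / r)))) (s m) :=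
    fun m c => ((Fin_cont (by positivity) ((hm m).trans h1)).integrableOn_Icc.mono_set
      Ioc_subset_Icc_self).const_mul c
  have hL : ∀ m, ∀ r ∈ s m, 0 < r * Real.log (1 / r) := fun m r hr =>
    mul_pos (hsub m hr).1 (Fin_pos (hsub m hr).1 ((hsub m hr).2.trans h1))
  have l3 : 0 < Real.log 3 := Real.log_pos (by norm_num)
  constructor
  · rintro ⟨C, hC, h⟩
    refine ⟨C * 5, by positivity, ?_⟩
    have hd : Pairwise (Function.onFun Disjoint s) := by
      refine (pairwise_disjoint_on _).2 fun m n hmn => Set.disjoint_left.2 fun x h2 h3 => ?_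
      exact absurd (h3.2.trans (Fin_anti.antitone (by omega))) (not_le.2 h2.1)
    have h3 := (hasSum_integral_iUnion (fun m => measurableSet_Ioc) hd
      (h.mono_set (iUnion_subset hsub))).summable
    rw [← summable_nat_add_iff (k + 1), ← summable_mul_right_iff l3.ne']
    refine Summable.of_nonneg_of_le (fun m => by positivity) (fun m => ?_) h3
    rw [← Fin_int (m + k), ← integral_const_mul]
    refine setIntegral_mono_on (hj m _) (hi hC m) measurableSet_Ioc fun r hr => ?_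
    rw [mul_one_div]
    refine div_le_div_of_nonneg_right (Real.exp_le_exp.2 (neg_le_neg ?_)) (hL m r hr).le
    rw [mul_div_assoc, mul_assoc]
    exact mul_le_mul_of_nonneg_left (Fin_cmp ha hp (hm m) hr).2 hC.le
  · rintro ⟨C, hC, h⟩
    have hC' : 0 < C * 3 := by positivity
    refine ⟨C * 3, hC', ?_⟩
    have h2 := integrableOn_iUnion_of_summable_integral_norm (hi hC') (Summable.of_nonneg_of_le
      (fun m => integral_nonneg fun _ => norm_nonneg _) (fun m => ?_)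
      (((summable_nat_add_iff k).2 h).mul_right (Real.log 3)))
    · refine (h2.union (Fin_dom h1 ha hp hC' (a := 1 / 2 ^ 3 ^ k) (by positivity) h1
        measurableSet_Ioo (Ioo_subset_Ioo_left (by positivity)) Ioo_subset_Icc_self)).mono_set
        fun r hr => ?_
      by_cases h3 : 1 / (2 : ℝ) ^ 3 ^ k < r
      · exact Or.inr ⟨h3, hr.2⟩
      have hex : ∃ m, 1 / (2 : ℝ) ^ 3 ^ (m + k + 1) < r :=
        ((Fin_lim3.comp (tendsto_add_atTop_nat (k + 1))).eventually (gt_mem_nhds hr.1)).exists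
      refine Or.inl (mem_iUnion.2 ⟨Nat.find hex, Nat.find_spec hex, ?_⟩)
      rcases h4 : Nat.find hex with _ | n
      · simpa using h3
      · have := Nat.find_min hex (m := n) (by omega)
        rw [Nat.add_right_comm n 1 k]
        exact not_lt.1 this
    · rw [← Fin_int (m + k), ← integral_const_mul]
      refine setIntegral_mono_on (hi hC' m).norm (hj m _) measurableSet_Ioc fun r hr => ?_
      have h3 := hL m r hr
      rw [mul_one_div, Real.norm_of_nonneg (by positivity)]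
      refine div_le_div_of_nonneg_right (Real.exp_le_exp.2 (neg_le_neg ?_)) h3.le
      rw [mul_div_assoc, mul_assoc]
      exact mul_le_mul_of_nonneg_left (Fin_cmp ha hp (hm m) hr).1 hC.le

lemma Fin_gau (h0 : 0 < r₀) (ha : AntitoneOn g (Ioo 0 r₀)) (hp : ∀ r ∈ Ioo 0 r₀, 0 < g r) {C : ℝ}
    (hC : 0 < C) (hs : Summable fun m : ℕ => Real.exp (-(C * (g (1 / 2 ^ 3 ^ m) / 3 ^ m)))) :
    ∃ (G : ℕ → ℝ) (l : ℕ), Gau G C ∧ Tendsto (fun n => G n / 4 ^ n) atTop (𝓝 0) ∧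
      ∀ n, l ≤ n → ∀ d ∈ Ioc (0 : ℝ) (1 / 2 ^ n), G n ≤ g d := by
  obtain ⟨l, hl⟩ := eventually_atTop.1 (Fin_lim.eventually (gt_mem_nhds h0))
  have hm : ∀ n, 1 / (2 : ℝ) ^ max n l ∈ Ioo 0 r₀ := fun n => ⟨by positivity, hl _ (le_max_right _ _)⟩
  have hq : ∀ n : ℕ, 0 < min (g (1 / 2 ^ max n l)) ((n : ℝ) ^ 2 + 1) := fun n =>
    lt_min (hp _ (hm n)) (by positivity)
  refine ⟨fun n => min (g (1 / 2 ^ max n l)) (n ^ 2 + 1), l, ⟨fun a b hab => min_le_min
    (ha (hm b) (hm a) (one_div_le_one_div_of_le (by positivity)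
      (pow_le_pow_right₀ one_le_two (max_le_max_right _ hab)))) (by gcongr), hq, hC, ?_⟩, ?_,
    fun n hn d hd => (min_le_left _ _).trans ?_⟩
  · have h1 : Summable fun m : ℕ => Real.exp (-C) ^ m :=
      summable_geometric_of_lt_one (Real.exp_pos _).le (Real.exp_lt_one_iff.2 (by linarith only [hC]))
    refine (hs.add h1).of_norm_bounded_eventually_nat ?_
    filter_upwards [eventually_ge_atTop l] with m hm'
    have h2 : m < 3 ^ m := Nat.lt_pow_self (by norm_num)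
    have h3 : (m : ℝ) ≤ 3 ^ m := by exact_mod_cast h2.le
    rw [Real.norm_of_nonneg (Real.exp_pos _).le, max_eq_left (by omega), ← Real.exp_nat_mul]
    rcases min_choice (g (1 / 2 ^ 3 ^ m)) (((3 ^ m : ℕ) : ℝ) ^ 2 + 1) with h | h <;> rw [h]
    · exact le_add_of_nonneg_right (Real.exp_pos _).le
    · refine le_add_of_nonneg_of_le (Real.exp_pos _).le (Real.exp_le_exp.2 ?_)
      have h4 : (m : ℝ) ≤ (((3 ^ m : ℕ) : ℝ) ^ 2 + 1) / 3 ^ m := by
        push_cast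
        rw [le_div_iff₀ (by positivity)]
        linarith only [h3, mul_le_mul_of_nonneg_right h3 (by positivity : (0 : ℝ) ≤ 3 ^ m)]
      linarith only [h4, hC, mul_le_mul_of_nonneg_left h4 hC.le]
  · have h1 := (tendsto_pow_const_div_const_pow_of_one_lt 2 (by norm_num : (1 : ℝ) < 4)).add
      (tendsto_pow_const_div_const_pow_of_one_lt 0 (by norm_num : (1 : ℝ) < 4))
    rw [add_zero] at h1
    refine squeeze_zero (fun n => div_nonneg (hq n).le (by positivity)) (fun n => ?_) h1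
    rw [← add_div, pow_zero]
    exact div_le_div_of_nonneg_right (min_le_right _ _) (by positivity)
  · rw [max_eq_left hn]
    exact ha ⟨hd.1, hd.2.trans_lt (hl n hn)⟩ ⟨by positivity, hl n hn⟩ hd.2

theorem partP (h0 : 0 < r₀) (ha : AntitoneOn g (Ioo 0 r₀)) (hp : ∀ r ∈ Ioo 0 r₀, 0 < g r) {C : ℝ}
    (hC : 0 < C) (hs : Summable fun m : ℕ => Real.exp (-(C * (g (1 / 2 ^ 3 ^ m) / 3 ^ m)))) :
    Strong g := by
  classical
  obtain ⟨G, l, hG, h4, hg⟩ := Fin_gau h0 ha hp hC hs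
  intro f hf
  set F : ℂ → ℂ := piecewise {w : ℂ | 0 < w.im} (fun w => f (exp (w * I))) fun _ => 0 with hFd
  have hH : IsOpen {w : ℂ | 0 < w.im} := isOpen_lt (by fun_prop) (by fun_prop)
  have hF0 : DifferentiableOn ℂ (fun w => f (exp (w * I))) {w | 0 < w.im} := by
    refine hf.comp (Differentiable.differentiableOn (by fun_prop)) fun w hw => ?_
    rw [mem_ball_zero_iff, norm_exp, Real.exp_lt_one_iff]
    simpa using hw
  have he : ∀ w : ℂ, 0 < w.im → F w = f (exp (w * I)) := fun w hw =>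
    piecewise_eq_of_mem _ _ _ hw
  have hF : DifferentiableOn ℂ F {w | 0 < w.im} := hF0.congr he
  have hm : Measurable F :=
    hF0.continuousOn.measurable_piecewise continuousOn_const hH.measurableSet
  have hT : ∀ t : ℝ, NT F t → TypeA f (exp (t * I)) := fun t h => typeA_of_NT fun C hC => by
    obtain ⟨L, hL⟩ := h C hC
    refine ⟨L, hL.congr' ?_⟩
    filter_upwards [self_mem_nhdsWithin] with z hz
    exact he z (im_pos_of_cone (by linarith only [hC]) hz)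
  rcases (hF.analyticOnNhd hH).is_constant_or_isOpen (convex_halfSpace_im_gt 0).isPreconnected with
    ⟨w, hw⟩ | ho
  · refine Eventually.of_forall fun t => Or.inl (hT t fun C hC => ⟨w, tendsto_const_nhds.congr' ?_⟩)
    filter_upwards [self_mem_nhdsWithin] with z hz
    exact (hw z (im_pos_of_cone (by linarith) hz)).symm
  have key : ∀ a k : ℕ, ∃ O : ℝ → Set ℂ, (∀ t, IsOpen (O t) ∧ O t ⊆ f '' stolz (exp (t * I))
      (1 + 1 / ((a : ℝ) + 1)) (1 / ((k : ℝ) + 1))) ∧ ∀ᵐ t : ℝ, NT F t ∨ PX G (O t) := by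
    intro a k
    obtain ⟨C₁, η, h1, h2, h3⟩ := cone_to_stolz (C := 1 + 1 / ((a : ℝ) + 1))
      (lt_add_of_pos_right _ (by positivity)) (δ := 1 / ((k : ℝ) + 1)) (by positivity)
    obtain ⟨δ, d0, d1, d2⟩ : ∃ δ : ℝ, 0 < δ ∧ δ ≤ 1 / 2 ∧ 1 + 5 * δ ≤ C₁ :=
      ⟨min (1 / 2) ((C₁ - 1) / 5), lt_min (by norm_num) (by linarith only [h1]), min_le_left _ _,
        by linarith only [min_le_right (1 / 2) ((C₁ - 1) / 5)]⟩
    have h5 : ∀ t, IsOpen (F '' cone t (1 + 5 * δ) η) := fun t =>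
      ho _ (fun z hz => im_pos_of_cone (by linarith only [d0, d1]) hz) (isOpen_cone _ _ _)
    refine ⟨fun t => F '' cone t (1 + 5 * δ) η, fun t => ⟨h5 t, ?_⟩,
      px hG ⟨hF, hm, d0, d1⟩ h2 fun t => (h5 t).measurableSet⟩
    rintro _ ⟨z, hz, rfl⟩
    exact ⟨_, h3 t z (cone_mono (by linarith only [d0, d1]) d2 le_rfl hz),
      (he z (im_pos_of_cone (by linarith only [d0, d1]) hz)).symm⟩
  choose O hO hX using key
  filter_upwards [ae_all_iff.2 fun a => ae_all_iff.2 (hX a)] with t ht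
  by_cases hN : NT F t
  · exact Or.inl (hT t hN)
  refine Or.inr fun C δ hC hδ U hU hne => ?_
  obtain ⟨a, h1⟩ := exists_nat_one_div_lt (sub_pos.2 hC)
  refine top_le_iff.1 ((big hG.mono hG.tendsto h4 (fun n => (hG.pos n).le) hg
    (O := fun k => O a k t) (fun k => ⟨(hO a k t).1, (ht a k).resolve_left hN⟩) hU hne).ge.trans
    (measure_mono (inter_subset_inter_left _ fun w hw => ?_)))
  exact mem_vals (norm_exp_ofReal_mul_I t) (by linarith only [h1]) hδ fun k => (hO a k t).2 (mem_iInter.1 hw k)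

theorem exact_gauge (h0 : 0 < r₀) (h1 : r₀ < 1) (ha : AntitoneOn g (Ioo 0 r₀))
    (hp : ∀ r ∈ Ioo 0 r₀, 0 < g r) : List.TFAE [
      ∃ C : ℝ, 0 < C ∧ IntegrableOn (fun r => Real.exp (-(C * g r / Real.log (1 / r))) /
        (r * Real.log (1 / r))) (Ioo 0 r₀),
      Strong g,
      ∀ f : ℂ → ℂ, DifferentiableOn ℂ f (ball 0 1) → ∀ᵐ θ : ℝ, TypeA f (exp (θ * I)) ∨
        ∀ C δ : ℝ, 1 < C → 0 < δ → haus g (vals f (exp (θ * I)) (stolz (exp (θ * I)) C δ)) ≠ 0,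
      ¬ ∃ f : ℂ → ℂ, DifferentiableOn ℂ f (ball 0 1) ∧ ∀ᵐ θ : ℝ, ¬ TypeA f (exp (θ * I)) ∧
        ∀ C δ : ℝ, haus g (vals f (exp (θ * I)) (stolz (exp (θ * I)) C δ)) = 0 ∧
          volume (vals f (exp (θ * I)) (stolz (exp (θ * I)) C δ)) = 0] := by
  tfae_have 1 → 2 := fun h => by
    obtain ⟨C, hC, hs⟩ := (disc h0 h1 ha hp).1 h
    exact partP h0 ha hp hC hs
  tfae_have 2 → 3 := fun h f hf => (h f hf).mono fun θ h1 => h1.imp_right fun h2 C δ hC hδ => by
    have h3 := h2 C δ hC hδ univ isOpen_univ univ_nonempty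
    rw [inter_univ] at h3
    rw [h3]
    exact ENNReal.top_ne_zero
  tfae_have 3 → 4 := fun h ⟨f, hf, h1⟩ => by
    obtain ⟨θ, h2, h3⟩ := ((h f hf).and h1).exists
    exact h2.resolve_left h3.1 2 1 (by norm_num) one_pos (h3.2 2 1).1
  tfae_have 4 → 1 := fun h => (disc h0 h1 ha hp).2 (by
    by_contra hn
    exact h (partN h0 ha hp fun C hC hs => hn ⟨C, hC, hs⟩))
  tfae_finish

theorem taylor :
    Strong fun r => Real.log (1 / r) * Real.log (Real.log (Real.log (1 / r))) := by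
  -- `partP` directly: `r₀ = exp (-3)`, `g (1 / 2 ^ 3 ^ m) / 3 ^ m ≥ log m / 2` for large `m`, `C = 4`
  have h3 : ∀ r ∈ Ioo 0 (Real.exp (-3)), 3 < Real.log (1 / r) ∧ 1 < Real.log (Real.log (1 / r)) :=
    fun r hr => by
      have h1 : 3 < Real.log (1 / r) := by
        rw [one_div, Real.log_inv, lt_neg]
        exact (Real.log_lt_iff_lt_exp hr.1).2 hr.2
      exact ⟨h1, (Real.lt_log_iff_exp_lt (by linarith only [h1])).2 (by linarith only [h1, Real.exp_one_lt_d9])⟩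
  refine partP (Real.exp_pos (-3)) (fun r hr r' hr' hle => ?_)
    (fun r hr => mul_pos (by linarith only [h3, hr, (h3 r hr).1]) (Real.log_pos (h3 r hr).2)) (C := 4)
    (by norm_num) ?_
  · have h1 := Fin_le hr.1 hle
    obtain ⟨h4, h5⟩ := h3 r' hr'
    exact mul_le_mul h1 (Real.log_le_log (by linarith only [h5]) (Real.log_le_log (by linarith only [h4]) h1))
      (Real.log_pos h5).le (by linarith only [h1, h4])
  · refine ((Real.summable_nat_pow_inv.2 one_lt_two).mul_left 4).of_norm_bounded_eventually_nat ?_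
    filter_upwards [eventually_ge_atTop 2] with m hm
    have l1 := Real.log_two_gt_d9
    have hm' : (2 : ℝ) ≤ m := by exact_mod_cast hm
    have h1 : (2 : ℝ) ^ m ≤ 3 ^ m * Real.log 2 := by
      obtain ⟨n, rfl⟩ := Nat.exists_eq_add_of_le' hm
      have h2 : (2 : ℝ) ^ n ≤ 3 ^ n := by gcongr; norm_num
      have h4 : (0 : ℝ) < 2 ^ n := by positivity
      rw [pow_add, pow_add]
      linarith only [h2, h4, l1, mul_nonneg_of_nonpos_of_nonpos (le_of_lt (Mathlib.Tactic.Linarith.sub_neg_of_lt l1)) (Mathlib.Tactic.Linarith.sub_nonpos_of_le h2), mul_pos_of_neg_of_neg (Mathlib.Tactic.Linarith.sub_neg_of_lt l1) (Mathlib.Tactic.Linarith.sub_neg_of_lt h4)]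
    have h2 : (m : ℝ) / 2 ≤ Real.log (3 ^ m * Real.log 2) := by
      refine le_trans ?_ (Real.log_le_log (by positivity) h1)
      rw [Real.log_pow]
      linarith only [hm', l1, mul_nonneg_of_nonpos_of_nonpos (Mathlib.Tactic.Linarith.sub_nonpos_of_le (Mathlib.Tactic.Linarith.natCast_nonneg ℝ m)) (le_of_lt (Mathlib.Tactic.Linarith.sub_neg_of_lt l1))]
    have h4 := Real.log_le_log (by positivity) h2
    have h5 : 0 ≤ Real.log ((m : ℝ) / 2) := Real.log_nonneg (by linarith only [hm'])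
    have h6 : (4 : ℝ) * ((m : ℝ) ^ 2)⁻¹ = Real.exp (-(2 * Real.log (m / 2))) := by
      rw [Real.exp_neg, two_mul, Real.exp_add, Real.exp_log (by positivity)]
      field_simp
      norm_num
    rw [Real.norm_of_nonneg (Real.exp_pos _).le, Fin_L, h6, mul_assoc,
      mul_div_cancel_left₀ _ (by positivity)]
    exact Real.exp_le_exp.2 (neg_le_neg (by linarith only [h4, h5, l1, mul_nonneg_of_nonpos_of_nonpos (le_of_lt (Mathlib.Tactic.Linarith.sub_neg_of_lt l1)) (Mathlib.Tactic.Linarith.sub_nonpos_of_le h4), mul_nonneg_of_nonpos_of_nonpos (le_of_lt (Mathlib.Tactic.Linarith.sub_neg_of_lt l1)) (Mathlib.Tactic.Linarith.sub_nonpos_of_le h5)]))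

end Pool.Agent.Work.MP_31144c_an.G
end
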