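import Pool.Agent.Work.MP_31144c_an.Cover

-- merged part: GD
section
/-! Working definitions for the exact gauge (paper: h61_31144c_exact.md in the team store). -/

namespace Pool.Agent.Work.MP_31144c_an.G

open Set Filter Topology MeasureTheory Complex Metric
open scoped ENNReal

/-- Normalised area measure on the unit disc. -/
noncomputable def dsk : Measure ℂ := ProbabilityTheory.cond volume (ball 0 1)

/-- One step from `z`. -/
noncomputable def mv (δ : ℝ) (z ω : ℂ) : ℂ := z + (δ * z.im) • ω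

/-- The point with coordinates `(log y, x)`. -/
noncomputable def pt (p : ℝ × ℝ) : ℂ := ⟨p.2, Real.exp p.1⟩

/-- One step in the coordinates `(log y, x)`. -/
noncomputable def Tm (δ : ℝ) (ω : ℂ) (p : ℝ × ℝ) : ℝ × ℝ :=
  (p.1 + Real.log (1 + δ * ω.im), p.2 + δ * Real.exp p.1 * ω.re)

/-- The mean over the disc of radius `δ im z`. -/
noncomputable def av (δ : ℝ) (v : ℂ → ℝ) (z : ℂ) : ℝ := ∫ ω, v (mv δ z ω) ∂dsk

/-- Logarithmic potential of a set. -/
noncomputable def pot (A : Set ℂ) (w : ℂ) : ℝ := ∫ a in A, Real.log ‖w - a‖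

/-- The comparison radius. -/
noncomputable def rad (c : ℂ) (ρ : ℝ) (w : ℂ) : ℝ := 3 / 2 * max ‖w - c‖ (2 * ρ)

/-- The Jensen counting function. -/
noncomputable def nn (F : ℂ → ℂ) (δ : ℝ) (z a : ℂ) : ℝ≥0∞ :=
  ENNReal.ofReal (av δ (fun w => Real.log ‖F w - a‖) z - Real.log ‖F z - a‖)

/-- The occupation of `A` near `z`. -/
noncomputable def em (F : ℂ → ℂ) (δ : ℝ) (A : Set ℂ) (z : ℂ) : ℝ :=
  av δ (fun w => pot A (F w)) z - pot A (F z)

/-- Dyadic index. -/
noncomputable def ix (k : ℕ) (t : ℝ) : ℤ := ⌊2 ^ k * t⌋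

/-- Dyadic interval. -/
def dI (k : ℕ) (j : ℤ) : Set ℝ := {t | ix k t = j}

/-- Dyadic square. -/
def dQ (n : ℕ) (q : ℤ × ℤ) : Set ℂ := {w | (ix n w.re, ix n w.im) = q}

/-- The levels. -/
noncomputable def sg (δ : ℝ) (k : ℕ) : ℝ := Real.log (2 / (δ * 2 ^ k))

/-- The box of depth `d` below the node `(k, j)`. -/
def box (δ : ℝ) (d k : ℕ) (j : ℤ) : Set (ℝ × ℝ) := Ico (sg δ (k + d)) (sg δ k) ×ˢ dI k j

/-- Normalised integral over a Whitney box. -/
noncomputable def bm (δ : ℝ) (φ : ℂ → ℝ) (k : ℕ) (j : ℤ) : ℝ :=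
  2 ^ k * ∫ p in box δ 1 k j, φ (pt p)

/-- Occupation density of a Whitney box. -/
noncomputable def dens (F : ℂ → ℂ) (δ : ℝ) (k : ℕ) (j : ℤ) (a : ℂ) : ℝ≥0∞ :=
  2 ^ k * ∫⁻ p in box δ 1 k j, nn F δ (pt p) a

/-- Sum along the nodes of `t`. -/
noncomputable def Sm (a : ℕ → ℤ → ℝ) (k d : ℕ) (t : ℝ) : ℝ :=
  ∑ i ∈ Finset.range d, a (k + i) (ix (k + i) t)

/-- Weighted sum over the descendants of a node. -/
noncomputable def Tr (a : ℕ → ℤ → ℝ) : ℕ → ℕ → ℤ → ℝ
  | 0, _, _ => 0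
  | d + 1, k, j => a k j / 2 ^ k + Tr a d (k + 1) (2 * j) + Tr a d (k + 1) (2 * j + 1)

open Classical in
/-- Restriction to the active nodes. -/
noncomputable def cut (Act : ℕ → ℤ → Prop) (a : ℕ → ℤ → ℝ) (k : ℕ) (j : ℤ) : ℝ :=
  if Act k j then a k j else 0

/-- Parents of active nodes are active. -/
def Her (Act : ℕ → ℤ → Prop) : Prop := ∀ k j, Act (k + 1) (2 * j) ∨ Act (k + 1) (2 * j + 1) → Act k j

/-- An admissible weight carried by `O`. -/
structure Wt (G : ℕ → ℝ) (l : ℕ) (O : Set ℂ) (w : ℂ → ℝ≥0∞) : Prop where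
  meas : Measurable w
  supp : ∀ x, w x ≠ 0 → x ∈ O
  adm : ∀ n, l ≤ n → ∀ q, ∫⁻ x in dQ n q, w x ≤ ENNReal.ofReal (G n / 4 ^ n)

/-- `O` carries large admissible weights in all small squares. -/
def PX (G : ℕ → ℝ) (O : Set ℂ) : Prop :=
  ∀ M : ℝ, ∀ᶠ l in atTop, ∀ q, ∃ w, Wt G l O w ∧ ENNReal.ofReal (M / 4 ^ l) ≤ ∫⁻ x in dQ l q, w x

/-- The discrete form of the integral test. -/
structure Gau (G : ℕ → ℝ) (C : ℝ) : Prop where
  mono : Monotone G
  pos : ∀ n, 0 < G n
  hC : 0 < C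
  sum : Summable fun m : ℕ => Real.exp (-(C * (G (3 ^ m) / 3 ^ m)))

/-- The standing assumptions. -/
structure An (F : ℂ → ℂ) (δ : ℝ) : Prop where
  diff : DifferentiableOn ℂ F {w | 0 < w.im}
  meas : Measurable F
  pos : 0 < δ
  le : δ ≤ 1 / 2

/-- Partial sums of the potential of `a`. -/
noncomputable def Wn (δ : ℝ) (a : ℝ × ℝ → ℝ≥0∞) : ℕ → ℝ × ℝ → ℝ≥0∞
  | 0, p => a p
  | n + 1, p => a p + ∫⁻ ω, Wn δ a n (Tm δ ω p) ∂dsk

open Classical in
/-- The Green function of the half plane, cut near its pole. -/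
noncomputable def gr (δ : ℝ) (ζ z : ℂ) : ℝ :=
  if ‖z - ζ‖ ≤ δ * ζ.im / 4 then 0 else Real.log ‖(z - (starRingEnd ℂ) ζ) / (z - ζ)‖

end Pool.Agent.Work.MP_31144c_an.G
end

-- merged part: Mean
section
/-! Means over discs and annuli (step 1 of the paper).
PLAN. `avg_eq`: `cond` is `(volume (ball 0 1))⁻¹ • restrict`, `Complex.volume_ball`, `Measure.setIntegral_comp_smul_of_pos` (or `integral_comp_smul` on indicators),
translation invariance. `sub_mean`: for `v = M' - u ≥ 0` use `Complex.lintegral_comp_polarCoord_symm` on the indicator of the annulus, `polarCoord.target = Ioi 0 ×ˢ Ioo (-π) π`,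
Tonelli (`lintegral_prod`/`setLIntegral_prod`), `circleAverage_eq_integral_add` or periodicity, compare with the constant `M' - u₀` (same formula for the constant function, so the
area is never computed); note `u₀ ≤ M` unless the annulus is null. `mean_harm`: replace `u` by the indicator of the closed ball times `u` (`ContinuousOn.measurable_piecewise`),
`InnerProductSpace.HarmonicOnNhd.circleAverage_eq`, `AnalyticAt.harmonicAt_re`, `sub_mean` for `u` and `-u` with `r = 0`. `jen`: `AnalyticOnNhd.circleAverage_log_norm`,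
`finsum_nonneg`, `MeromorphicOn.circleIntegrable_log_norm`; the upper bound `log x ≤ x`. -/

namespace Pool.Agent.Work.MP_31144c_an.G

open Set Filter Topology MeasureTheory Complex Metric
open scoped ENNReal

instance dsk_prob : IsProbabilityMeasure dsk :=
  ProbabilityTheory.cond_isProbabilityMeasure_of_finite (measure_ball_pos volume _ one_pos).ne'
    measure_ball_lt_top.ne

theorem ae_dsk : ∀ᵐ ω ∂dsk, ‖ω‖ < 1 :=
  (ProbabilityTheory.ae_cond_mem (μ := volume) (measurableSet_ball (x := (0 : ℂ)) (ε := 1))).mono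
    fun _ h => mem_ball_zero_iff.1 h

theorem Mean_vol (z : ℂ) {r : ℝ} (hr : 0 ≤ r) : volume.real (ball z r) = Real.pi * r ^ 2 := by
  rw [Measure.real, Complex.volume_ball, ENNReal.toReal_mul, ENNReal.toReal_pow,
    ENNReal.toReal_ofReal hr, ENNReal.coe_toReal, NNReal.coe_real_pi, mul_comm]

theorem avg_eq (φ : ℂ → ℝ) (z : ℂ) {r : ℝ} (hr : 0 < r) :
    ∫ ω, φ (z + r • ω) ∂dsk = (Real.pi * r ^ 2)⁻¹ * ∫ w in ball z r, φ w := by
  have h1 := Measure.setIntegral_comp_smul_of_pos volume (fun w : ℂ => φ (z + w)) (ball 0 1) hr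
  have h2 := (measurePreserving_add_left volume z).setIntegral_preimage_emb
    (measurableEmbedding_addLeft z) φ (ball z r)
  have h3 : (fun x => z + x) ⁻¹' ball z r = ball 0 r := by
    ext x
    simp [dist_eq_norm]
  have h4 := Mean_vol 0 zero_le_one
  rw [h3] at h2
  rw [smul_unitBall_of_pos hr, h2, Complex.finrank_real_complex] at h1
  rw [Measure.real] at h4
  rw [dsk, ProbabilityTheory.cond, integral_smul_measure, h1, ENNReal.toReal_inv, h4,
    smul_eq_mul, smul_eq_mul, mul_inv, mul_inv, one_pow, inv_one, mul_one, mul_assoc]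

theorem Mean_polar {v : ℂ → ℝ≥0∞} (hv : Measurable v) (c : ℂ) :
    ∫⁻ w, v w = ∫⁻ ρ in Ioi (0 : ℝ), ∫⁻ θ in Ioo (-Real.pi) Real.pi,
      ENNReal.ofReal ρ * v (circleMap c ρ θ) := by
  have h1 := Complex.lintegral_comp_polarCoord_symm fun w => v (c + w)
  have h2 : ∀ p : ℝ × ℝ, c + Complex.polarCoord.symm p = circleMap c p.1 p.2 := by
    intro p
    rw [Complex.polarCoord_symm_apply, circleMap, Complex.exp_mul_I, Complex.ofReal_cos,
      Complex.ofReal_sin]
  have h3 : Measurable fun p : ℝ × ℝ => ENNReal.ofReal p.1 * v (circleMap c p.1 p.2) := by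
    refine (ENNReal.measurable_ofReal.comp measurable_fst).mul (hv.comp ?_)
    unfold circleMap
    fun_prop
  rw [lintegral_add_left_eq_self v c] at h1
  simp only [h2, smul_eq_mul] at h1
  rw [← h1, polarCoord_target, Measure.volume_eq_prod, setLIntegral_prod _ h3.aemeasurable]

theorem Mean_circ {v : ℂ → ℝ} {c : ℂ} {ρ K : ℝ} (h0 : ∀ θ, 0 ≤ v (circleMap c ρ θ))
    (hi : CircleIntegrable v c ρ) (hK : Real.circleAverage v c ρ ≤ K) :
    ∫⁻ θ in Ioo (-Real.pi) Real.pi, ENNReal.ofReal (v (circleMap c ρ θ)) ≤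
      ∫⁻ _ in Ioo (-Real.pi) Real.pi, ENNReal.ofReal K := by
  have hp : (fun θ => v (circleMap c ρ θ)).Periodic (2 * Real.pi) := fun x => by
    simp only [periodic_circleMap c ρ x]
  have hle : -Real.pi ≤ Real.pi := by linarith [Real.pi_pos]
  have h1 := hp.intervalIntegrable₀ Real.two_pi_pos.ne' hi (-Real.pi) Real.pi
  have h2 := hp.intervalIntegral_add_eq (-Real.pi) 0
  rw [intervalIntegrable_iff_integrableOn_Ioo_of_le hle] at h1
  rw [show -Real.pi + 2 * Real.pi = Real.pi by ring, zero_add,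
    intervalIntegral.integral_of_le hle, integral_Ioc_eq_integral_Ioo] at h2
  rw [Real.circleAverage_def, smul_eq_mul, inv_mul_le_iff₀ Real.two_pi_pos] at hK
  rw [← ofReal_integral_eq_lintegral_ofReal h1 (Eventually.of_forall h0), h2, setLIntegral_const,
    Real.volume_Ioo, ← ENNReal.ofReal_mul' (by linarith [Real.pi_pos])]
  exact ENNReal.ofReal_le_ofReal (by linarith)

theorem Mean_cmp {v : ℂ → ℝ} (hm : Measurable v) {c : ℂ} {r R K : ℝ}
    (hb : ∀ w ∈ ball c R, 0 ≤ v w)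
    (hc : ∀ ρ ∈ Ioo 0 R, CircleIntegrable v c ρ ∧ Real.circleAverage v c ρ ≤ K) :
    ∫⁻ w in ball c R \ ball c r, ENNReal.ofReal (v w) ≤
      ENNReal.ofReal K * volume (ball c R \ ball c r) := by
  have hX : MeasurableSet (ball c R \ ball c r) := measurableSet_ball.diff measurableSet_ball
  rw [← setLIntegral_const, ← lintegral_indicator hX, ← lintegral_indicator hX,
    Mean_polar ((ENNReal.measurable_ofReal.fun_comp hm).indicator hX) c,
    Mean_polar (measurable_const.indicator hX) c]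
  refine setLIntegral_mono' measurableSet_Ioi fun ρ hρ => ?_
  have hρ' : 0 < ρ := hρ
  have hd : ∀ θ, dist (circleMap c ρ θ) c = ρ := fun θ => by
    rw [dist_eq_norm, circleMap_sub_center, norm_circleMap_zero, abs_of_pos hρ']
  rw [lintegral_const_mul' _ _ ENNReal.ofReal_ne_top, lintegral_const_mul' _ _ ENNReal.ofReal_ne_top]
  refine mul_le_mul_right ?_ _
  by_cases h : ρ < R ∧ ¬ ρ < r
  · have hmem : ∀ θ, circleMap c ρ θ ∈ ball c R \ ball c r := fun θ => by
      rw [Set.mem_sdiff, mem_ball, mem_ball, hd]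
      exact h
    simp only [indicator_of_mem (hmem _)]
    exact Mean_circ (fun θ => hb _ (hmem θ).1) (hc ρ ⟨hρ', h.1⟩).1 (hc ρ ⟨hρ', h.1⟩).2
  · have hmem : ∀ θ, circleMap c ρ θ ∉ ball c R \ ball c r := fun θ => by
      rw [Set.mem_sdiff, mem_ball, mem_ball, hd]
      exact h
    simp only [indicator_of_notMem (hmem _), le_refl]

theorem sub_mean {u : ℂ → ℝ} (hm : Measurable u) {c : ℂ} {r R M u₀ : ℝ}
    (hb : ∀ w ∈ ball c R, u w ≤ M)
    (hc : ∀ ρ ∈ Ioo 0 R, CircleIntegrable u c ρ ∧ u₀ ≤ Real.circleAverage u c ρ) :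
    IntegrableOn u (ball c R \ ball c r) ∧
      volume.real (ball c R \ ball c r) * u₀ ≤ ∫ w in ball c R \ ball c r, u w := by
  rcases le_or_gt R 0 with hR | hR
  · simp [ball_eq_empty.2 hR]
  have hX : MeasurableSet (ball c R \ ball c r) := measurableSet_ball.diff measurableSet_ball
  have hfin : volume (ball c R \ ball c r) ≠ ∞ :=
    ((measure_mono Set.sdiff_subset).trans_lt measure_ball_lt_top).ne
  have hM : u₀ ≤ M := by
    obtain ⟨h1, h2⟩ := hc (R / 2) ⟨half_pos hR, half_lt_self hR⟩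
    refine h2.trans (Real.circleAverage_mono_on_of_le_circle h1 fun x hx => hb x ?_)
    rw [abs_of_pos (half_pos hR)] at hx
    exact sphere_subset_ball (half_lt_self hR) hx
  have hv : Measurable fun w => M - u w := measurable_const.sub hm
  have h1 := Mean_cmp (r := r) (K := M - u₀) hv (fun w hw => sub_nonneg.2 (hb w hw)) fun ρ hρ =>
    ⟨(circleIntegrable_const M c ρ).sub (hc ρ hρ).1, by
      rw [Real.circleAverage_fun_sub (circleIntegrable_const M c ρ) (hc ρ hρ).1,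
        Real.circleAverage_const]
      exact sub_le_sub_left (hc ρ hρ).2 M⟩
  have hnn : 0 ≤ᵐ[volume.restrict (ball c R \ ball c r)] fun w => M - u w :=
    (ae_restrict_mem hX).mono fun w hw => sub_nonneg.2 (hb w hw.1)
  have ht : ENNReal.ofReal (M - u₀) * volume (ball c R \ ball c r) ≠ ∞ :=
    ENNReal.mul_ne_top ENNReal.ofReal_ne_top hfin
  have h2 : IntegrableOn (fun w => M - u w) (ball c R \ ball c r) :=
    ⟨hv.aestronglyMeasurable, (hasFiniteIntegral_iff_ofReal hnn).2 (h1.trans_lt ht.lt_top)⟩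
  have h3 : IntegrableOn (fun _ : ℂ => M) (ball c R \ ball c r) := integrableOn_const hfin
  have h4 : IntegrableOn u (ball c R \ ball c r) := by
    have h5 : IntegrableOn (fun w => M - (M - u w)) (ball c R \ ball c r) := h3.sub h2
    simpa only [sub_sub_cancel] using h5
  have h6 := ENNReal.toReal_mono ht h1
  rw [← integral_eq_lintegral_of_nonneg_ae hnn hv.aestronglyMeasurable, integral_sub h3 h4,
    setIntegral_const, ENNReal.toReal_mul, ENNReal.toReal_ofReal (sub_nonneg.2 hM), smul_eq_mul,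
    ← Measure.real] at h6
  exact ⟨h4, by linarith⟩

theorem Mean_half {u : ℂ → ℝ} {z : ℂ} {r : ℝ} (hr : 0 < r) (h : ∀ w ∈ closedBall z r, Harm u w) :
    Real.pi * r ^ 2 * u z ≤ ∫ w in ball z r, u w := by
  classical
  have hh : InnerProductSpace.HarmonicOnNhd u (closedBall z r) := fun w hw => by
    obtain ⟨g, hg, e⟩ := h w hw
    exact (InnerProductSpace.harmonicAt_congr_nhds e).2 hg.harmonicAt_re
  have hcont := hh.continuousOn
  obtain ⟨M, hM⟩ := (isCompact_closedBall z r).exists_bound_of_continuousOn hcont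
  have hU : Measurable ((closedBall z r).piecewise u fun _ => 0) :=
    hcont.measurable_piecewise continuousOn_const measurableSet_closedBall
  have he : EqOn ((closedBall z r).piecewise u fun _ => 0) u (closedBall z r) :=
    fun w hw => piecewise_eq_of_mem _ _ _ hw
  have h1 := (sub_mean hU (c := z) (r := 0) (R := r) (M := M) (u₀ := u z) (fun w hw => by
    rw [he (ball_subset_closedBall hw)]
    exact (le_abs_self _).trans (hM w (ball_subset_closedBall hw))) fun ρ hρ => by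
      have hs : closedBall z |ρ| ⊆ closedBall z r :=
        closedBall_subset_closedBall (by rw [abs_of_pos hρ.1]; exact hρ.2.le)
      have hs' := sphere_subset_closedBall.trans hs
      exact ⟨((hcont.congr he).mono hs').circleIntegrable', by
        rw [Real.circleAverage_congr_sphere (he.mono hs'), (hh.mono hs).circleAverage_eq]⟩).2
  rwa [ball_zero, Set.sdiff_empty, Mean_vol z hr.le,
    setIntegral_congr_fun measurableSet_ball (he.mono ball_subset_closedBall)] at h1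

theorem mean_harm {u : ℂ → ℝ} {z : ℂ} {r : ℝ} (hr : 0 < r) (h : ∀ w ∈ closedBall z r, Harm u w) :
    ∫ ω, u (z + r • ω) ∂dsk = u z := by
  have h1 := Mean_half hr h
  have h2 := Mean_half (u := fun w => -u w) hr fun w hw => by
    obtain ⟨g, hg, e⟩ := h w hw
    exact ⟨fun w => -g w, hg.neg, e.mono fun x hx => (congrArg Neg.neg hx).trans (Complex.neg_re _).symm⟩
  have hp : 0 < Real.pi * r ^ 2 := by positivity
  rw [integral_neg] at h2
  rw [avg_eq u z hr, inv_mul_eq_iff_eq_mul₀ hp.ne']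
  linarith

theorem jen {f : ℂ → ℂ} (hm : Measurable f) {c : ℂ} {R : ℝ} (hf : AnalyticOnNhd ℂ f (closedBall c R))
    (h0 : f c ≠ 0) (r : ℝ) :
    volume.real (ball c R \ ball c r) * Real.log ‖f c‖ ≤
      ∫ w in ball c R \ ball c r, Real.log ‖f w‖ := by
  obtain ⟨M, hM⟩ := (isCompact_closedBall c R).exists_bound_of_continuousOn hf.continuousOn
  refine (sub_mean (u := fun w => Real.log ‖f w‖) (M := M) (Real.measurable_log.comp hm.norm)
    (fun w hw => (Real.log_le_self (norm_nonneg _)).trans (hM w (ball_subset_closedBall hw)))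
    fun ρ hρ => ?_).2
  have hf' : AnalyticOnNhd ℂ f (closedBall c |ρ|) :=
    hf.mono (closedBall_subset_closedBall (by rw [abs_of_pos hρ.1]; exact hρ.2.le))
  refine ⟨(hf'.mono sphere_subset_closedBall).meromorphicOn.circleIntegrable_log_norm, ?_⟩
  rw [hf'.circleAverage_log_norm hρ.1.ne' h0]
  refine le_add_of_nonneg_left (finsum_nonneg fun a => ?_)
  by_cases ha : a ∈ closedBall c |ρ|
  · refine mul_nonneg (Int.cast_nonneg (MeromorphicOn.AnalyticOnNhd.divisor_nonneg hf' a)) ?_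
    rw [mem_closedBall', dist_eq_norm, abs_of_pos hρ.1] at ha
    rcases (norm_nonneg (c - a)).eq_or_lt with e | e
    · rw [← e, inv_zero, mul_zero, Real.log_zero]
    · exact Real.log_nonneg ((le_mul_inv_iff₀ e).2 (by rwa [one_mul]))
  · rw [Function.locallyFinsuppWithin.apply_eq_zero_of_notMem _ ha, Int.cast_zero, zero_mul]

theorem Mean_sqrt {u : ℝ} (h1 : -1 < u) (h2 : u ≤ 1) :
    Real.exp (Real.log (1 + u) / 2) ≤ 1 + u / 2 - u ^ 2 / 16 := by
  refine (pow_le_pow_iff_left₀ (Real.exp_pos _).le (by nlinarith) two_ne_zero).1 ?_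
  rw [← Real.exp_nat_mul, show ((2 : ℕ) : ℝ) * (Real.log (1 + u) / 2) = Real.log (1 + u) by
    push_cast; ring, Real.exp_log (by linarith)]
  have h3 : 0 ≤ u ^ 2 * (1 / 8 - u / 16 + u ^ 2 / 256) :=
    mul_nonneg (sq_nonneg u) (by linarith [sq_nonneg u])
  linarith

theorem gam {δ : ℝ} (h0 : 0 < δ) (h1 : δ ≤ 1 / 2) : ∃ γ : ℝ, 0 ≤ γ ∧ γ < 1 ∧
    ∫⁻ ω, ENNReal.ofReal (Real.exp (Real.log (1 + δ * ω.im) / 2)) ∂dsk ≤ ENNReal.ofReal γ := by
  have ha : ∀ᵐ ω ∂dsk, |δ * ω.im| ≤ 1 / 2 := ae_dsk.mono fun ω h => by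
    rw [abs_mul, abs_of_pos h0]
    exact (mul_le_mul_of_nonneg_left ((abs_im_le_norm ω).trans h.le) h0.le).trans (by linarith)
  have i1 : Integrable (fun ω : ℂ => δ * ω.im) dsk :=
    Integrable.of_bound (by fun_prop) (1 / 2) ha
  have i2 : Integrable (fun ω : ℂ => (δ * ω.im) ^ 2) dsk :=
    Integrable.of_bound (by fun_prop) ((1 / 2) ^ 2) (ha.mono fun ω h => by
      rw [norm_pow]
      exact pow_le_pow_left₀ (norm_nonneg _) h 2)
  have i3 : Integrable (fun ω : ℂ => 1 + δ * ω.im / 2) dsk :=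
    (integrable_const 1).add (i1.div_const 2)
  have i4 : Integrable (fun ω : ℂ => 1 + δ * ω.im / 2 - (δ * ω.im) ^ 2 / 16) dsk :=
    i3.sub (i2.div_const 16)
  have hle : ∀ᵐ ω ∂dsk, Real.exp (Real.log (1 + δ * ω.im) / 2) ≤
      1 + δ * ω.im / 2 - (δ * ω.im) ^ 2 / 16 := ha.mono fun ω h =>
    Mean_sqrt (by linarith [(abs_le.1 h).1]) (by linarith [(abs_le.1 h).2])
  have hnn : 0 ≤ᵐ[dsk] fun ω : ℂ => 1 + δ * ω.im / 2 - (δ * ω.im) ^ 2 / 16 :=
    hle.mono fun ω h => (Real.exp_pos _).le.trans h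
  have e1 : ∫ ω, δ * ω.im ∂dsk = 0 := by
    have h := mean_harm (u := fun w => δ * w.im) (z := 0) one_pos fun w _ =>
      ⟨fun w => -(δ * I * w), by fun_prop, Eventually.of_forall fun x => by simp⟩
    simpa only [zero_add, one_smul, Complex.zero_im, mul_zero] using h
  have e2 : 0 < ∫ ω, (δ * ω.im) ^ 2 ∂dsk := by
    rw [integral_pos_iff_support_of_nonneg_ae (Eventually.of_forall fun _ => sq_nonneg _) i2, dsk,
      ProbabilityTheory.cond_apply measurableSet_ball]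
    have hc : Continuous fun ω : ℂ => (δ * ω.im) ^ 2 := by fun_prop
    refine ENNReal.mul_pos (ENNReal.inv_ne_zero.2 measure_ball_lt_top.ne)
      ((isOpen_ball.inter hc.isOpen_support).measure_pos volume ⟨I / 2, ?_, ?_⟩).ne'
    · rw [mem_ball_zero_iff, norm_div, norm_I, Complex.norm_ofNat]
      norm_num
    · simp [h0.ne']
  refine ⟨∫ ω, (1 + δ * ω.im / 2 - (δ * ω.im) ^ 2 / 16) ∂dsk, integral_nonneg_of_ae hnn, ?_, ?_⟩
  · rw [integral_sub i3 (i2.div_const 16), integral_add (integrable_const 1) (i1.div_const 2),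
      integral_div, integral_div, e1, integral_const, probReal_univ, one_smul]
    linarith
  · rw [ofReal_integral_eq_lintegral_ofReal i4 hnn]
    exact lintegral_mono_ae (hle.mono fun ω h => ENNReal.ofReal_le_ofReal h)

end Pool.Agent.Work.MP_31144c_an.G
end

-- merged part: Tree
section
/-! Dyadic intervals, squares and sums over trees (step 2 of the paper).
PLAN. `Tr_stop`: induction on `d` of `Tr (cut Act ψ) d k j ≤ Tr ψ d k j + β / 2 ^ k`; below an inactive node the sum vanishes.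
`khas`: `θ = 1 / (2 κ)`, `X 0 = 0`, `X (d + 1) k t = θ a + (1 + θ a) X d (k + 1) t` with `a = a k (ix k t)`; induction on `d`:
`∫⁻ X ≤ 2 θ Tr a d k j` (use `dI_split`; `a k j ≤ κ` from `d = 1`), `exp (θ S / 2) ≤ 1 + X` because `exp (x / 2) ≤ 1 + x` on `[0, 1 / 2]`,
`exp x - 1 ≥ x / 2 * exp (x / 2)`; `Tr_eq`. `null_of_dens`: `Besicovitch.ae_tendsto_measure_inter_div`, `Measure.ae_ae`-free: a set null for its own restriction
(`Measure.restrict_apply_self`). -/

namespace Pool.Agent.Work.MP_31144c_an.G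

open Set Filter Topology MeasureTheory Complex Metric
open scoped ENNReal

variable {k d n : ℕ} {j : ℤ} {t t' : ℝ} {a : ℕ → ℤ → ℝ}

theorem dI_eq (k : ℕ) (j : ℤ) : dI k j = Ico ((j : ℝ) / 2 ^ k) ((j + 1) / 2 ^ k) := by
  have h : (0 : ℝ) < 2 ^ k := by positivity
  ext t
  simp only [dI, ix, mem_ofPred_eq, Int.floor_eq_iff, mem_Ico, div_le_iff₀ h, lt_div_iff₀ h,
    mul_comm t]

theorem meas_ix (k : ℕ) : Measurable (ix k) := by
  exact (measurable_const.mul measurable_id).floor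

theorem meas_dI (k : ℕ) (j : ℤ) : MeasurableSet (dI k j) := by
  exact meas_ix k (measurableSet_singleton j)

theorem vol_dI (k : ℕ) (j : ℤ) : volume (dI k j) = ENNReal.ofReal (1 / 2 ^ k) := by
  rw [dI_eq, Real.volume_Ico]; congr 1; ring

theorem ix_half (k : ℕ) (t : ℝ) : ix (k + 1) t / 2 = ix k t := by
  have := Int.floor_div_natCast (2 ^ (k + 1) * t) 2
  rw [show 2 ^ (k + 1) * t / ((2 : ℕ) : ℝ) = 2 ^ k * t by push_cast; ring] at this
  exact this.symm

theorem ix_anc (h : ix k t = ix k t') {i : ℕ} (hi : i ≤ k) : ix i t = ix i t' := by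
  induction hi with
  | refl => exact h
  | @step m _ ih =>
    exact ih (((ix_half m t).symm.trans (congrArg (· / 2) h)).trans (ix_half m t'))

theorem ix_dist (h : ix k t = ix k t') : |t - t'| < 1 / 2 ^ k := by
  have h2 : (0 : ℝ) < 2 ^ k := by positivity
  have := Int.abs_sub_lt_one_of_floor_eq_floor h
  rwa [← mul_sub, abs_mul, abs_of_pos h2, mul_comm, ← lt_div_iff₀ h2] at this

theorem dI_split (k : ℕ) (j : ℤ) : dI k j = dI (k + 1) (2 * j) ∪ dI (k + 1) (2 * j + 1) ∧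
    Disjoint (dI (k + 1) (2 * j)) (dI (k + 1) (2 * j + 1)) := by
  refine ⟨Set.ext fun t => ?_, Set.disjoint_left.2 fun t h1 h2 => ?_⟩
  · have := ix_half k t
    simp only [dI, mem_ofPred_eq, mem_union]; omega
  · simp only [dI, mem_ofPred_eq] at h1 h2; omega

theorem Sm_succ (a : ℕ → ℤ → ℝ) (k d : ℕ) (t : ℝ) :
    Sm a k (d + 1) t = a k (ix k t) + Sm a (k + 1) d t := by
  simp only [Sm, Finset.sum_range_succ', add_zero, add_comm (a k _), add_assoc, add_comm 1]

theorem meas_Sm (a : ℕ → ℤ → ℝ) (k d : ℕ) : Measurable (Sm a k d) := by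
  exact Finset.measurable_sum _ fun i _ => (Measurable.of_discrete (f := a (k + i))).comp (meas_ix _)

theorem Tr_nonneg (ha : ∀ k j, 0 ≤ a k j) (d k : ℕ) (j : ℤ) : 0 ≤ Tr a d k j := by
  induction d generalizing k j with
  | zero => exact le_rfl
  | succ d ih => exact add_nonneg (add_nonneg (div_nonneg (ha _ _) (by positivity)) (ih _ _)) (ih _ _)

theorem Tree_Sm0 (ha : ∀ k j, 0 ≤ a k j) (k d : ℕ) (t : ℝ) : 0 ≤ Sm a k d t :=
  Finset.sum_nonneg fun _ _ => ha _ _

theorem Tree_split (k : ℕ) (j : ℤ) (f : ℝ → ℝ≥0∞) : ∫⁻ t in dI k j, f t =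
    (∫⁻ t in dI (k + 1) (2 * j), f t) + ∫⁻ t in dI (k + 1) (2 * j + 1), f t := by
  rw [(dI_split k j).1, lintegral_union (meas_dI _ _) (dI_split k j).2]

theorem Tr_eq (ha : ∀ k j, 0 ≤ a k j) (d k : ℕ) (j : ℤ) :
    ∫⁻ t in dI k j, ENNReal.ofReal (Sm a k d t) = ENNReal.ofReal (Tr a d k j) := by
  induction d generalizing k j with
  | zero => simp [Sm, Tr]
  | succ d ih =>
    have h1 : ∫⁻ t in dI k j, ENNReal.ofReal (Sm a k (d + 1) t) =
        ∫⁻ t in dI k j, (ENNReal.ofReal (a k j) + ENNReal.ofReal (Sm a (k + 1) d t)) :=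
      setLIntegral_congr_fun (meas_dI k j) fun t ht => by
        rw [Sm_succ, show ix k t = j from ht, ENNReal.ofReal_add (ha _ _) (Tree_Sm0 ha _ _ _)]
    have h2 := Tr_nonneg ha d (k + 1) (2 * j)
    have h3 : 0 ≤ a k j / 2 ^ k := div_nonneg (ha _ _) (by positivity)
    rw [h1, lintegral_add_left measurable_const, setLIntegral_const, vol_dI, Tree_split, ih, ih, Tr,
      ENNReal.ofReal_add (add_nonneg h3 h2) (Tr_nonneg ha _ _ _), ENNReal.ofReal_add h3 h2,
      ← ENNReal.ofReal_mul (ha _ _), mul_one_div, add_assoc]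

theorem Tr_add (a b : ℕ → ℤ → ℝ) (c : ℝ) (d k : ℕ) (j : ℤ) :
    Tr (fun k j => a k j + c * b k j) d k j = Tr a d k j + c * Tr b d k j := by
  induction d generalizing k j with
  | zero => simp [Tr]
  | succ d ih => simp only [Tr, ih]; ring

theorem Tr_stop {Act : ℕ → ℤ → Prop} (hA : Her Act) {ψ : ℕ → ℤ → ℝ} {β : ℝ}
    (h : ∀ d k j, |Tr ψ d k j| ≤ β / 2 ^ k) (d k : ℕ) (j : ℤ) :
    Tr (cut Act ψ) d k j ≤ 2 * β / 2 ^ k := by
  have h0 : ∀ d k j, ¬ Act k j → Tr (cut Act ψ) d k j = 0 := by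
    intro d
    induction d with
    | zero => exact fun _ _ _ => rfl
    | succ d ih =>
      intro k j hn
      rw [Tr, ih _ _ fun h => hn (hA _ _ (.inl h)), ih _ _ fun h => hn (hA _ _ (.inr h)), cut,
        if_neg hn]
      simp
  have h1 : ∀ d k j, Tr (cut Act ψ) d k j ≤ Tr ψ d k j + β / 2 ^ k := by
    intro d
    induction d with
    | zero => exact fun k j => by simpa [Tr] using h 0 k j
    | succ d ih =>
      intro k j
      by_cases hn : Act k j
      · have e : β / 2 ^ k = β / 2 ^ (k + 1) + β / 2 ^ (k + 1) := by ring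
        rw [Tr, Tr, cut, if_pos hn]
        linarith [ih (k + 1) (2 * j), ih (k + 1) (2 * j + 1)]
      · linarith [h0 (d + 1) k j hn, (abs_le.1 (h (d + 1) k j)).1]
  have e : 2 * β / 2 ^ k = β / 2 ^ k + β / 2 ^ k := by ring
  linarith [h1 d k j, (abs_le.1 (h d k j)).2]

/-- The exponential functional minus one. -/
noncomputable def TreeX (a : ℕ → ℤ → ℝ) (θ : ℝ) : ℕ → ℕ → ℝ → ℝ
  | 0, _, _ => 0
  | d + 1, k, t => θ * a k (ix k t) + (1 + θ * a k (ix k t)) * TreeX a θ d (k + 1) t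

theorem Tree_X0 (ha : ∀ k j, 0 ≤ a k j) {θ : ℝ} (hθ : 0 ≤ θ) (d k : ℕ) (t : ℝ) :
    0 ≤ TreeX a θ d k t := by
  induction d generalizing k with
  | zero => exact le_rfl
  | succ d ih =>
    have := mul_nonneg hθ (ha k (ix k t))
    exact add_nonneg this (mul_nonneg (by linarith) (ih _))

theorem Tree_exp {x : ℝ} (h0 : 0 ≤ x) (h1 : x ≤ 1) : Real.exp (x / 2) ≤ 1 + x := by
  have e : Real.exp (x / 2) * Real.exp (-(x / 2)) = 1 := by rw [← Real.exp_add]; simp
  have := mul_le_mul_of_nonneg_left (Real.add_one_le_exp (-(x / 2))) (Real.exp_pos (x / 2)).le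
  refine le_of_mul_le_mul_right (a := -(x / 2) + 1) ?_ (by linarith)
  nlinarith

theorem khas (ha : ∀ k j, 0 ≤ a k j) {κ : ℝ} (hκ : 0 < κ) {k₀ : ℕ}
    (h : ∀ d k j, k₀ ≤ k → Tr a d k j ≤ κ / 2 ^ k) (Λ : ℝ) (d : ℕ) (j : ℤ) :
    ∫⁻ t in dI k₀ j, ENNReal.ofReal (if Λ < Sm a k₀ d t then Sm a k₀ d t else 0) ≤
      ENNReal.ofReal (8 * Real.exp (-(Λ / (8 * κ)))) *
        ∫⁻ t in dI k₀ j, ENNReal.ofReal (Sm a k₀ d t) := by
  set θ := 1 / (2 * κ) with hθ
  have θ0 : 0 < θ := by positivity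
  have θκ : θ * κ = 1 / 2 := by rw [hθ]; field_simp
  have X0 := Tree_X0 ha θ0.le
  have hA : ∀ d k j, k₀ ≤ k → ∫⁻ t in dI k j, ENNReal.ofReal (TreeX a θ d k t) ≤
      ENNReal.ofReal (2 * θ * Tr a d k j) := by
    intro d
    induction d with
    | zero => simp [TreeX]
    | succ d ih =>
      intro k j hk
      have b0 : 0 ≤ θ * a k j := mul_nonneg θ0.le (ha _ _)
      have b1 : 0 ≤ 1 + θ * a k j := by linarith
      have h1 : ∫⁻ t in dI k j, ENNReal.ofReal (TreeX a θ (d + 1) k t) =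
          ∫⁻ t in dI k j, (ENNReal.ofReal (θ * a k j) + ENNReal.ofReal (1 + θ * a k j) *
            ENNReal.ofReal (TreeX a θ d (k + 1) t)) :=
        setLIntegral_congr_fun (meas_dI k j) fun t ht => by
          rw [TreeX, show ix k t = j from ht, ENNReal.ofReal_add b0 (mul_nonneg b1 (X0 _ _ _)),
            ENNReal.ofReal_mul b1]
      have t1 := Tr_nonneg ha d (k + 1) (2 * j)
      have t2 := Tr_nonneg ha d (k + 1) (2 * j + 1)
      have u1 := h d (k + 1) (2 * j) (by omega)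
      have u2 := h d (k + 1) (2 * j + 1) (by omega)
      rw [h1, lintegral_add_left measurable_const, setLIntegral_const, vol_dI,
        lintegral_const_mul' _ _ ENNReal.ofReal_ne_top, Tree_split]
      refine (add_le_add le_rfl (mul_le_mul_right
        (add_le_add (ih _ _ (by omega)) (ih _ _ (by omega))) _)).trans ?_
      rw [← ENNReal.ofReal_add (by positivity) (by positivity), ← ENNReal.ofReal_mul b1,
        ← ENNReal.ofReal_mul b0, ← ENNReal.ofReal_add (by positivity) (by positivity), Tr]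
      refine ENNReal.ofReal_le_ofReal ?_
      have e : κ / 2 ^ (k + 1) + κ / 2 ^ (k + 1) = κ * (1 / 2 ^ k) := by ring
      have u : 2 * θ * (Tr a d (k + 1) (2 * j) + Tr a d (k + 1) (2 * j + 1)) ≤ 1 / 2 ^ k := by
        refine (mul_le_mul_of_nonneg_left (e ▸ add_le_add u1 u2) (by positivity)).trans_eq ?_
        rw [← mul_assoc, mul_assoc 2, θκ]; ring
      have := mul_le_mul_of_nonneg_left u b0
      rw [div_eq_mul_one_div (a k j)]
      linarith
  have hB : ∀ d k t, k₀ ≤ k → Real.exp (θ * Sm a k d t / 2) ≤ 1 + TreeX a θ d k t := by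
    intro d
    induction d with
    | zero => simp [TreeX, Sm]
    | succ d ih =>
      intro k t hk
      have b0 : 0 ≤ θ * a k (ix k t) := mul_nonneg θ0.le (ha _ _)
      have b2 := h 1 k (ix k t) hk
      simp only [Tr, add_zero, div_le_div_iff_of_pos_right (show (0 : ℝ) < 2 ^ k by positivity)] at b2
      have b3 := Tree_exp b0 ((mul_le_mul_of_nonneg_left b2 θ0.le).trans (by linarith))
      rw [Sm_succ, mul_add, add_div, Real.exp_add, TreeX]
      exact (mul_le_mul b3 (ih _ _ (by omega)) (Real.exp_pos _).le (by linarith)).trans_eq (by ring)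
  have c0 : 0 ≤ 4 / θ * Real.exp (-(Λ / (8 * κ))) := by positivity
  calc _ ≤ ∫⁻ t in dI k₀ j, ENNReal.ofReal (4 / θ * Real.exp (-(Λ / (8 * κ)))) *
        ENNReal.ofReal (TreeX a θ d k₀ t) := by
        refine lintegral_mono fun t => ?_
        rw [← ENNReal.ofReal_mul c0]
        refine ENNReal.ofReal_le_ofReal ?_
        split_ifs with hl
        · have s0 := Tree_Sm0 ha k₀ d t
          have b := hB d k₀ t le_rfl
          set S := Sm a k₀ d t
          have y1 := Real.add_one_le_exp (θ * S / 4)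
          have y2 : Real.exp (θ * S / 2) = Real.exp (θ * S / 4) * Real.exp (θ * S / 4) := by
            rw [← Real.exp_add]; congr 1; ring
          have y3 : 1 ≤ Real.exp (-(Λ / (8 * κ))) * Real.exp (θ * S / 4) := by
            rw [← Real.exp_add]
            refine Real.one_le_exp ?_
            have : θ * S / 4 = S / (8 * κ) := by rw [hθ]; field_simp; ring
            rw [this, neg_add_eq_sub, ← sub_div]
            exact div_nonneg (by linarith) (by positivity)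
          have y0 : 0 ≤ θ * S / 4 := by positivity
          have y4 : θ * S / 4 * Real.exp (θ * S / 4) ≤ TreeX a θ d k₀ t := by nlinarith
          calc S = 4 / θ * (θ * S / 4) * 1 := by field_simp
            _ ≤ 4 / θ * (θ * S / 4) * (Real.exp (-(Λ / (8 * κ))) * Real.exp (θ * S / 4)) := by gcongr
            _ = 4 / θ * Real.exp (-(Λ / (8 * κ))) * (θ * S / 4 * Real.exp (θ * S / 4)) := by ring
            _ ≤ _ := mul_le_mul_of_nonneg_left y4 c0
        · exact mul_nonneg c0 (X0 _ _ _)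
    _ ≤ ENNReal.ofReal (4 / θ * Real.exp (-(Λ / (8 * κ)))) * ENNReal.ofReal (2 * θ * Tr a d k₀ j) := by
        rw [lintegral_const_mul' _ _ ENNReal.ofReal_ne_top]
        exact mul_le_mul_right (hA d k₀ j le_rfl) _
    _ = _ := by
        rw [Tr_eq ha, ← ENNReal.ofReal_mul c0, ← ENNReal.ofReal_mul (by positivity)]
        congr 1; field_simp; ring

theorem null_of_dens {A : Set ℝ} (h : ∀ t ∈ A, ∃ᶠ r in 𝓝[>] (0 : ℝ),
    volume (A ∩ closedBall t r) ≤ ENNReal.ofReal (3 / 2 * r)) : volume A = 0 := by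
  rw [← Measure.restrict_apply_self]
  refine measure_mono_null ?_ (ae_iff.1 (Besicovitch.ae_tendsto_measure_inter_div volume A))
  intro t ht h1
  have h2 : ENNReal.ofReal (3 / 4) < 1 := by rw [ENNReal.ofReal_lt_one]; norm_num
  obtain ⟨r, h3, h4, h5⟩ := ((h t ht).and_eventually
    ((h1.eventually (lt_mem_nhds h2)).and self_mem_nhdsWithin)).exists
  refine h4.not_ge (ENNReal.div_le_of_le_mul (h3.trans_eq ?_))
  rw [Real.volume_closedBall, ← ENNReal.ofReal_mul (by norm_num)]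
  congr 1; ring

theorem Tree_near {m : ℤ} (h : |t - t'| ≤ m / 2 ^ k) :
    ix k t' - m ≤ ix k t ∧ ix k t ≤ ix k t' + m := by
  rw [le_div_iff₀ (by positivity), ← abs_of_pos (show (0 : ℝ) < 2 ^ k by positivity), ← abs_mul,
    abs_le] at h
  rw [ix, ix, ← Int.floor_sub_intCast, ← Int.floor_add_intCast]
  exact ⟨Int.floor_mono (by linarith [h.1]), Int.floor_mono (by linarith [h.2])⟩

theorem null_of_dI {A : Set ℝ} {k₁ : ℕ}
    (h : ∀ k j, k₁ ≤ k → volume (A ∩ dI k j) ≤ ENNReal.ofReal (1 / 2 ^ k / 2)) : volume A = 0 := by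
  refine null_of_dens fun t _ => ?_
  have h1 : Tendsto (fun k : ℕ => (1 : ℝ) / 2 ^ k) atTop (𝓝[>] 0) :=
    tendsto_nhdsWithin_iff.2 ⟨tendsto_const_nhds.div_atTop (tendsto_pow_atTop_atTop_of_one_lt one_lt_two),
      .of_forall fun k => show (0 : ℝ) < _ by positivity⟩
  refine h1.frequently ((eventually_ge_atTop k₁).mono fun k hk => ?_).frequently
  have h2 : A ∩ closedBall t (1 / 2 ^ k) ⊆
      A ∩ dI k (ix k t - 1) ∪ A ∩ dI k (ix k t) ∪ A ∩ dI k (ix k t + 1) := by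
    rintro x ⟨hA, hx⟩
    have := Tree_near (m := 1) (k := k) (t := x) (t' := t) (by simpa [Real.dist_eq] using hx)
    simp only [mem_union, mem_inter_iff, hA, true_and, dI, mem_ofPred_eq]
    omega
  have p : (0 : ℝ) ≤ 1 / 2 ^ k / 2 := by positivity
  refine (measure_mono h2).trans ((measure_union_le _ _).trans ((add_le_add ((measure_union_le _ _).trans
    (add_le_add (h _ _ hk) (h _ _ hk))) (h _ _ hk)).trans_eq ?_))
  rw [← ENNReal.ofReal_add p p, ← ENNReal.ofReal_add (add_nonneg p p) p]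
  congr 1; ring

theorem lint_ix (k : ℕ) {E : Set ℝ} (φ : ℤ → ℝ≥0∞) :
    ∫⁻ t in E, φ (ix k t) = ∑' j, φ j * volume (dI k j ∩ E) := by
  rw [← lintegral_map Measurable.of_discrete (meas_ix k), lintegral_countable']
  refine tsum_congr fun j => ?_
  rw [Measure.map_apply (meas_ix k) (measurableSet_singleton j)]
  exact congrArg _ (Measure.restrict_apply (meas_dI k j))

theorem meas_dQ (n : ℕ) (q : ℤ × ℤ) : MeasurableSet (dQ n q) := by
  exact (((meas_ix n).comp measurable_re).prodMk ((meas_ix n).comp measurable_im))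
    (measurableSet_singleton q)

theorem vol_dQ (n : ℕ) (q : ℤ × ℤ) : volume (dQ n q) = ENNReal.ofReal (1 / 4 ^ n) := by
  have : dQ n q = measurableEquivRealProd ⁻¹' (dI n q.1 ×ˢ dI n q.2) :=
    Set.ext fun w => Prod.ext_iff
  rw [this, volume_preserving_equiv_real_prod.measure_preimage_equiv, Measure.volume_eq_prod,
    Measure.prod_prod, vol_dI, vol_dI, ← ENNReal.ofReal_mul (by positivity), div_mul_div_comm,
    ← mul_pow]
  norm_num

theorem dQ_dist {q : ℤ × ℤ} {x y : ℂ} (hx : x ∈ dQ n q) (hy : y ∈ dQ n q) : ‖x - y‖ ≤ 2 / 2 ^ n := by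
  obtain ⟨h1, h2⟩ := Prod.ext_iff.1 (hx.trans (Eq.symm hy))
  have e : (2 : ℝ) / 2 ^ n = 1 / 2 ^ n + 1 / 2 ^ n := by ring
  exact (norm_le_abs_re_add_abs_im _).trans (e ▸ add_le_add (ix_dist h1).le (ix_dist h2).le)

theorem dQ_ball (n : ℕ) (q : ℤ × ℤ) : ∃ c, c ∈ dQ n q ∧ dQ n q ⊆ closedBall c (2 / 2 ^ n) := by
  have h : ∀ j : ℤ, ix n (j / 2 ^ n) = j := fun j => by
    rw [ix, mul_div_cancel₀ _ (by positivity), Int.floor_intCast]
  have hc : (⟨q.1 / 2 ^ n, q.2 / 2 ^ n⟩ : ℂ) ∈ dQ n q := Prod.ext (h _) (h _)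
  exact ⟨_, hc, fun x hx => mem_closedBall_iff_norm.2 (dQ_dist hx hc)⟩

theorem dQ_nest {m : ℕ} (h : m ≤ n) {q q' : ℤ × ℤ} (hne : (dQ n q ∩ dQ m q').Nonempty) :
    dQ n q ⊆ dQ m q' := by
  obtain ⟨y, hy, hy'⟩ := hne
  intro x hx
  obtain ⟨h1, h2⟩ := Prod.ext_iff.1 (hx.trans (Eq.symm hy))
  exact (Prod.ext (ix_anc h1 h) (ix_anc h2 h)).trans hy'

theorem dQ_sum (n : ℕ) (A : Set ℂ) (w : ℂ → ℝ≥0∞) :
    ∫⁻ x in A, w x = ∑' q, ∫⁻ x in dQ n q ∩ A, w x := by
  have h : ⋃ q, dQ n q = univ := eq_univ_of_forall fun x => mem_iUnion.2 ⟨_, rfl⟩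
  have := lintegral_iUnion (μ := volume.restrict A) (meas_dQ n)
    (fun q q' hq => Set.disjoint_left.2 fun x h1 h2 => hq (h1.symm.trans h2)) w
  simpa only [h, Measure.restrict_univ, Measure.restrict_restrict (meas_dQ n _)] using this

theorem dQ_cover (n : ℕ) (x : ℂ) : ∃ s : Finset (ℤ × ℤ), s.card = 25 ∧
    ball x (2 / 2 ^ n) ⊆ ⋃ q ∈ s, dQ n q := by
  refine ⟨Finset.Icc (ix n x.re - 2) (ix n x.re + 2) ×ˢ Finset.Icc (ix n x.im - 2) (ix n x.im + 2),
    ?_, fun y hy => mem_iUnion₂.2 ⟨_, ?_, rfl⟩⟩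
  · rw [Finset.card_product, Int.card_Icc, Int.card_Icc]
    ring_nf; rfl
  · have h := (mem_ball_iff_norm.1 hy).le
    simp only [Finset.mem_product, Finset.mem_Icc]
    exact ⟨Tree_near (m := 2) (by simpa using (abs_re_le_norm (y - x)).trans h),
      Tree_near (m := 2) (by simpa using (abs_im_le_norm (y - x)).trans h)⟩

end Pool.Agent.Work.MP_31144c_an.G
end

-- merged part: Pot
section
/-! Logarithmic potentials (step 1 of the paper).
PLAN. `pot_bd`: put `R = rad c ρ w`; for `a ∈ A`, `a ≠ w`: `0 ≤ log R - log ‖w - a‖ ≤ log (3 ρ / r) + 2 + indicator (ball w r) (r / ‖w - a‖)`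
(far case `2 ρ ≤ ‖w - c‖`: `R / 3 ≤ ‖w - a‖`; near case `R = 3 ρ`); `∫ over ball w r of r / ‖w - a‖ = 2 π r ^ 2` by `integral_fun_norm_addHaar` and
`integrable_fun_norm_addHaar` (or polar coordinates). `fub`: `integrable_prod_iff`, `|log x| ≤ (log R - log x) + |log R|`. `sub_pot`, `occ_eq`: `fub`, `integral_integral_swap`,
`jen` for `F - a` with `a ≠ F c` (almost every `a`), `avg_eq` with `ball c 0 = ∅`, `ofReal_integral_eq_lintegral_ofReal`. -/

namespace Pool.Agent.Work.MP_31144c_an.G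

open Set Filter Topology MeasureTheory Complex Metric
open scoped ENNReal

variable {A : Set ℂ} {F : ℂ → ℂ} {δ : ℝ} {z : ℂ}

theorem Pot_vol (z : ℂ) {r : ℝ} (hr : 0 ≤ r) : volume.real (ball z r) = Real.pi * r ^ 2 := by
  rw [Measure.real, Complex.volume_ball, ENNReal.toReal_mul, ENNReal.toReal_pow,
    ENNReal.toReal_ofReal hr, ENNReal.coe_toReal, NNReal.coe_real_pi, mul_comm]

theorem Pot_ker {r : ℝ} (hr : 0 < r) (w : ℂ) :
    Integrable (fun a : ℂ => (Iio r).indicator (fun y => r / y) ‖w - a‖) ∧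
      ∫ a : ℂ, (Iio r).indicator (fun y => r / y) ‖w - a‖ ≤ 7 * r ^ 2 := by
  have e : EqOn (fun y : ℝ => y ^ (Module.finrank ℝ ℂ - 1) • (Iio r).indicator (fun y => r / y) y)
      ((Iio r).indicator fun _ => r) (Ioi 0) := by
    intro y hy
    have : y ≠ 0 := ne_of_gt hy
    by_cases h : y < r <;> simp [h]
    field_simp
  have hi : IntegrableOn ((Iio r).indicator fun _ => r) (Ioi (0 : ℝ)) := by
    rw [integrableOn_indicator_iff measurableSet_Iio, inter_comm, Ioi_inter_Iio]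
    exact integrableOn_const (by simp)
  refine ⟨((integrable_fun_norm_addHaar volume).2
    (hi.congr_fun e.symm measurableSet_Ioi)).comp_sub_left w, ?_⟩
  rw [integral_sub_left_eq_self (fun a : ℂ => (Iio r).indicator (fun y => r / y) ‖a‖) volume w,
    integral_fun_norm_addHaar, setIntegral_congr_fun measurableSet_Ioi e,
    setIntegral_indicator measurableSet_Iio, Ioi_inter_Iio, Pot_vol _ zero_le_one]
  simp only [Complex.finrank_real_complex, setIntegral_const, Real.volume_real_Ioo, sub_zero,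
    max_eq_left hr.le, smul_eq_mul, nsmul_eq_mul]
  have := Real.pi_lt_d2
  push_cast
  nlinarith [mul_pos hr hr]

theorem Pot_log6 : Real.log 6 ≤ 2 := by
  rw [Real.log_le_iff_le_exp (by norm_num), show (2 : ℝ) = 1 + 1 by norm_num, Real.exp_add]
  nlinarith [Real.exp_one_gt_d9]

theorem Pot_rad {c w a : ℂ} {ρ : ℝ} (ha : a ∈ closedBall c ρ) :
    ‖w - a‖ ≤ rad c ρ w ∧ 3 * ρ ≤ rad c ρ w ∧ ‖w - c‖ ≤ ‖w - a‖ + ρ := by
  have h1 := le_max_left ‖w - c‖ (2 * ρ)
  have h2 := le_max_right ‖w - c‖ (2 * ρ)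
  have h3 : ‖a - c‖ ≤ ρ := by simpa [dist_eq_norm] using ha
  have h4 := norm_sub_le_norm_sub_add_norm_sub w c a
  have h5 := norm_sub_le_norm_sub_add_norm_sub w a c
  rw [norm_sub_rev c a] at h4
  unfold rad
  exact ⟨by linarith, by linarith, by linarith⟩

theorem Pot_fin (hb : Bornology.IsBounded A) : IsFiniteMeasure (volume.restrict A) :=
  ⟨by simpa using hb.measure_lt_top⟩

theorem Pot_ne (A : Set ℂ) (w : ℂ) : ∀ᵐ a ∂volume.restrict A, a ≠ w :=
  ae_restrict_of_ae (Measure.ae_ne volume w)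

theorem pot_bd (hA : MeasurableSet A) {c : ℂ} {ρ r : ℝ} (hs : A ⊆ closedBall c ρ) (hr : 0 < r)
    (hρ : r ≤ 3 * ρ) (w : ℂ) : IntegrableOn (fun a => Real.log ‖w - a‖) A ∧
      pot A w ≤ volume.real A * Real.log (rad c ρ w) ∧
      volume.real A * Real.log (rad c ρ w) - (volume.real A * (Real.log (3 * ρ / r) + 2) + 7 * r ^ 2)
        ≤ pot A w := by
  have hf := Pot_fin (isBounded_closedBall.subset hs)
  obtain ⟨k1, k2⟩ := Pot_ker hr w
  set G := fun a : ℂ => (Iio r).indicator (fun y => r / y) ‖w - a‖ with hG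
  have hG0 : ∀ a, 0 ≤ G a := fun a =>
    indicator_apply_nonneg fun _ => div_nonneg hr.le (norm_nonneg _)
  have hK : 0 ≤ Real.log (3 * ρ / r) := Real.log_nonneg ((one_le_div hr).2 hρ)
  have hb : ∀ᵐ a ∂volume.restrict A, 0 ≤ Real.log (rad c ρ w) - Real.log ‖w - a‖ ∧
      Real.log (rad c ρ w) - Real.log ‖w - a‖ ≤ Real.log (3 * ρ / r) + 2 + G a := by
    filter_upwards [ae_restrict_mem hA, Pot_ne A w] with a ha hne
    have hp : 0 < ‖w - a‖ := norm_pos_iff.2 (sub_ne_zero.2 hne.symm)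
    obtain ⟨h1, h2, h3⟩ := Pot_rad (w := w) (hs ha)
    refine ⟨sub_nonneg.2 (Real.log_le_log hp h1), ?_⟩
    rcases le_total (2 * ρ) ‖w - c‖ with h | h
    · have : rad c ρ w ≤ 3 * ‖w - a‖ := by unfold rad; rw [max_eq_left h]; linarith
      have h4 := Real.log_le_log (by linarith) this
      rw [Real.log_mul (by norm_num) hp.ne'] at h4
      have := Real.log_le_sub_one_of_pos (show (0 : ℝ) < 3 by norm_num)
      linarith [hG0 a]
    · have e : rad c ρ w = 3 * ρ := by unfold rad; rw [max_eq_right h]; ring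
      rw [e, Real.log_div (by linarith) hr.ne']
      by_cases hl : ‖w - a‖ < r
      · have h5 := Real.log_le_sub_one_of_pos (div_pos hr hp)
        rw [Real.log_div hr.ne' hp.ne'] at h5
        have : G a = r / ‖w - a‖ := indicator_of_mem (show ‖w - a‖ ∈ Iio r from hl) _
        linarith
      · linarith [Real.log_le_log hr (not_lt.1 hl), hG0 a]
  have hm : Measurable fun a : ℂ => Real.log ‖w - a‖ := by fun_prop
  have hk : IntegrableOn (fun a => Real.log (3 * ρ / r) + 2 + G a) A :=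
    (integrable_const _).add k1.integrableOn
  have hu : IntegrableOn (fun a => Real.log (rad c ρ w) - Real.log ‖w - a‖) A :=
    hk.mono' (measurable_const.sub hm).aestronglyMeasurable
      (hb.mono fun a h => by rw [Real.norm_of_nonneg h.1]; exact h.2)
  have hi : IntegrableOn (fun a => Real.log ‖w - a‖) A :=
    ((integrable_const (Real.log (rad c ρ w))).sub hu).congr (ae_of_all _ fun a => by simp)
  have e : ∫ a in A, (Real.log (rad c ρ w) - Real.log ‖w - a‖) =
      volume.real A * Real.log (rad c ρ w) - pot A w := by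
    rw [integral_sub (integrable_const _) hi, setIntegral_const, smul_eq_mul, pot]
  have h0 := integral_nonneg_of_ae (hb.mono fun a h => h.1)
  have h1 := integral_mono_ae hu hk (hb.mono fun a h => h.2)
  rw [integral_add (integrable_const _) k1.integrableOn, setIntegral_const, smul_eq_mul] at h1
  have h2 := setIntegral_le_integral (s := A) k1 (ae_of_all _ hG0)
  rw [e] at h0 h1
  exact ⟨hi, by linarith, by linarith⟩

theorem meas_pot (A : Set ℂ) : Measurable (pot A) := by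
  have : Measurable fun q : ℂ × ℂ => Real.log ‖q.1 - q.2‖ := by fun_prop
  exact (this.stronglyMeasurable.integral_prod_right' (ν := volume.restrict A)).measurable

theorem pot_abs (hA : MeasurableSet A) (hb : Bornology.IsBounded A) (R : ℝ) :
    ∃ M : ℝ, ∀ w, ‖w‖ ≤ R → |pot A w| ≤ M ∧ ∫ a in A, |Real.log ‖w - a‖| ≤ M := by
  obtain ⟨ρ, hρ, hs⟩ := hb.subset_closedBall_lt 1 0
  have hf := Pot_fin hb
  refine ⟨volume.real A * Real.log (3 / 2 * max R (2 * ρ)) +
    (volume.real A * (Real.log (3 * ρ / 1) + 2) + 7 * 1 ^ 2), fun w hw => ?_⟩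
  obtain ⟨h1, -, h3⟩ := pot_bd hA hs one_pos (by linarith) w
  have h4 : 1 ≤ rad 0 ρ w := by
    have := le_max_right ‖w - 0‖ (2 * ρ)
    unfold rad; linarith
  have h5 : Real.log (rad 0 ρ w) ≤ Real.log (3 / 2 * max R (2 * ρ)) := by
    refine Real.log_le_log (by linarith) ?_
    unfold rad; rw [sub_zero]; gcongr
  have h6 : ∫ a in A, |Real.log ‖w - a‖| ≤
      ∫ a in A, (2 * Real.log (rad 0 ρ w) - Real.log ‖w - a‖) := by
    refine setIntegral_mono_on h1.abs ((integrable_const _).sub h1) hA fun a ha => ?_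
    have h7 := Real.log_nonneg h4
    have h8 : Real.log ‖w - a‖ ≤ Real.log (rad 0 ρ w) := by
      rcases (norm_nonneg (w - a)).eq_or_lt with h | h
      · rw [← h, Real.log_zero]; exact h7
      · exact Real.log_le_log h (Pot_rad (hs ha)).1
    exact abs_le.2 ⟨by linarith, by linarith⟩
  rw [integral_sub (integrable_const _) h1, setIntegral_const, smul_eq_mul] at h6
  have h9 := mul_le_mul_of_nonneg_left h5 (measureReal_nonneg (μ := volume) (s := A))
  have h10 : ∫ a in A, |Real.log ‖w - a‖| ≤ _ := h6.trans (show _ ≤ volume.real A *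
    Real.log (3 / 2 * max R (2 * ρ)) + (volume.real A * (Real.log (3 * ρ / 1) + 2) + 7 * 1 ^ 2) by
      unfold pot at h3; linarith)
  exact ⟨abs_integral_le_integral_abs.trans h10, h10⟩

theorem fub {X : Type} [MeasurableSpace X] (μ : Measure X) [IsFiniteMeasure μ] {φ : X → ℂ}
    (hφ : Measurable φ) {R : ℝ} (hR : ∀ᵐ x ∂μ, ‖φ x‖ ≤ R) (hA : MeasurableSet A)
    (hb : Bornology.IsBounded A) :
    Integrable (fun q : X × ℂ => Real.log ‖φ q.1 - q.2‖) (μ.prod (volume.restrict A)) := by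
  have hf := Pot_fin hb
  have hm : Measurable fun q : X × ℂ => Real.log ‖φ q.1 - q.2‖ := by fun_prop
  obtain ⟨ρ, hρ, hs⟩ := hb.subset_closedBall_lt 1 0
  obtain ⟨M, hM⟩ := pot_abs hA hb R
  refine (integrable_prod_iff hm.aestronglyMeasurable).2
    ⟨ae_of_all _ fun x => (pot_bd hA hs one_pos (by linarith) (φ x)).1, ?_⟩
  refine Integrable.of_bound
    (hm.norm.stronglyMeasurable.integral_prod_right').aestronglyMeasurable M (hR.mono fun x hx => ?_)
  rw [Real.norm_of_nonneg (integral_nonneg fun _ => norm_nonneg _)]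
  exact (hM _ hx).2

theorem An.an (h : An F δ) {c : ℂ} {R : ℝ} (hR : R < c.im) : AnalyticOnNhd ℂ F (closedBall c R) := by
  refine (h.diff.analyticOnNhd (isOpen_lt continuous_const Complex.continuous_im)).mono fun w hw => ?_
  have h1 : ‖w - c‖ ≤ R := by simpa [dist_eq_norm] using hw
  have h2 := (abs_le.1 ((Complex.abs_im_le_norm (w - c)).trans h1)).1
  rw [Complex.sub_im] at h2
  show 0 < w.im
  linarith

theorem sub_pot (h : An F δ) (hA : MeasurableSet A) (hb : Bornology.IsBounded A) {c : ℂ} {R : ℝ}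
    (hR : R < c.im) (r : ℝ) : IntegrableOn (fun w => pot A (F w)) (ball c R \ ball c r) ∧
      volume.real (ball c R \ ball c r) * pot A (F c) ≤ ∫ w in ball c R \ ball c r, pot A (F w) := by
  have hX : MeasurableSet (ball c R \ ball c r) := measurableSet_ball.diff measurableSet_ball
  have hf := Pot_fin (isBounded_ball.subset (sdiff_subset : ball c R \ ball c r ⊆ _))
  obtain ⟨B, hB⟩ := (isCompact_closedBall c R).exists_bound_of_continuousOn (h.an hR).continuousOn
  have hi := fub (volume.restrict (ball c R \ ball c r)) h.meas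
    ((ae_restrict_mem hX).mono fun w hw => hB w (ball_subset_closedBall hw.1)) hA hb
  obtain ⟨ρ, hρ, hs⟩ := hb.subset_closedBall_lt 1 0
  refine ⟨hi.integral_prod_left, ?_⟩
  unfold pot
  rw [integral_integral_swap hi, ← integral_const_mul]
  refine integral_mono_ae ((pot_bd hA hs one_pos (by linarith) _).1.const_mul _)
    hi.integral_prod_right ((Pot_ne A (F c)).mono fun a ha => ?_)
  exact jen (f := fun w => F w - a) (h.meas.sub_const a) ((h.an hR).sub analyticOnNhd_const)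
    (sub_ne_zero.2 ha.symm) r

theorem occ_eq (h : An F δ) (hA : MeasurableSet A) (hb : Bornology.IsBounded A) (hz : 0 < z.im) :
    Integrable (fun ω => pot A (F (mv δ z ω))) dsk ∧ 0 ≤ em F δ A z ∧
      ∫⁻ a in A, nn F δ z a = ENNReal.ofReal (em F δ A z) := by
  have hr : 0 < δ * z.im := mul_pos h.pos hz
  have hR : δ * z.im < z.im := by nlinarith [h.le]
  obtain ⟨B, hB⟩ := (isCompact_closedBall z _).exists_bound_of_continuousOn (h.an hR).continuousOn
  have hm : Measurable (mv δ z) := by unfold mv; fun_prop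
  have hi := fub dsk (φ := fun ω => F (mv δ z ω)) (h.meas.comp hm) (ae_dsk.mono fun ω hω => hB _ (by
    rw [mem_closedBall, mv, dist_eq_norm, add_sub_cancel_left, norm_smul, Real.norm_of_nonneg hr.le]
    nlinarith)) hA hb
  obtain ⟨ρ, hρ, hs⟩ := hb.subset_closedBall_lt 1 0
  have h1 := (pot_bd hA hs one_pos (by linarith) (F z)).1
  have e : em F δ A z = ∫ a in A, (av δ (fun w => Real.log ‖F w - a‖) z - Real.log ‖F z - a‖) := by
    unfold em av pot
    rw [integral_integral_swap hi, integral_sub hi.integral_prod_right h1]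
  have h0 : ∀ᵐ a ∂volume.restrict A,
      0 ≤ av δ (fun w => Real.log ‖F w - a‖) z - Real.log ‖F z - a‖ := by
    refine (Pot_ne A (F z)).mono fun a ha => sub_nonneg.2 ?_
    have := jen (f := fun w => F w - a) (h.meas.sub_const a) ((h.an hR).sub analyticOnNhd_const)
      (sub_ne_zero.2 ha.symm) 0
    rw [ball_zero, sdiff_empty, Pot_vol z hr.le] at this
    unfold av mv
    rw [avg_eq (fun w => Real.log ‖F w - a‖) z hr, le_inv_mul_iff₀ (by positivity)]
    exact this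
  refine ⟨hi.integral_prod_left, e ▸ integral_nonneg_of_ae h0, ?_⟩
  rw [e]
  exact (ofReal_integral_eq_lintegral_ofReal (hi.integral_prod_right.sub h1) h0).symm

theorem nn_zero (h : An F δ) (hz : 0 < z.im) {a : ℂ} (ha : ∀ w ∈ closedBall z (δ * z.im), F w ≠ a) :
    nn F δ z a = 0 := by
  have hR : δ * z.im < z.im := by nlinarith [h.le]
  have := mean_harm (u := fun w => Real.log ‖F w - a‖) (mul_pos h.pos hz) fun w hw =>
    harm_log_norm ((h.an hR w hw).sub analyticAt_const) (sub_ne_zero.2 (ha w hw))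
  unfold nn av mv
  rw [this, sub_self, ENNReal.ofReal_zero]

theorem Pot_dQ (n : ℕ) (q : ℤ × ℤ) : volume.real (dQ n q) = 1 / 4 ^ n := by
  rw [Measure.real, vol_dQ, ENNReal.toReal_ofReal (by positivity)]

theorem Pot_sub {l n : ℕ} {c : ℂ} (hA : MeasurableSet A) (hl : l ≤ n)
    (hs : A ⊆ closedBall c (2 / 2 ^ l)) (w : ℂ) :
    pot A w ≤ volume.real A * Real.log (rad c (2 / 2 ^ l) w) ∧
      volume.real A * Real.log (rad c (2 / 2 ^ l) w) - (volume.real A * (n - l + 4) + 7 / 4 ^ n)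
        ≤ pot A w := by
  obtain ⟨d, rfl⟩ := Nat.exists_eq_add_of_le hl
  have h2 : (1 : ℝ) ≤ 2 ^ d := one_le_pow₀ (by norm_num)
  obtain ⟨-, h3, h4⟩ := pot_bd hA hs (r := 1 / 2 ^ (l + d)) (by positivity) (by
    rw [pow_add, div_le_iff₀ (by positivity)]
    field_simp
    linarith) w
  have e1 : (3 * (2 / 2 ^ l) / (1 / 2 ^ (l + d)) : ℝ) = 6 * 2 ^ d := by
    rw [pow_add]; field_simp; norm_num
  have e2 : (1 / 2 ^ (l + d) : ℝ) ^ 2 = 1 / 4 ^ (l + d) := by
    rw [div_pow, ← pow_mul, mul_comm, pow_mul]; norm_num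
  rw [e1, e2, Real.log_mul (by norm_num) (by positivity), Real.log_pow] at h4
  have h5 : Real.log 6 + d * Real.log 2 + 2 ≤ ((l + d : ℕ) : ℝ) - l + 4 := by
    have := mul_le_mul_of_nonneg_left (Real.log_two_lt_d9.le.trans (by norm_num : _ ≤ (1 : ℝ)))
      (Nat.cast_nonneg (α := ℝ) d)
    push_cast
    linarith [Pot_log6]
  have h6 := mul_le_mul_of_nonneg_left h5 (measureReal_nonneg (μ := volume) (s := A))
  exact ⟨h3, by rw [mul_one_div] at h4; linarith⟩

theorem pot_sq {l n : ℕ} {q q' : ℤ × ℤ} (hl : l ≤ n) (hs : dQ n q' ⊆ dQ l q) (w : ℂ) :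
    |pot (dQ n q') w - 4 ^ l / 4 ^ n * pot (dQ l q) w| ≤ (n + 11) / 4 ^ n := by
  obtain ⟨c, -, hc⟩ := dQ_ball l q
  obtain ⟨h1, h2⟩ := Pot_sub (meas_dQ n q') hl (hs.trans hc) w
  obtain ⟨h3, h4⟩ := Pot_sub (meas_dQ l q) le_rfl hc w
  rw [Pot_dQ] at h1 h2 h3 h4
  have hp : (0 : ℝ) < 4 ^ l / 4 ^ n := by positivity
  have h5 := mul_le_mul_of_nonneg_left h3 hp.le
  have h6 := mul_le_mul_of_nonneg_left h4 hp.le
  set L := Real.log (rad c (2 / 2 ^ l) w)
  have e1 : (4 : ℝ) ^ l / 4 ^ n * (1 / 4 ^ l * L) = 1 / 4 ^ n * L := by field_simp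
  have e2 : (4 : ℝ) ^ l / 4 ^ n * (1 / 4 ^ l * L - (1 / 4 ^ l * (l - l + 4) + 7 / 4 ^ l)) =
    1 / 4 ^ n * L - 11 * (1 / 4 ^ n) := by field_simp; ring
  rw [e1] at h5
  rw [e2] at h6
  have h7 : (0 : ℝ) ≤ 1 / 4 ^ n * l := by positivity
  have h8 : (0 : ℝ) ≤ 1 / 4 ^ n * n := by positivity
  rw [div_eq_mul_one_div (7 : ℝ)] at h2
  rw [div_eq_mul_one_div (n + 11 : ℝ)]
  exact abs_le.2 ⟨by linarith, by linarith⟩

theorem pot_half {l : ℕ} {q : ℤ × ℤ} (hA : MeasurableSet A) (hs : A ⊆ dQ l q)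
    (hv : 1 / 4 ^ l / 2 ≤ volume.real A) :
    ∃ c : ℝ, ∀ w, |pot (dQ l q) w - c * pot A w| ≤ 18 / 4 ^ l := by
  obtain ⟨c, -, hc⟩ := dQ_ball l q
  have hp : (0 : ℝ) < 1 / 4 ^ l := by positivity
  have hv0 : 0 < volume.real A := by linarith
  refine ⟨1 / 4 ^ l / volume.real A, fun w => ?_⟩
  obtain ⟨h1, h2⟩ := Pot_sub hA le_rfl (hs.trans hc) w
  obtain ⟨h3, h4⟩ := Pot_sub (meas_dQ l q) le_rfl hc w
  rw [Pot_dQ] at h3 h4
  rw [div_eq_mul_one_div (7 : ℝ), sub_self] at h2 h4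
  rw [div_eq_mul_one_div (18 : ℝ)]
  generalize (1 / 4 ^ l : ℝ) = v at *
  have hq : 0 < v / volume.real A := by positivity
  have hq2 : v / volume.real A ≤ 2 := by rw [div_le_iff₀ hv0]; linarith
  have e : v / volume.real A * volume.real A = v := by field_simp
  have h5 := mul_le_mul_of_nonneg_left h1 hq.le
  have h6 := mul_le_mul_of_nonneg_left h2 hq.le
  rw [mul_sub, mul_add, ← mul_assoc, ← mul_assoc, e] at h6
  rw [← mul_assoc, e] at h5
  exact abs_le.2 ⟨by linarith, by nlinarith⟩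

theorem pot_grow (l : ℕ) (q : ℤ × ℤ) : (∃ c : ℝ, ∀ w, 0 ≤ pot (dQ l q) w + c) ∧
    ∀ M : ℝ, ∃ R : ℝ, ∀ w, pot (dQ l q) w ≤ M → ‖w‖ ≤ R := by
  obtain ⟨c, hc', hc⟩ := dQ_ball l q
  have hp : (0 : ℝ) < 1 / 4 ^ l := by positivity
  have h2 := fun w => (Pot_sub (meas_dQ l q) le_rfl hc w).2
  rw [Pot_dQ] at h2
  set K : ℝ := 1 / 4 ^ l * (l - l + 4) + 7 / 4 ^ l
  have h3 := fun w => (Pot_rad (w := w) (hc hc'))
  have h4 : (0 : ℝ) < 3 * (2 / 2 ^ l) := by positivity
  refine ⟨⟨K - 1 / 4 ^ l * Real.log (3 * (2 / 2 ^ l)), fun w => ?_⟩,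
    fun M => ⟨‖c‖ + Real.exp ((M + K) / (1 / 4 ^ l)), fun w hw => ?_⟩⟩
  · linarith [h2 w, mul_le_mul_of_nonneg_left (Real.log_le_log h4 (h3 w).2.1) hp.le]
  · have h5 : Real.log (rad c (2 / 2 ^ l) w) ≤ (M + K) / (1 / 4 ^ l) := by
      rw [le_div_iff₀ hp]; linarith [h2 w]
    rw [Real.log_le_iff_le_exp (h4.trans_le (h3 w).2.1)] at h5
    linarith [(h3 w).1, norm_le_norm_add_norm_sub' w c]

theorem em_small (h : An F δ) (hA : MeasurableSet A) (hb : Bornology.IsBounded A) {c : ℝ}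
    (hc : ∀ w, 0 ≤ pot A w + c) (hz : 0 < z.im) :
    ∫⁻ ω, ENNReal.ofReal (pot A (F (mv (δ / 8) z ω)) + c) ∂dsk ≤
      ENNReal.ofReal (pot A (F z) + c + 64 * em F δ A z) := by
  -- `avg_eq` twice, `sub_pot` for the annulus between the radii `δ / 8 * im z` and `δ * im z`
  have hr : 0 < δ * z.im := mul_pos h.pos hz
  have hR : δ * z.im < z.im := by nlinarith [h.le]
  have hr' : 0 < δ / 8 * z.im := by nlinarith
  have h8 : An F (δ / 8) := ⟨h.diff, h.meas, by linarith [h.pos], by linarith [h.le]⟩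
  have hi := (occ_eq h8 hA hb hz).1
  rw [← ofReal_integral_eq_lintegral_ofReal (f := fun ω => pot A (F (mv (δ / 8) z ω)) + c)
    (hi.add (integrable_const c)) (ae_of_all _ fun ω => hc _),
    integral_add hi (integrable_const c)]
  refine ENNReal.ofReal_le_ofReal ?_
  have h0 := (sub_pot h hA hb hR 0).1
  have h1 := (sub_pot h hA hb hR (δ / 8 * z.im)).2
  have hsub : ball z (δ / 8 * z.im) ⊆ ball z (δ * z.im) := ball_subset_ball (by nlinarith)
  rw [ball_zero, sdiff_empty] at h0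
  rw [setIntegral_sdiff measurableSet_ball h0 hsub, measureReal_sdiff hsub measurableSet_ball,
    Pot_vol z hr.le, Pot_vol z hr'.le] at h1
  unfold em av mv
  rw [avg_eq (fun w => pot A (F w)) z hr, avg_eq (fun w => pot A (F w)) z hr']
  have e : (Real.pi * (δ / 8 * z.im) ^ 2)⁻¹ = 64 * (Real.pi * (δ * z.im) ^ 2)⁻¹ := by
    field_simp; norm_num
  have e2 : Real.pi * (δ / 8 * z.im) ^ 2 = Real.pi * (δ * z.im) ^ 2 / 64 := by ring
  rw [e]
  rw [e2] at h1
  have hv : 0 < Real.pi * (δ * z.im) ^ 2 := by positivity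
  generalize Real.pi * (δ * z.im) ^ 2 = v at *
  have h2 := mul_le_mul_of_nonneg_left h1 (inv_pos.2 hv).le
  have e3 : v⁻¹ * ((v - v / 64) * pot A (F z)) = 63 / 64 * pot A (F z) := by field_simp; ring
  rw [e3, mul_sub] at h2
  simp only [integral_const, probReal_univ, smul_eq_mul]
  linarith

theorem em_near (h : An F δ) (hA : MeasurableSet A) (hb : Bornology.IsBounded A) {c : ℝ}
    (hc : ∀ w, 0 ≤ pot A w + c) (hz : 0 < z.im) {ζ : ℂ} (hζ : ‖ζ - z‖ ≤ δ * z.im / 2) :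
    pot A (F ζ) + c ≤ 4 * (pot A (F z) + c + em F δ A z) := by
  -- `ball ζ (δ im z / 2) ⊆ ball z (δ im z)`, `sub_pot` at `ζ`
  have hr : 0 < δ * z.im := mul_pos h.pos hz
  have hR : δ * z.im < z.im := by nlinarith [h.le]
  have hζ' : δ * z.im / 2 < ζ.im := by
    have h2 := (abs_le.1 ((Complex.abs_im_le_norm (ζ - z)).trans hζ)).1
    rw [Complex.sub_im] at h2
    linarith
  have h0 := (sub_pot h hA hb hR 0).1
  obtain ⟨h1, h2⟩ := sub_pot h hA hb hζ' 0
  rw [ball_zero, sdiff_empty] at h0 h1 h2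
  have hsub : ball ζ (δ * z.im / 2) ⊆ ball z (δ * z.im) :=
    ball_subset_ball' (by rw [dist_eq_norm]; linarith)
  have f1 := Pot_fin (isBounded_ball : Bornology.IsBounded (ball z (δ * z.im)))
  have f2 := Pot_fin (isBounded_ball : Bornology.IsBounded (ball ζ (δ * z.im / 2)))
  have h3 := setIntegral_mono_set (h0.add (integrable_const c)) (ae_of_all _ fun w => hc (F w))
    hsub.eventuallyLE
  simp only [Pi.add_apply] at h3
  rw [integral_add h1 (integrable_const c), integral_add h0 (integrable_const c), setIntegral_const,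
    setIntegral_const, Pot_vol z hr.le, smul_eq_mul, smul_eq_mul] at h3
  rw [Pot_vol ζ (by linarith), show Real.pi * (δ * z.im / 2) ^ 2 = Real.pi * (δ * z.im) ^ 2 / 4 by
    ring] at h2 h3
  unfold em av mv
  rw [avg_eq (fun w => pot A (F w)) z hr]
  have hv : 0 < Real.pi * (δ * z.im) ^ 2 := by positivity
  generalize Real.pi * (δ * z.im) ^ 2 = v at *
  have h4 : v / 4 * (pot A (F ζ) + c) - v * c ≤ ∫ w in ball z (δ * z.im), pot A (F w) := by linarith
  have h5 := mul_le_mul_of_nonneg_left h4 (inv_pos.2 hv).le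
  have e : v⁻¹ * (v / 4 * (pot A (F ζ) + c) - v * c) = (pot A (F ζ) + c) / 4 - c := by field_simp
  linarith

end Pool.Agent.Work.MP_31144c_an.G
end

-- merged part: Flux
section
/-! The invariant measure, the flux through a box, and the discrete potential (steps 2 and 3 of the paper).
PLAN. `mp_T`: `MeasurePreserving.skew_product`, `measurePreserving_add_right`, `map_add_right_eq_self`. `flux0`: `∫_A V = ∫_{T⁻¹ A} V ∘ T`
(`MeasurePreserving.setIntegral_preimage_emb` needs an embedding; use `integral_map` on the indicator), split both sets along the intersection; the differences have the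
same measure. `flux`: `integral_integral_swap`, `box \ T⁻¹ box` lies in two strips of height 1 and two sets `regionBetween` over `Iic (sg δ k)`
(`volume_regionBetween_eq_lintegral'`, `integral_exp_Iic`). `fin_W`: `Ψ = min 1 (exp ((η - s) / 2))`, `χ = (1 - γ) exp ((η - s) / 2)` on `η ≤ s`;
`∫ Ψ W (n + 1) + ∫ χ W n ≤ ∫ a + ∫ Ψ W n` by `mp_T` and `gam`. `minp`: induction with the error `C γ ^ n exp (s / 2)`. -/

namespace Pool.Agent.Work.MP_31144c_an.G

open Set Filter Topology MeasureTheory Complex Metric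
open scoped ENNReal

variable {δ : ℝ} {k d : ℕ} {j : ℤ} {p : ℝ × ℝ}

theorem pt_im (p : ℝ × ℝ) : 0 < (pt p).im := Real.exp_pos _

theorem cont_pt : Continuous pt := by
  have : pt = fun p : ℝ × ℝ => Complex.equivRealProdCLM.symm (p.2, Real.exp p.1) := rfl
  rw [this]; fun_prop

theorem pt_surj {z : ℂ} (hz : 0 < z.im) : pt (Real.log z.im, z.re) = z := by
  exact Complex.ext rfl (Real.exp_log hz)

theorem flux_im (h0 : 0 < δ) (h1 : δ ≤ 1 / 2) {ω : ℂ} (hω : ‖ω‖ < 1) :
    1 / 2 ≤ 1 + δ * ω.im ∧ 1 + δ * ω.im ≤ 2 := by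
  have := abs_lt.1 ((abs_im_le_norm ω).trans_lt hω)
  constructor <;> nlinarith [this.1, this.2]

theorem pt_T (h0 : 0 < δ) (h1 : δ ≤ 1 / 2) {ω : ℂ} (hω : ‖ω‖ < 1) (p : ℝ × ℝ) :
    pt (Tm δ ω p) = mv δ (pt p) ω := by
  apply Complex.ext
  · simp only [pt, Tm, mv, add_re, smul_re, smul_eq_mul]
  · simp only [pt, Tm, mv, add_im, smul_im, smul_eq_mul]
    rw [Real.exp_add, Real.exp_log (by linarith [(flux_im h0 h1 hω).1])]; ring

theorem mp_T (δ : ℝ) (ω : ℂ) : MeasurePreserving (Tm δ ω) volume volume := by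
  exact MeasurePreserving.skew_product (measurePreserving_add_right volume (Real.log (1 + δ * ω.im)))
    (g := fun s x => x + δ * Real.exp s * ω.re) (by fun_prop)
    (Eventually.of_forall fun s => map_add_right_eq_self volume _)

theorem meas_T (δ : ℝ) : Measurable fun q : (ℝ × ℝ) × ℂ => Tm δ q.2 q.1 := by
  unfold Tm
  exact ((measurable_fst.fst).add (Real.measurable_log.comp (by fun_prop))).prodMk (by fun_prop)

theorem meas_av (δ : ℝ) {v : ℂ → ℝ} (hv : Measurable v) : Measurable (av δ v) := by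
  have : Measurable fun q : ℂ × ℂ => v (mv δ q.1 q.2) := hv.comp (by unfold mv; fun_prop)
  exact this.stronglyMeasurable.integral_prod_right'.measurable

theorem meas_box (δ : ℝ) (d k : ℕ) (j : ℤ) : MeasurableSet (box δ d k j) := by
  exact measurableSet_Ico.prod (meas_dI k j)

theorem flux_exp (h0 : 0 < δ) (k : ℕ) : Real.exp (sg δ k) = 2 / (δ * 2 ^ k) :=
  Real.exp_log (by positivity)

theorem flux_sg (h0 : 0 < δ) (k d : ℕ) : sg δ (k + d) = sg δ k - d * Real.log 2 := by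
  unfold sg
  rw [← Real.log_pow, ← Real.log_div (by positivity) (by positivity), pow_add]
  congr 1; field_simp

theorem box_mem (h0 : 0 < δ) (hp : p ∈ box δ 1 k j) :
    1 / (δ * 2 ^ k) ≤ Real.exp p.1 ∧ Real.exp p.1 < 2 / (δ * 2 ^ k) ∧ ix k p.2 = j := by
  obtain ⟨⟨a, b⟩, c⟩ := hp
  have a' := Real.exp_le_exp.2 a
  have b' := Real.exp_lt_exp.2 b
  rw [flux_exp h0] at a' b'
  refine ⟨le_trans (le_of_eq ?_) a', b', c⟩
  rw [pow_succ]; field_simp

theorem box_ex (h0 : 0 < δ) (hp : Real.exp p.1 < 2 / (δ * 2 ^ k)) :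
    ∃ i, p ∈ box δ 1 (k + i) (ix (k + i) p.2) := by
  have hl : 0 < Real.log 2 := Real.log_pos (by norm_num)
  have h : ∃ i : ℕ, sg δ (k + i + 1) ≤ p.1 := by
    obtain ⟨i, hi⟩ := exists_nat_ge ((sg δ k - p.1) / Real.log 2)
    refine ⟨i, ?_⟩
    rw [div_le_iff₀ hl] at hi
    rw [add_assoc, flux_sg h0]; push_cast; linarith
  classical
  refine ⟨Nat.find h, ⟨Nat.find_spec h, ?_⟩, rfl⟩
  rcases hi : Nat.find h with _ | i
  · rw [← flux_exp h0] at hp; exact Real.exp_lt_exp.1 hp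
  · exact not_le.1 (Nat.find_min h (hi ▸ i.lt_succ_self))

theorem vol_box (h0 : 0 < δ) (d k : ℕ) (j : ℤ) :
    volume (box δ d k j) ≤ ENNReal.ofReal (d / 2 ^ k) := by
  have hl : Real.log 2 ≤ 1 := by linarith [Real.log_two_lt_d9]
  unfold box
  rw [Measure.volume_eq_prod, Measure.prod_prod, Real.volume_Ico, vol_dI, flux_sg h0,
    ← ENNReal.ofReal_mul' (by positivity)]
  refine ENNReal.ofReal_le_ofReal ?_
  rw [mul_one_div]
  gcongr
  nlinarith [(Nat.cast_nonneg d : (0 : ℝ) ≤ d)]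

theorem flux_fin (h0 : 0 < δ) (d k : ℕ) (j : ℤ) : volume (box δ d k j) ≠ ⊤ :=
  ((vol_box h0 d k j).trans_lt ENNReal.ofReal_lt_top).ne

theorem flux_int {X : Type} [MeasurableSpace X] {μ : Measure X} {A : Set X} (hf : μ A ≠ ⊤)
    {V : X → ℝ} (hV : Measurable V) {β : ℝ} (hb : ∀ x, |V x| ≤ β) : IntegrableOn V A μ :=
  Measure.integrableOn_of_bounded hf hV.aestronglyMeasurable (Eventually.of_forall hb)

theorem Tr_bm (h0 : 0 < δ) {φ : ℂ → ℝ} (hφ : Measurable φ) {β : ℝ} (hb : ∀ w, |φ w| ≤ β) (d k : ℕ)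
    (j : ℤ) : Tr (bm δ φ) d k j = ∫ p in box δ d k j, φ (pt p) := by
  have hl : 0 < Real.log 2 := Real.log_pos (by norm_num)
  have I : ∀ d k j, IntegrableOn (fun p => φ (pt p)) (box δ d k j) := fun d k j =>
    flux_int (flux_fin h0 d k j) (hφ.comp cont_pt.measurable) fun _ => hb _
  induction d generalizing k j with
  | zero => simp [Tr, box]
  | succ d ih =>
    obtain ⟨e, f⟩ := dI_split k j
    have h1 : sg δ (k + 1) ≤ sg δ k := by rw [flux_sg h0]; push_cast; linarith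
    have h2 : sg δ (k + 1 + d) ≤ sg δ (k + 1) := by
      rw [flux_sg h0 (k + 1)]; nlinarith [(Nat.cast_nonneg d : (0 : ℝ) ≤ d)]
    have E : box δ (d + 1) k j =
        box δ 1 k j ∪ (box δ d (k + 1) (2 * j) ∪ box δ d (k + 1) (2 * j + 1)) := by
      unfold box
      rw [← prod_union, ← e, ← union_prod, union_comm, Ico_union_Ico_eq_Ico h2 h1, add_assoc, add_comm 1]
    have D1 : Disjoint (box δ d (k + 1) (2 * j)) (box δ d (k + 1) (2 * j + 1)) :=
      Set.disjoint_left.2 fun p a b => Set.disjoint_left.1 f a.2 b.2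
    have D2 : Disjoint (box δ 1 k j) (box δ d (k + 1) (2 * j) ∪ box δ d (k + 1) (2 * j + 1)) :=
      Set.disjoint_left.2 fun p a b => by
        rcases b with b | b <;> exact absurd a.1.1 (not_le.2 b.1.2)
    rw [E, setIntegral_union D2 ((meas_box ..).union (meas_box ..)) (I ..) ((I ..).union (I ..)),
      setIntegral_union D1 (meas_box ..) (I ..) (I ..), Tr, ih, ih, bm, add_assoc]
    congr 1; field_simp

theorem flux0 {X : Type} [MeasurableSpace X] {μ : Measure X} {T : X → X}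
    (hT : MeasurePreserving T μ μ) {A : Set X} (hA : MeasurableSet A) (hf : μ A ≠ ⊤) {V : X → ℝ}
    (hV : Measurable V) {β : ℝ} (hb : ∀ x, |V x| ≤ β) :
    |(∫ x in A, V (T x) ∂μ) - ∫ x in A, V x ∂μ| ≤ 2 * β * μ.real (A \ T ⁻¹' A) := by
  have hB := hT.measurable hA
  have e : μ (T ⁻¹' A) = μ A := hT.measure_preimage hA.nullMeasurableSet
  have hg : μ (T ⁻¹' A) ≠ ⊤ := e ▸ hf
  have hW := hV.comp hT.measurable
  have e1 : ∫ x in A, V x ∂μ = ∫ x in T ⁻¹' A, V (T x) ∂μ := by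
    rw [← (hT.restrict_preimage hA).map_eq,
      integral_map hT.measurable.aemeasurable hV.aestronglyMeasurable]
  have e2 := integral_inter_add_sdiff hB (flux_int hf hW fun x => hb _)
  have e3 := integral_inter_add_sdiff hA (flux_int hg hW fun x => hb _)
  have e4 := measureReal_inter_add_sdiff hB hf
  have e5 := measureReal_inter_add_sdiff hA hg
  have e6 : μ.real (T ⁻¹' A) = μ.real A := congrArg ENNReal.toReal e
  have b1 := norm_setIntegral_le_of_norm_le_const (f := V ∘ T) (s := A \ T ⁻¹' A) (μ := μ)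
    ((measure_mono sdiff_subset).trans_lt hf.lt_top) fun x _ => hb (T x)
  have b2 := norm_setIntegral_le_of_norm_le_const (f := V ∘ T) (s := T ⁻¹' A \ A) (μ := μ)
    ((measure_mono sdiff_subset).trans_lt hg.lt_top) fun x _ => hb (T x)
  rw [inter_comm] at e3 e5
  have e7 : μ.real (T ⁻¹' A \ A) = μ.real (A \ T ⁻¹' A) := by linarith
  rw [e7] at b2
  simp only [Function.comp_def, Real.norm_eq_abs, abs_le] at e2 e3 b1 b2
  rw [e1, ← e2, ← e3, abs_le]
  constructor <;> linarith [b1.1, b1.2, b2.1, b2.2]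

theorem flux_horn (h0 : 0 < δ) (k : ℕ) (c : ℝ) :
    volume (regionBetween (fun s => c - δ * Real.exp s) (fun s => c + δ * Real.exp s)
      (Iic (sg δ k))) = ENNReal.ofReal (4 / 2 ^ k) := by
  have : ∀ s, c + δ * Real.exp s - (c - δ * Real.exp s) = 2 * δ * Real.exp s := fun s => by ring
  rw [Measure.volume_eq_prod,
    volume_regionBetween_eq_lintegral' (by fun_prop) (by fun_prop) measurableSet_Iic]
  simp_rw [Pi.sub_apply, this]
  rw [← ofReal_integral_eq_lintegral_ofReal ((integrableOn_exp_Iic _).const_mul _)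
    (Eventually.of_forall fun s => by positivity), integral_const_mul, integral_exp_Iic, flux_exp h0]
  congr 1; field_simp; norm_num

theorem flux_out (h0 : 0 < δ) (h1 : δ ≤ 1 / 2) {ω : ℂ} (hω : ‖ω‖ < 1) (d k : ℕ) (j : ℤ) :
    volume (box δ d k j \ Tm δ ω ⁻¹' box δ d k j) ≤ ENNReal.ofReal (10 / 2 ^ k) := by
  have hl : Real.log 2 ≤ 1 := by linarith [Real.log_two_lt_d9]
  obtain ⟨i1, i2⟩ := flux_im h0 h1 hω
  have c1 := Real.log_le_log (by norm_num) i1
  have c2 := Real.log_le_log (by linarith) i2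
  rw [one_div, Real.log_inv] at c1
  have hu := abs_lt.1 ((abs_re_le_norm ω).trans_lt hω)
  let H := fun c : ℝ => regionBetween (fun s => c - δ * Real.exp s) (fun s => c + δ * Real.exp s)
    (Iic (sg δ k))
  have S : ∀ c : ℝ, volume (Icc c (c + 1) ×ˢ dI k j) = ENNReal.ofReal (1 / 2 ^ k) := fun c => by
    rw [Measure.volume_eq_prod, Measure.prod_prod, Real.volume_Icc, vol_dI]; simp
  have sub : box δ d k j \ Tm δ ω ⁻¹' box δ d k j ⊆
      (Icc (sg δ (k + d)) (sg δ (k + d) + 1) ×ˢ dI k j ∪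
        Icc (sg δ k - 1) (sg δ k - 1 + 1) ×ˢ dI k j) ∪ (H (j / 2 ^ k) ∪ H ((j + 1) / 2 ^ k)) := by
    rintro p ⟨⟨⟨a1, a2⟩, a3⟩, b⟩
    have a4 := a3
    have he : 0 < δ * Real.exp p.1 := by positivity
    rw [dI_eq] at a4
    simp only [mem_preimage, box, Tm, mem_prod, dI_eq, mem_Ico, not_and_or, not_le, not_lt] at b
    rcases b with (b | b) | b | b
    · exact .inl (.inl ⟨⟨a1, by linarith⟩, a3⟩)
    · exact .inl (.inr ⟨⟨by linarith, by linarith⟩, a3⟩)
    · exact .inr (.inl ⟨a2.le, by linarith [a4.1], by nlinarith [hu.1]⟩)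
    · exact .inr (.inr ⟨a2.le, by nlinarith [hu.2], by linarith [a4.2]⟩)
  refine (measure_mono sub).trans ((measure_union_le _ _).trans
    ((add_le_add (measure_union_le _ _) (measure_union_le _ _)).trans (le_of_eq ?_)))
  rw [S, S, flux_horn h0, flux_horn h0, ← ENNReal.ofReal_add (by positivity) (by positivity),
    ← ENNReal.ofReal_add (by positivity) (by positivity),
    ← ENNReal.ofReal_add (by positivity) (by positivity)]
  congr 1; ring

theorem flux (h0 : 0 < δ) (h1 : δ ≤ 1 / 2) {V : ℂ → ℝ} (hV : Measurable V) {β : ℝ}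
    (hb : ∀ w, |V w| ≤ β) (d k : ℕ) (j : ℤ) :
    |∫ p in box δ d k j, (av δ V (pt p) - V (pt p))| ≤ 20 * β / 2 ^ k := by
  have hf := flux_fin h0 d k j
  have hβ : 0 ≤ β := (abs_nonneg _).trans (hb 0)
  have hP : Measurable fun p => V (pt p) := hV.comp cont_pt.measurable
  have hm : Measurable fun q : (ℝ × ℝ) × ℂ => V (mv δ (pt q.1) q.2) - V (pt q.1) :=
    (hV.comp (by have := cont_pt; unfold mv; fun_prop)).sub (hP.comp measurable_fst)
  have e1 : ∀ p, av δ V (pt p) - V (pt p) = ∫ ω, (V (mv δ (pt p) ω) - V (pt p)) ∂dsk := fun p => by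
    rw [integral_sub _ (integrable_const _)]
    · simp [av]
    · exact .of_bound (hV.comp (by unfold mv; fun_prop)).aestronglyMeasurable β
        (Eventually.of_forall fun _ => hb _)
  have : IsFiniteMeasure (volume.restrict (box δ d k j)) := isFiniteMeasure_restrict.2 hf
  simp_rw [e1]
  rw [integral_integral_swap (.of_bound hm.aestronglyMeasurable (β + β)
    (Eventually.of_forall fun _ => (abs_sub _ _).trans (add_le_add (hb _) (hb _))))]
  have := norm_integral_le_of_norm_le_const (μ := dsk) (C := 20 * β / 2 ^ k)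
    (f := fun ω => ∫ p in box δ d k j, (V (mv δ (pt p) ω) - V (pt p))) (ae_dsk.mono fun ω hω => by
      simp_rw [← pt_T h0 h1 hω]
      have hQ : Measurable fun p => V (pt (Tm δ ω p)) := hP.comp (mp_T δ ω).measurable
      rw [integral_sub (flux_int hf hQ fun _ => hb _)
        (flux_int hf hP fun _ => hb _)]
      refine (flux0 (mp_T δ ω) (meas_box δ d k j) hf hP fun _ => hb _).trans ?_
      have := ENNReal.toReal_le_of_le_ofReal (by positivity) (flux_out h0 h1 hω d k j)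
      calc _ ≤ 2 * β * (10 / 2 ^ k) := by gcongr; exact this
        _ = _ := by ring)
  simpa using this

theorem meas_Wn (δ : ℝ) {a : ℝ × ℝ → ℝ≥0∞} (ha : Measurable a) (n : ℕ) : Measurable (Wn δ a n) := by
  induction n with
  | zero => exact ha
  | succ n ih => exact ha.add (ih.comp (meas_T δ)).lintegral_prod_right'

theorem flux_mono (δ : ℝ) (a : ℝ × ℝ → ℝ≥0∞) : Monotone (Wn δ a) := by
  refine monotone_nat_of_le_succ fun n => ?_
  induction n with
  | zero => exact fun p => le_self_add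
  | succ n ih => exact fun p => add_le_add_right (lintegral_mono fun ω => ih _) _

theorem fin_W (h0 : 0 < δ) (h1 : δ ≤ 1 / 2) {a : ℝ × ℝ → ℝ≥0∞} (ha : Measurable a)
    (hi : ∫⁻ p, a p ≠ ⊤) : ∀ᵐ p, ⨆ n, Wn δ a n p ≠ ⊤ := by
  obtain ⟨γ, g0, g1, g2⟩ := gam h0 h1
  have hW := meas_Wn δ ha
  have key : ∀ η : ℝ, ∀ᵐ p : ℝ × ℝ, η ≤ p.1 → ⨆ n, Wn δ a n p ≠ ⊤ := fun η => by
    let ψ : ℝ → ℝ≥0∞ := fun s => min 1 (ENNReal.ofReal (Real.exp ((η - s) / 2)))
    let χ : ℝ → ℝ≥0∞ := (Ici η).indicator fun s => ENNReal.ofReal ((1 - γ) * Real.exp ((η - s) / 2))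
    let c : ℂ → ℝ := fun ω => Real.log (1 + δ * ω.im)
    have mc : Measurable c := Real.measurable_log.comp (by fun_prop)
    have mψ : Measurable ψ := by fun_prop
    have mχ : Measurable χ := Measurable.indicator (by fun_prop) measurableSet_Ici
    have P : ∀ s, ∫⁻ ω, ψ (s - c ω) ∂dsk + χ s ≤ ψ s := fun s => by
      by_cases hs : η ≤ s
      · have e : ψ s = ENNReal.ofReal (Real.exp ((η - s) / 2)) := min_eq_right
          (ENNReal.ofReal_le_one.2 (Real.exp_le_one_iff.2 (by linarith)))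
        have : ∫⁻ ω, ψ (s - c ω) ∂dsk ≤ ENNReal.ofReal (Real.exp ((η - s) / 2) * γ) := by
          rw [ENNReal.ofReal_mul (Real.exp_pos _).le]
          refine le_trans ?_ (mul_le_mul_right g2 _)
          rw [← lintegral_const_mul' _ _ ENNReal.ofReal_ne_top]
          refine lintegral_mono fun ω => (min_le_right _ _).trans (le_of_eq ?_)
          rw [← ENNReal.ofReal_mul (Real.exp_pos _).le, ← Real.exp_add]
          congr 2; simp only [c]; ring
        refine (add_le_add_left this _).trans (le_of_eq ?_)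
        simp only [χ, indicator_of_mem (mem_Ici.2 hs)]
        rw [e, ← ENNReal.ofReal_add (by positivity) (mul_nonneg (by linarith) (Real.exp_pos _).le)]
        congr 1; ring
      · have e : ψ s = 1 := min_eq_left
          (ENNReal.one_le_ofReal.2 (Real.one_le_exp (by linarith [not_le.1 hs])))
        simp only [χ, indicator_of_notMem (fun h => hs (mem_Ici.1 h)), add_zero, e]
        exact (lintegral_mono fun ω => min_le_left _ _).trans (by simp)
    have A : ∫⁻ p, ψ p.1 * a p ≤ ∫⁻ p, a p :=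
      lintegral_mono fun p => mul_le_of_le_one_left' (min_le_left _ _)
    have m3 : ∀ n, Measurable fun p : ℝ × ℝ => χ p.1 * Wn δ a n p :=
      fun n => (mχ.comp measurable_fst).mul (hW n)
    have m4 : Measurable fun p : ℝ × ℝ => ψ p.1 * a p := (mψ.comp measurable_fst).mul ha
    have Q : ∀ n, (∫⁻ p, ψ p.1 * Wn δ a (n + 1) p) + ∫⁻ p, χ p.1 * Wn δ a n p ≤
        (∫⁻ p, a p) + ∫⁻ p, ψ p.1 * Wn δ a n p := fun n => by
      have m1 : Measurable fun q : (ℝ × ℝ) × ℂ => ψ q.1.1 * Wn δ a n (Tm δ q.2 q.1) :=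
        (mψ.comp measurable_fst.fst).mul ((hW n).comp (meas_T δ))
      have m2 : Measurable fun q : ℂ × ℝ × ℝ => ψ (q.2.1 - c q.1) * Wn δ a n q.2 :=
        (mψ.comp (measurable_snd.fst.sub (mc.comp measurable_fst))).mul ((hW n).comp measurable_snd)
      have e : ∫⁻ p : ℝ × ℝ, ψ p.1 * ∫⁻ ω, Wn δ a n (Tm δ ω p) ∂dsk =
          ∫⁻ p : ℝ × ℝ, (∫⁻ ω, ψ (p.1 - c ω) ∂dsk) * Wn δ a n p := by
        calc _ = ∫⁻ p : ℝ × ℝ, ∫⁻ ω, ψ p.1 * Wn δ a n (Tm δ ω p) ∂dsk :=
              lintegral_congr fun p => (lintegral_const_mul' _ _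
                ((min_le_left _ _).trans_lt ENNReal.one_lt_top).ne).symm
          _ = ∫⁻ ω, (∫⁻ p : ℝ × ℝ, ψ p.1 * Wn δ a n (Tm δ ω p)) ∂dsk :=
              lintegral_lintegral_swap m1.aemeasurable
          _ = ∫⁻ ω, (∫⁻ p : ℝ × ℝ, ψ (p.1 - c ω) * Wn δ a n p) ∂dsk := lintegral_congr fun ω => by
              have : Measurable fun p : ℝ × ℝ => ψ (p.1 - c ω) * Wn δ a n p :=
                (mψ.comp (measurable_fst.sub_const _)).mul (hW n)
              rw [← (mp_T δ ω).lintegral_comp this]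
              simp [Tm, c]
          _ = ∫⁻ p : ℝ × ℝ, ∫⁻ ω, ψ (p.1 - c ω) * Wn δ a n p ∂dsk :=
              lintegral_lintegral_swap m2.aemeasurable
          _ = _ := lintegral_congr fun p =>
              lintegral_mul_const _ (mψ.comp (measurable_const.sub mc))
      simp only [Wn, mul_add]
      rw [lintegral_add_left m4, e, add_assoc, ← lintegral_add_right _ (m3 n)]
      refine add_le_add A (lintegral_mono fun p => ?_)
      rw [← add_mul]
      exact mul_le_mul_left (P _) _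
    have F : ∀ n, ∫⁻ p, ψ p.1 * Wn δ a n p ≠ ⊤ := fun n => by
      induction n with
      | zero => exact ne_top_of_le_ne_top hi A
      | succ n ih => exact ne_top_of_le_ne_top (ENNReal.add_ne_top.2 ⟨hi, ih⟩) (le_self_add.trans (Q n))
    have R : ∀ n, ∫⁻ p, χ p.1 * Wn δ a n p ≤ ∫⁻ p, a p := fun n => by
      refine (ENNReal.add_le_add_iff_right (F n)).1 (le_trans ?_ (Q n))
      rw [add_comm]
      exact add_le_add_left
        (lintegral_mono fun p => mul_le_mul_right (flux_mono δ a n.le_succ p) _) _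
    have Z : ∫⁻ p : ℝ × ℝ, ⨆ n, χ p.1 * Wn δ a n p ≠ ⊤ := by
      rw [lintegral_iSup m3 fun n m h p => mul_le_mul_right (flux_mono δ a h p) _]
      exact ne_top_of_le_ne_top hi (iSup_le R)
    refine (ae_lt_top (.iSup m3) Z).mono fun p h hs t => ?_
    simp only [← ENNReal.mul_iSup, t, χ, indicator_of_mem (mem_Ici.2 hs)] at h
    rw [ENNReal.mul_top (ENNReal.ofReal_pos.2 (mul_pos (by linarith) (Real.exp_pos _))).ne'] at h
    exact h.false
  refine (ae_all_iff.2 fun m : ℕ => key (-m)).mono fun p h => ?_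
  obtain ⟨m, hm⟩ := exists_nat_ge (-p.1)
  exact h m (by linarith)

theorem minp (h0 : 0 < δ) (h1 : δ ≤ 1 / 2) {a : ℝ × ℝ → ℝ≥0∞} (ha : Measurable a)
    {h U : ℝ × ℝ → ℝ} (hU : Measurable U) {C : ℝ} (h2 : ∀ p, h p ≤ C * Real.exp (p.1 / 2))
    (h3 : ∀ p, ENNReal.ofReal (h p) ≤ ENNReal.ofReal (U p) + a p ∨
      (ENNReal.ofReal (h p) ≤ ∫⁻ ω, ENNReal.ofReal (h (Tm δ ω p)) ∂dsk ∧
        ∫⁻ ω, ENNReal.ofReal (U (Tm δ ω p)) ∂dsk ≤ ENNReal.ofReal (U p) + a p)) (p : ℝ × ℝ) :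
    ENNReal.ofReal (h p) ≤ ENNReal.ofReal (U p) + ⨆ n, Wn δ a n p := by
  obtain ⟨γ, g0, g1, g2⟩ := gam h0 h1
  have key : ∀ n p, ENNReal.ofReal (h p) ≤ ENNReal.ofReal (U p) + Wn δ a n p +
      ENNReal.ofReal (|C| * γ ^ n * Real.exp (p.1 / 2)) := fun n => by
    induction n with
    | zero =>
      refine fun p => le_add_left (ENNReal.ofReal_le_ofReal ((h2 p).trans ?_))
      rw [pow_zero, mul_one]; gcongr; exact le_abs_self C
    | succ n ih =>
      intro p
      have mT : Measurable fun ω => Tm δ ω p := (meas_T δ).comp measurable_prodMk_left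
      rcases h3 p with h4 | ⟨h4, h5⟩
      · exact le_add_right (h4.trans (add_le_add_right le_self_add _))
      refine h4.trans ((lintegral_mono fun ω => ih _).trans ?_)
      have m1 : Measurable fun ω => ENNReal.ofReal (U (Tm δ ω p)) := (hU.comp mT).ennreal_ofReal
      have m2 : Measurable fun ω => ENNReal.ofReal (U (Tm δ ω p)) + Wn δ a n (Tm δ ω p) :=
        m1.add ((meas_Wn δ ha n).comp mT)
      rw [lintegral_add_left m2, lintegral_add_left m1, Wn, ← add_assoc]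
      refine add_le_add (add_le_add_left h5 _) ?_
      rw [show |C| * γ ^ (n + 1) * Real.exp (p.1 / 2) = |C| * γ ^ n * Real.exp (p.1 / 2) * γ by ring,
        ENNReal.ofReal_mul (by positivity)]
      refine le_trans ?_ (mul_le_mul_right g2 _)
      rw [← lintegral_const_mul' _ _ ENNReal.ofReal_ne_top]
      refine lintegral_mono fun ω => le_of_eq ?_
      rw [← ENNReal.ofReal_mul (by positivity), mul_assoc (|C| * γ ^ n), ← Real.exp_add, Tm, add_div]
  have t : Tendsto (fun n : ℕ => ENNReal.ofReal (U p) + (⨆ n, Wn δ a n p) +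
      ENNReal.ofReal (|C| * γ ^ n * Real.exp (p.1 / 2))) atTop (𝓝 (_ + _)) :=
    tendsto_const_nhds.add (ENNReal.tendsto_ofReal
      (((tendsto_pow_atTop_nhds_zero_of_lt_one g0 g1).const_mul _).mul_const _))
  simpa using ge_of_tendsto' t fun n => (key n p).trans
    (add_le_add_left (add_le_add_right (le_iSup (fun n => Wn δ a n p) n) _) _)

end Pool.Agent.Work.MP_31144c_an.G
end

-- merged part: Big
section
/-! Large intersection (step 5 of the paper).
PLAN. `trunc`: monotone convergence (`lintegral_iSup`) for `min w n` on `{1 / (n + 1) < infDist x Ωᶜ}`. `step`: truncate, take `l' ≥ l` with `2 / 2 ^ l' < η / 2` from `PX` with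
`M = n`, choose `w q`, put `c q = (∫⁻ over dQ l' q of w₁) / (∫⁻ over dQ l' q of w q) ≤ 1`, `w' x = c (q x) * w (q x) x` (measurable: `Measurable.of_uncurry`-free, use
`measurable_from_prod_countable_left` or a `tsum` of indicators), `dQ_sum`, `dQ_nest`; `Ω' = O ∩ {η / 2 < infDist x Ωᶜ}`. `haus_ge`: iterate `step`;
`K = ⋂ closure (Ω i)`; `OuterMeasure.ofFunction` of `U ↦ if IsOpen U then ⨆ i, ∫⁻ over U of w i else ⊤`, `OuterMeasure.le_mkMetric` (pattern: `cover_le` in Cover.lean),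
`dQ_cover`, `IsCompact.elim_finite_subcover` or `IsCompact.nonempty_iInter_of_sequence_nonempty_isCompact_isClosed`. -/

namespace Pool.Agent.Work.MP_31144c_an.G

open Set Filter Topology MeasureTheory Complex Metric
open scoped ENNReal

variable {G : ℕ → ℝ} {l : ℕ} {m₀ : ℝ≥0∞} {w : ℂ → ℝ≥0∞} {Ω O : Set ℂ}

/-- A state of the construction. -/
structure St (G : ℕ → ℝ) (l : ℕ) (m₀ : ℝ≥0∞) (w : ℂ → ℝ≥0∞) (Ω : Set ℂ) : Prop where
  op : IsOpen Ω
  bd : Bornology.IsBounded Ω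
  wt : Wt G l Ω w
  mass : m₀ < ∫⁻ x, w x

theorem trunc (h : St G l m₀ w Ω) : ∃ (n : ℕ) (w₁ : ℂ → ℝ≥0∞), Measurable w₁ ∧ (∀ x, w₁ x ≤ w x) ∧
    (∀ x, w₁ x ≤ n) ∧ (∀ x, w₁ x ≠ 0 → 1 / ((n : ℝ) + 1) < infDist x Ωᶜ) ∧ m₀ < ∫⁻ x, w₁ x := by
  let S : ℕ → Set ℂ := fun n => {x | 1 / ((n : ℝ) + 1) < infDist x Ωᶜ}
  have hS : Monotone S := fun a b hab y (hy : (_ : ℝ) < _) =>
    show (_ : ℝ) < _ from (Nat.one_div_le_one_div hab).trans_lt hy
  let f : ℕ → ℂ → ℝ≥0∞ := fun n => (S n).indicator fun x => min (w x) n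
  have hm : ∀ n, Measurable (f n) := fun n => (h.wt.meas.min measurable_const).indicator
    (isOpen_lt continuous_const (continuous_infDist_pt _)).measurableSet
  have hle : ∀ n x, f n x ≤ min (w x) n := fun n x => indicator_le_self _ _ x
  have hmo : Monotone f := fun a b hab x =>
    (indicator_le_indicator_of_subset (hS hab) (fun _ => zero_le) x).trans
      (indicator_le_indicator (min_le_min_left (w x) (Nat.cast_le.2 hab)))
  have hne : Ωᶜ.Nonempty := nonempty_compl.2 fun e => NormedSpace.unbounded_univ ℝ ℂ (e ▸ h.bd)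
  have hs : ∀ x, w x ≤ ⨆ n, f n x := fun x => le_of_forall_lt fun c hc => by
    obtain ⟨a, ha⟩ := exists_nat_one_div_lt ((h.op.isClosed_compl.notMem_iff_infDist_pos hne).1
      (not_not.2 (h.wt.supp x hc.ne_bot)))
    obtain ⟨b, hb⟩ := ENNReal.exists_nat_gt hc.ne_top
    refine lt_of_lt_of_le ?_ (le_iSup (f · x) (max a b))
    exact (lt_min hc (hb.trans_le (Nat.cast_le.2 (le_max_right a b)))).trans_eq
      (indicator_of_mem (hS (le_max_left a b) ha) fun x => min (w x) (max a b : ℕ)).symm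
  have := h.mass.trans_le (lintegral_mono hs)
  rw [lintegral_iSup hm hmo] at this
  obtain ⟨n, hn⟩ := lt_iSup_iff.1 this
  exact ⟨n, f n, hm n, fun x => (hle n x).trans (min_le_left _ _),
    fun x => (hle n x).trans (min_le_right _ _), fun x => mem_of_indicator_ne_zero (s := S n), hn⟩

theorem Big_small {ρ : ℝ} (h : 0 < ρ) : ∀ᶠ n : ℕ in atTop, 2 / (2 : ℝ) ^ n < ρ :=
  (tendsto_const_nhds.div_atTop (tendsto_pow_atTop_atTop_of_one_lt one_lt_two)).eventually
    (gt_mem_nhds h)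

theorem step (h : St G l m₀ w Ω) (hO : IsOpen O) (hX : PX G O) :
    ∃ w' Ω', St G l m₀ w' Ω' ∧ closure Ω' ⊆ Ω ∧ Ω' ⊆ O := by
  obtain ⟨n, w₁, m1, le1, le2, su, ma⟩ := trunc h
  have hη : 0 < 1 / ((n : ℝ) + 1) / 2 := by positivity
  obtain ⟨k, ⟨hk, hl⟩, hv⟩ := (((Big_small hη).and (eventually_ge_atTop l)).and (hX n)).exists
  choose v hv hb using hv
  set a : ℤ × ℤ → ℝ≥0∞ := fun q => ∫⁻ x in dQ k q, w₁ x with ha
  set c : ℤ × ℤ → ℝ≥0∞ := fun q => a q / ∫⁻ x in dQ k q, v q x with hc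
  have hab : ∀ q, a q ≤ ∫⁻ x in dQ k q, v q x := fun q => by
    refine (lintegral_mono le2).trans (le_trans (le_of_eq ?_) (hb q))
    rw [setLIntegral_const, vol_dQ, ← ENNReal.ofReal_natCast, ← ENNReal.ofReal_mul n.cast_nonneg,
      mul_one_div]
  have hc1 : ∀ q, c q ≤ 1 := fun q => ENNReal.div_le_of_le_mul (by simpa using hab q)
  set Q : ℂ → ℤ × ℤ := fun x => (ix k x.re, ix k x.im) with hQ
  have mQ : Measurable Q := ((meas_ix k).comp measurable_re).prodMk ((meas_ix k).comp measurable_im)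
  set u : ℂ → ℝ≥0∞ := fun x => c (Q x) * v (Q x) x with hu
  have mu : Measurable u := (measurable_from_prod_countable_left
    (f := fun p : ℂ × ℤ × ℤ => c p.2 * v p.2 p.1) fun q => (hv q).meas.const_mul (c q)).comp
    (measurable_id.prodMk mQ)
  have e1 : ∀ q A, MeasurableSet A → A ⊆ dQ k q → ∫⁻ x in A, u x = c q * ∫⁻ x in A, v q x :=
    fun q A hA hs => by
      rw [← lintegral_const_mul _ (hv q).meas]
      exact setLIntegral_congr_fun hA fun x hx => by rw [← show Q x = q from hs hx]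
  have e2 : ∀ q, ∫⁻ x in dQ k q, u x = a q := fun q => by
    rw [e1 q _ (meas_dQ k q) subset_rfl]
    exact ENNReal.div_mul_cancel' (fun e => le_zero_iff.1 (e ▸ hab q)) fun e =>
      absurd e (ne_top_of_le_ne_top ENNReal.ofReal_ne_top ((hv q).adm k le_rfl q))
  have sub : {x | 1 / ((n : ℝ) + 1) / 2 ≤ infDist x Ωᶜ} ⊆ Ω := fun x hx => not_not.1 fun hx' =>
    hη.not_ge (le_trans hx (infDist_zero_of_mem hx').le)
  have cl : closure (O ∩ {x | 1 / ((n : ℝ) + 1) / 2 < infDist x Ωᶜ}) ⊆ Ω :=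
    (closure_minimal (fun x hx => le_of_lt hx.2)
      (isClosed_le continuous_const (continuous_infDist_pt _))).trans sub
  refine ⟨u, _, ⟨hO.inter (isOpen_lt continuous_const (continuous_infDist_pt _)),
    h.bd.subset (subset_closure.trans cl), ⟨mu, fun x hx => ?_, fun m hm q => ?_⟩, ?_⟩, cl,
    inter_subset_left⟩
  · obtain ⟨h1, h2⟩ := mul_ne_zero_iff.1 hx
    refine ⟨(hv _).supp x h2, ?_⟩
    by_contra h3
    refine h1 (ENNReal.div_eq_zero_iff.2 (.inl ?_))
    refine (setLIntegral_congr_fun (meas_dQ k _) (g := fun _ => 0) fun y hy => not_not.1 fun h4 =>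
      h3 ?_).trans lintegral_zero
    have h5 := dQ_dist hy (show x ∈ dQ k (Q x) from rfl)
    have h6 := infDist_le_infDist_add_dist (s := Ωᶜ) (x := y) (y := x)
    rw [dist_eq_norm] at h6
    exact show _ < infDist x Ωᶜ by linarith [su y h4]
  · rcases le_total k m with hkm | hkm
    · obtain ⟨z, hz, -⟩ := dQ_ball m q
      rw [e1 (Q z) _ (meas_dQ m q) (dQ_nest hkm ⟨z, hz, rfl⟩)]
      exact (mul_le_of_le_one_left' (hc1 _)).trans ((hv _).adm m hkm q)
    · refine le_trans (le_of_eq ?_) ((lintegral_mono le1).trans (h.wt.adm m hm q))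
      rw [dQ_sum k, dQ_sum k _ w₁]
      refine tsum_congr fun p => ?_
      rcases (dQ k p ∩ dQ m q).eq_empty_or_nonempty with e | e
      · simp [e]
      · rw [inter_eq_left.2 (dQ_nest hkm e), e2]
  · refine ma.trans_eq ?_
    rw [← setLIntegral_univ, ← setLIntegral_univ u, dQ_sum k, dQ_sum k _ u]
    simp only [inter_univ, e2, ha]

theorem Big_ball (h : Wt G l Ω w) {n : ℕ} (hn : l ≤ n) (x : ℂ) :
    ∫⁻ y in ball x (2 / 2 ^ n), w y ≤ 25 * ENNReal.ofReal (G n / 4 ^ n) := by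
  obtain ⟨s, h1, h2⟩ := dQ_cover n x
  refine (lintegral_mono_set h2).trans ?_
  rw [← Finset.set_biUnion_coe, biUnion_eq_iUnion]
  refine (lintegral_iUnion_le _ _).trans ?_
  refine (ENNReal.tsum_le_tsum fun q => h.adm n hn _).trans (le_of_eq ?_)
  simp [h1]

theorem haus_ge {g : ℝ → ℝ} (h0 : Tendsto (fun n => G n / 4 ^ n) atTop (𝓝 0)) (hp : ∀ n, 0 ≤ G n)
    (hg : ∀ n, l ≤ n → ∀ d ∈ Ioc (0 : ℝ) (1 / 2 ^ n), G n ≤ g d) (h : St G l m₀ w Ω)
    {O : ℕ → Set ℂ} (hO : ∀ i, IsOpen (O i) ∧ PX G (O i)) : m₀ ≤ 100 * haus g ((⋂ i, O i) ∩ Ω) := by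
  classical
  choose! F1 F2 hF using fun (i : ℕ) (p : (ℂ → ℝ≥0∞) × Set ℂ) (hp : St G l m₀ p.1 p.2) =>
    step hp (hO i).1 (hO i).2
  let s : ℕ → (ℂ → ℝ≥0∞) × Set ℂ := fun i => i.rec (w, Ω) fun i p => (F1 i p, F2 i p)
  have hs : ∀ i, St G l m₀ (s i).1 (s i).2 := fun i => i.rec h fun i ih => (hF i _ ih).1
  have h1 : ∀ i, closure (s (i + 1)).2 ⊆ (s i).2 := fun i => (hF i _ (hs i)).2.1
  have h2 : ∀ i, (s (i + 1)).2 ⊆ O i := fun i => (hF i _ (hs i)).2.2
  let μ : OuterMeasure ℂ := OuterMeasure.ofFunction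
    (fun U => if IsOpen U then ⨆ i, ∫⁻ x in U, (s i).1 x else ⊤) (by simp)
  have lo : m₀ ≤ μ ((⋂ i, O i) ∩ Ω) := by
    rw [OuterMeasure.ofFunction_apply]
    refine le_iInf₂ fun t ht => ?_
    by_cases ho : ∀ n, IsOpen (t n)
    · obtain ⟨i, hi⟩ := exists_subset_nhds_of_isCompact' (V := fun i => closure (s (i + 1)).2)
        (U := ⋃ n, t n) (antitone_nat_of_succ_le fun i => (h1 _).trans subset_closure).directed_ge
        (fun i => (hs (i + 1)).bd.isCompact_closure) (fun i => isClosed_closure) fun x hx =>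
        (isOpen_iUnion ho).mem_nhds (ht ⟨mem_iInter.2 fun i => h2 i (h1 _ (mem_iInter.1 hx (i + 1))),
          h1 0 (mem_iInter.1 hx 0)⟩)
      refine (hs (i + 1)).mass.le.trans ?_
      rw [← setLIntegral_eq_of_support_subset fun x hx =>
        hi (subset_closure ((hs (i + 1)).wt.supp x hx))]
      refine (lintegral_iUnion_le _ _).trans (ENNReal.tsum_le_tsum fun n => ?_)
      rw [if_pos (ho n)]
      exact le_iSup (fun i => ∫⁻ x in t n, (s i).1 x) (i + 1)
    · obtain ⟨n, hn⟩ := not_forall.1 ho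
      refine le_trans ?_ (ENNReal.le_tsum n)
      rw [if_neg hn]
      exact le_top
  have up : ∀ n, l ≤ n → ∀ x, μ (ball x (2 / 2 ^ n)) ≤ 25 * ENNReal.ofReal (G n / 4 ^ n) :=
    fun n hn x => (OuterMeasure.ofFunction_le _).trans (by
      rw [if_pos isOpen_ball]
      exact iSup_le fun i => Big_ball (hs i).wt hn x)
  have h3 : μ ≤ OuterMeasure.mkMetric ((100 : ℝ≥0∞) •
      fun d : ENNReal => ENNReal.ofReal (d.toReal ^ 2 * g d.toReal)) := by
    refine OuterMeasure.le_mkMetric _ μ (ENNReal.ofReal ((1 / 2) ^ l))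
      (ENNReal.ofReal_pos.2 (by positivity)) fun A hA => ?_
    rcases A.eq_empty_or_nonempty with rfl | ⟨p, hp'⟩
    · simp
    have h4 : ediam A ≠ ⊤ := ne_top_of_le_ne_top ENNReal.ofReal_ne_top hA
    have h5 : (ediam A).toReal ≤ (1 / 2) ^ l := ENNReal.toReal_le_of_le_ofReal (by positivity) hA
    have h6 : ∀ n, l ≤ n → (ediam A).toReal ≤ (1 / 2) ^ n →
        μ A ≤ 25 * ENNReal.ofReal (G n / 4 ^ n) := fun n hn hd => by
      refine (measure_mono fun y hy => ?_).trans (up n hn p)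
      refine ((dist_le_diam_of_mem' h4 hy hp').trans hd).trans_lt ?_
      rw [one_div_pow]
      gcongr
      exact one_lt_two
    rw [Pi.smul_apply, smul_eq_mul]
    generalize (ediam A).toReal = d at h5 h6 ⊢
    rcases le_or_gt d 0 with hd | hd
    · have := ENNReal.Tendsto.const_mul (a := 25) (ENNReal.tendsto_ofReal h0) (by simp)
      refine (ge_of_tendsto this ?_).trans (by simp)
      filter_upwards [eventually_ge_atTop l] with n hn using h6 n hn (hd.trans (by positivity))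
    · obtain ⟨n, n1, n2⟩ := exists_nat_pow_near_of_lt_one hd
        (h5.trans (pow_le_one₀ (by norm_num) (by norm_num))) one_half_pos one_half_lt_one
      have hn : l ≤ n := Nat.lt_succ_iff.1
        ((pow_lt_pow_iff_right_of_lt_one₀ one_half_pos one_half_lt_one).1 (n1.trans_le h5))
      refine (h6 n hn n2).trans ?_
      rw [show (100 : ℝ≥0∞) = 25 * ENNReal.ofReal 4 by norm_num, mul_assoc,
        ← ENNReal.ofReal_mul zero_le_four]
      refine mul_le_mul_right (ENNReal.ofReal_le_ofReal ?_) _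
      have h7 := hg n hn d ⟨hd, one_div_pow (2 : ℝ) n ▸ n2⟩
      have h8 : (1 : ℝ) / 4 ^ n ≤ 4 * d ^ 2 := by
        have := pow_le_pow_left₀ (by positivity) n1.le 2
        rw [← pow_mul, mul_comm, pow_mul, pow_succ, show ((1 : ℝ) / 2) ^ 2 = 1 / 4 by norm_num,
          one_div_pow] at this
        linarith
      rw [← mul_assoc, div_eq_mul_one_div, mul_comm]
      exact mul_le_mul h8 h7 (hp n) (by positivity)
  rw [OuterMeasure.mkMetric_smul _ (by simp) (by simp)] at h3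
  have h4 := h3 ((⋂ i, O i) ∩ Ω)
  rw [smul_apply, OuterMeasure.coe_mkMetric, smul_eq_mul] at h4
  exact lo.trans h4

theorem big {g : ℝ → ℝ} (hm : Monotone G) (ht : Tendsto G atTop atTop)
    (h0 : Tendsto (fun n => G n / 4 ^ n) atTop (𝓝 0)) (hp : ∀ n, 0 ≤ G n)
    (hg : ∀ n, l ≤ n → ∀ d ∈ Ioc (0 : ℝ) (1 / 2 ^ n), G n ≤ g d)
    {O : ℕ → Set ℂ} (hO : ∀ i, IsOpen (O i) ∧ PX G (O i)) {U : Set ℂ} (hU : IsOpen U)
    (hne : U.Nonempty) : haus g ((⋂ i, O i) ∩ U) = ⊤ := by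
  obtain ⟨u, hu⟩ := hne
  obtain ⟨ρ, hρ, hb⟩ := Metric.isOpen_iff.1 hU u hu
  obtain ⟨k, hk⟩ := (Big_small hρ).exists
  by_contra hne
  have h1 : 100 * haus g ((⋂ i, O i) ∩ U) ≠ ⊤ := ENNReal.mul_ne_top (by simp) hne
  obtain ⟨n, n1, n2⟩ := ((eventually_ge_atTop l).and ((ht.atTop_mul_const
    (by positivity : (0 : ℝ) < 1 / 4 ^ k)).eventually_gt_atTop (ENNReal.toReal _))).exists
  have h2 := meas_dQ k (ix k u.re, ix k u.im)
  obtain ⟨m, m1, m2⟩ := exists_between ((ENNReal.lt_ofReal_iff_toReal_lt h1).2 n2)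
  refine m1.not_ge ((haus_ge (l := n) (Ω := ball u ρ)
    (w := (dQ k (ix k u.re, ix k u.im)).indicator fun _ => ENNReal.ofReal (G n)) h0 hp
    (fun j hj => hg j (n1.trans hj)) ⟨isOpen_ball, isBounded_ball,
      ⟨measurable_const.indicator h2, fun x hx => ?_, fun j hj q => ?_⟩, ?_⟩ hO).trans
    (mul_le_mul_right (measure_mono (inter_subset_inter_right _ hb)) _))
  · exact mem_ball_iff_norm.2 ((dQ_dist (mem_of_indicator_ne_zero hx) rfl).trans_lt hk)
  · refine (lintegral_mono (indicator_le_self _ _)).trans ?_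
    rw [setLIntegral_const, vol_dQ, ← ENNReal.ofReal_mul (hp n), mul_one_div]
    exact ENNReal.ofReal_le_ofReal (div_le_div_of_nonneg_right (hm hj) (by positivity))
  · rwa [lintegral_indicator_const h2, vol_dQ, ← ENNReal.ofReal_mul (hp n)]

end Pool.Agent.Work.MP_31144c_an.G
end

-- merged part: Box
section
/-! Occupation of Whitney boxes and the Carleson bound (step 2 of the paper).
PLAN. `bm_em`: `F ∘ mv` is bounded on the compact set `(Icc ×ˢ Icc) ×ˢ closedBall 0 1` (`IsCompact.exists_bound_of_continuousOn`), `pot_abs`, `occ_eq`,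
`lintegral_lintegral_swap`. `dens_zero`: `nn_zero`, `box_mem`, `ix_dist`; `|re w - t| ≤ 2 δ y`, `(1 - δ) y ≤ im w ≤ (1 + δ) y`. `rel`: `V = (pot A - c pot B) ∘ F`,
`ψ = bm δ (av δ V - V)`, `Tr_bm`, `flux`, `vol_box`. `carl`: `cut Act m_A = cut Act ψ + c cut Act m_B`, `Tr_add`, `Tr_stop`, `Tr_eq`, `vol_dI`. -/

namespace Pool.Agent.Work.MP_31144c_an.G

open Set Filter Topology MeasureTheory Complex Metric
open scoped ENNReal

variable {A B : Set ℂ} {F : ℂ → ℂ} {δ : ℝ}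

theorem meas_nn (h : An F δ) : Measurable fun q : ℂ × ℂ => nn F δ q.1 q.2 := by
  have hF := h.meas
  have h1 : Measurable fun r : (ℂ × ℂ) × ℂ => Real.log ‖F (mv δ r.1.1 r.2) - r.1.2‖ := by
    unfold mv; fun_prop
  exact (h1.stronglyMeasurable.integral_prod_right'.measurable.sub (by fun_prop)).ennreal_ofReal

theorem meas_em (h : An F δ) (A : Set ℂ) : Measurable (em F δ A) := by
  exact (meas_av δ ((meas_pot A).comp h.meas)).sub ((meas_pot A).comp h.meas)

theorem Box_meas (h : An F δ) : Measurable fun r : (ℝ × ℝ) × ℂ => nn F δ (pt r.1) r.2 := by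
  have := (meas_nn h).comp ((cont_pt.measurable.comp measurable_fst).prodMk measurable_snd)
  simpa only [Function.comp_def] using this

theorem meas_dens (h : An F δ) (k : ℕ) (j : ℤ) : Measurable (dens F δ k j) := by
  exact (Box_meas h).lintegral_prod_left'.const_mul _

theorem Box_near (h : An F δ) {p : ℝ × ℝ} {w : ℂ} (hw : w ∈ closedBall (pt p) (δ * (pt p).im)) :
    |w.re - p.2| ≤ δ * Real.exp p.1 ∧ Real.exp p.1 / 2 ≤ w.im ∧ w.im ≤ 3 / 2 * Real.exp p.1 := by
  rw [mem_closedBall, dist_eq_norm] at hw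
  have h1 := (abs_re_le_norm _).trans hw
  have h2 := abs_le.1 ((abs_im_le_norm _).trans hw)
  have h3 := mul_le_mul_of_nonneg_right h.le (Real.exp_pos p.1).le
  simp only [pt, sub_re, sub_im] at h1 h2
  exact ⟨h1, by linarith [h2.1], by linarith [h2.2]⟩

theorem Box_mv (h : An F δ) (p : ℝ × ℝ) {ω : ℂ} (hω : ‖ω‖ < 1) :
    mv δ (pt p) ω ∈ closedBall (pt p) (δ * (pt p).im) := by
  have := mul_pos h.pos (pt_im p)
  rw [mem_closedBall, dist_eq_norm, mv, add_sub_cancel_left, norm_smul, Real.norm_of_nonneg this.le]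
  nlinarith

theorem Box_bd (h : An F δ) (k : ℕ) (j : ℤ) : ∃ R : ℝ, ∀ p ∈ box δ 1 k j,
    ∀ w ∈ closedBall (pt p) (δ * (pt p).im), ‖F w‖ ≤ R := by
  have ha : 0 < 1 / (δ * 2 ^ k) := by have := h.pos; positivity
  have hK : IsCompact (closedBall (0 : ℂ) (|(j : ℝ) / 2 ^ k| + 1 + 4 * (1 / (δ * 2 ^ k))) ∩
      {w | 1 / (δ * 2 ^ k) / 2 ≤ w.im}) :=
    (isCompact_closedBall _ _).inter_right (isClosed_le continuous_const continuous_im)
  obtain ⟨R, hR⟩ := hK.exists_bound_of_continuousOn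
    (h.diff.continuousOn.mono fun w hw => lt_of_lt_of_le (half_pos ha) hw.2)
  refine ⟨R, fun p hp w hw => hR w ?_⟩
  obtain ⟨h1, h2, h3⟩ := box_mem h.pos hp
  obtain ⟨h4, h5, h6⟩ := Box_near h hw
  have h7 : p.2 ∈ dI k j := h3
  rw [dI_eq, add_div] at h7
  have h8 : (1 : ℝ) / 2 ^ k ≤ 1 := by
    rw [div_le_one (by positivity)]; exact one_le_pow₀ one_le_two
  have h9 := mul_le_mul_of_nonneg_right h.le (Real.exp_pos p.1).le
  have h10 : 2 / (δ * 2 ^ k) = 2 * (1 / (δ * 2 ^ k)) := by ring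
  have h11 := Real.exp_pos p.1
  refine ⟨mem_closedBall_zero_iff.2 ((norm_le_abs_re_add_abs_im w).trans ?_), by
    show _ ≤ w.im; linarith⟩
  have := abs_le.1 h4
  have := le_abs_self ((j : ℝ) / 2 ^ k)
  have := neg_abs_le ((j : ℝ) / 2 ^ k)
  have : |w.re| ≤ |(j : ℝ) / 2 ^ k| + 1 + 1 / (δ * 2 ^ k) :=
    abs_le.2 ⟨by linarith [h7.1], by linarith [h7.2]⟩
  rw [abs_of_nonneg (by linarith : 0 ≤ w.im)]
  linarith

theorem Box_fin (h0 : 0 < δ) (d k : ℕ) (j : ℤ) : volume (box δ d k j) < ⊤ :=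
  (vol_box h0 d k j).trans_lt ENNReal.ofReal_lt_top

theorem bm_em (h : An F δ) (hA : MeasurableSet A) (hb : Bornology.IsBounded A) (k : ℕ) (j : ℤ) :
    IntegrableOn (fun p => em F δ A (pt p)) (box δ 1 k j) ∧ 0 ≤ bm δ (em F δ A) k j ∧
      ∫⁻ a in A, dens F δ k j a = ENNReal.ofReal (bm δ (em F δ A) k j) := by
  obtain ⟨R, hR⟩ := Box_bd h k j
  obtain ⟨M, hM⟩ := pot_abs hA hb R
  have h0 : ∀ p, 0 ≤ em F δ A (pt p) := fun p => (occ_eq h hA hb (pt_im p)).2.1
  have hi : IntegrableOn (fun p => em F δ A (pt p)) (box δ 1 k j) := by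
    refine Measure.integrableOn_of_bounded (M := M + M) (Box_fin h.pos 1 k j).ne
      ((meas_em h A).comp cont_pt.measurable).aestronglyMeasurable
      (ae_restrict_of_forall_mem (meas_box δ 1 k j) fun p hp => (norm_sub_le _ _).trans ?_)
    refine add_le_add ?_ (hM _ (hR p hp _ (mem_closedBall_self (mul_pos h.pos (pt_im p)).le))).1
    exact (norm_integral_le_of_norm_le_const (μ := dsk) (C := M)
      (ae_dsk.mono fun ω hω => (hM _ (hR p hp _ (Box_mv h p hω))).1)).trans_eq (by simp)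
  refine ⟨hi, mul_nonneg (by positivity) (integral_nonneg h0), ?_⟩
  unfold dens bm
  rw [lintegral_const_mul' _ _ (by simp),
    ← lintegral_lintegral_swap (f := fun p a => nn F δ (pt p) a) (Box_meas h).aemeasurable,
    ENNReal.ofReal_mul (by positivity), ofReal_integral_eq_lintegral_ofReal hi (ae_of_all _ h0),
    ENNReal.ofReal_pow zero_le_two, ENNReal.ofReal_ofNat]
  simp only [fun p => (occ_eq h hA hb (pt_im p)).2.2]

theorem dens_zero (h : An F δ) {k : ℕ} {t η : ℝ} (hη : 3 / (δ * 2 ^ k) ≤ η) {a : ℂ}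
    (ha : a ∉ F '' cone t (1 + 5 * δ) η) : dens F δ k (ix k t) a = 0 := by
  unfold dens
  rw [setLIntegral_congr_fun (g := fun _ => 0) (meas_box _ _ _ _) fun p hp =>
    nn_zero h (pt_im p) fun w hw e => ha ⟨w, ?_, e⟩]
  · simp
  obtain ⟨h1, h2, h3⟩ := box_mem h.pos hp
  obtain ⟨h4, h5, h6⟩ := Box_near h hw
  have h7 := abs_lt.1 (ix_dist h3)
  have h0 := h.pos
  have h8 : (1 : ℝ) / 2 ^ k ≤ δ * Real.exp p.1 := by
    rw [div_le_iff₀ (by positivity)] at h1 ⊢; linarith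
  have h9 := Real.exp_pos p.1
  have h10 : 3 / (δ * 2 ^ k) = 3 / 2 * (2 / (δ * 2 ^ k)) := by ring
  refine ⟨(norm_le_abs_re_add_abs_im _).trans_lt ?_, by linarith⟩
  have := abs_le.1 h4
  have h11 : |(w - t).re| < 2 * (δ * Real.exp p.1) := by
    simp only [sub_re, ofReal_re]
    exact abs_lt.2 ⟨by linarith [h7.1], by linarith [h7.2]⟩
  have h12 : |(w - t).im| = w.im := by
    simp only [sub_im, ofReal_im, sub_zero]; exact abs_of_nonneg (by linarith)
  nlinarith

theorem rel (h : An F δ) (hA : MeasurableSet A) (hb : Bornology.IsBounded A) (hB : MeasurableSet B)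
    (hb' : Bornology.IsBounded B) {c β : ℝ} (hu : ∀ w, |pot A w - c * pot B w| ≤ β) :
    ∃ ψ : ℕ → ℤ → ℝ, (∀ k j, bm δ (em F δ A) k j = ψ k j + c * bm δ (em F δ B) k j) ∧
      (∀ k j, |ψ k j| ≤ 2 * β) ∧ ∀ d k j, |Tr ψ d k j| ≤ 20 * β / 2 ^ k := by
  have hV : Measurable fun w => pot A (F w) - c * pot B (F w) :=
    ((meas_pot A).comp h.meas).sub (((meas_pot B).comp h.meas).const_mul c)
  set V := fun w => pot A (F w) - c * pot B (F w)
  have hb2 : ∀ z, |av δ V z - V z| ≤ 2 * β := fun z => by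
    have := norm_integral_le_of_norm_le_const (μ := dsk) (C := β) (f := fun ω => V (mv δ z ω))
      (ae_of_all _ fun ω => hu _)
    simp only [probReal_univ, mul_one, Real.norm_eq_abs] at this
    linarith [abs_sub (av δ V z) (V z), hu (F z), show |av δ V z| ≤ β from this]
  refine ⟨bm δ fun z => av δ V z - V z, fun k j => ?_, fun k j => ?_, fun d k j => ?_⟩
  · have he : ∀ p, av δ V (pt p) - V (pt p) = em F δ A (pt p) - c * em F δ B (pt p) := fun p => by
      simp only [em, av, V]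
      rw [integral_sub (occ_eq h hA hb (pt_im p)).1 ((occ_eq h hB hb' (pt_im p)).1.const_mul c),
        integral_const_mul]
      ring
    simp only [bm, he]
    rw [integral_sub (bm_em h hA hb k j).1 ((bm_em h hB hb' k j).1.const_mul c), integral_const_mul]
    ring
  · have h1 := norm_setIntegral_le_of_norm_le_const (f := fun p => av δ V (pt p) - V (pt p))
      (Box_fin h.pos 1 k j) fun p _ => hb2 (pt p)
    have h2 : volume.real (box δ 1 k j) ≤ 1 / 2 ^ k := by
      simpa [Measure.real] using ENNReal.toReal_le_of_le_ofReal (by positivity) (vol_box h.pos 1 k j)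
    have h3 : 0 ≤ 2 * β := (abs_nonneg _).trans (hb2 0)
    rw [bm, abs_mul, abs_of_pos (by positivity : (0 : ℝ) < 2 ^ k), ← le_div_iff₀' (by positivity)]
    exact h1.trans ((mul_le_mul_of_nonneg_left h2 h3).trans_eq (by ring))
  · rw [Tr_bm (φ := fun z => av δ V z - V z) h.pos ((meas_av δ hV).sub hV) hb2]
    exact flux h.pos h.le hV (fun w => hu _) d k j

theorem carl (h : An F δ) (hA : MeasurableSet A) (hb : Bornology.IsBounded A) (hB : MeasurableSet B)
    (hb' : Bornology.IsBounded B) {c β N : ℝ} (hc : 0 ≤ c) (hu : ∀ w, |pot A w - c * pot B w| ≤ β)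
    {Act : ℕ → ℤ → Prop} (hA' : Her Act) (d k : ℕ) (j : ℤ)
    (hN : ∀ t, Sm (cut Act (bm δ (em F δ B))) k d t ≤ N) :
    Tr (cut Act (bm δ (em F δ A))) d k j ≤ (40 * β + c * N) / 2 ^ k := by
  obtain ⟨ψ, h1, -, h2⟩ := rel h hA hb hB hb' hu
  have h3 : cut Act (bm δ (em F δ A)) =
      fun k j => cut Act ψ k j + c * cut Act (bm δ (em F δ B)) k j := by
    funext k j; unfold cut; split_ifs <;> simp [h1]
  have h4 : ∀ k j, 0 ≤ cut Act (bm δ (em F δ B)) k j := fun k j => by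
    unfold cut; split_ifs; exacts [(bm_em h hB hb' k j).2.1, le_rfl]
  have h5 : 0 ≤ N := (Finset.sum_nonneg fun _ _ => h4 _ _).trans (hN 0)
  have h6 : Tr (cut Act (bm δ (em F δ B))) d k j ≤ N * (1 / 2 ^ k) := by
    rw [← ENNReal.ofReal_le_ofReal_iff (by positivity), ← Tr_eq h4, ENNReal.ofReal_mul h5, ← vol_dI k j,
      ← setLIntegral_const]
    exact lintegral_mono fun t => ENNReal.ofReal_le_ofReal (hN t)
  rw [h3, Tr_add]
  refine (add_le_add (Tr_stop hA' h2 d k j) (mul_le_mul_of_nonneg_left h6 hc)).trans_eq (by ring)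

end Pool.Agent.Work.MP_31144c_an.G
end

-- merged part: Green
section
/-! A function with a finite discrete potential is bounded on cones (step 3 of the paper).
PLAN. `gr_two`: `2 log ‖(z - conj ζ) / (z - ζ)‖ = log (A / B)`, `A = normSq (z - conj ζ) = B + 4 y η`, `Real.log_le_sub_one_of_pos`, `Real.one_sub_inv_le_log_of_pos`.
`gr_le`: off the cut `‖z - t‖ ≤ ‖z - ζ‖ + 2 η ≤ 9 ‖z - ζ‖ / δ` for `|t - ξ| ≤ η`, `pk z t = y / (π ‖z - t‖ ^ 2)`. `fam`: `minp` with step `δ / 8`,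
`a = indicator {Bar < 1} (64 e)`, `h = lam / 4 * (δ ^ 2 / 324 * ∑ gr - Bar)`, `mean_harm`, `pt_T`. `ubdd`: `fin_W`, `Measure.dense_of_ae`, `bar_tendsto`,
`Vitali.exists_disjoint_subfamily_covering_enlargement_closedBall` (radii `2 η`, `τ = 5`), `null_of_dens`. -/

namespace Pool.Agent.Work.MP_31144c_an.G

open Set Filter Topology MeasureTheory Complex Metric
open scoped ENNReal

variable {δ : ℝ} {z ζ : ℂ}

theorem gr_two (hz : 0 < z.im) (hζ : 0 < ζ.im) (hne : z ≠ ζ) :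
    2 * z.im * ζ.im / ((z.re - ζ.re) ^ 2 + (z.im + ζ.im) ^ 2) ≤
        Real.log ‖(z - (starRingEnd ℂ) ζ) / (z - ζ)‖ ∧
      Real.log ‖(z - (starRingEnd ℂ) ζ) / (z - ζ)‖ ≤ 2 * z.im * ζ.im / ‖z - ζ‖ ^ 2 := by
  have hB : 0 < ‖z - ζ‖ ^ 2 := pow_pos (norm_pos_iff.2 (sub_ne_zero.2 hne)) 2
  have eA : ‖z - (starRingEnd ℂ) ζ‖ ^ 2 = (z.re - ζ.re) ^ 2 + (z.im + ζ.im) ^ 2 := by
    rw [Complex.sq_norm, normSq_apply]; simp; ring
  have eB : ‖z - ζ‖ ^ 2 = (z.re - ζ.re) ^ 2 + (z.im - ζ.im) ^ 2 := by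
    rw [Complex.sq_norm, normSq_apply]; simp; ring
  have hA : 0 < ‖z - (starRingEnd ℂ) ζ‖ ^ 2 := by rw [eA]; positivity
  have e : Real.log (‖z - (starRingEnd ℂ) ζ‖ ^ 2 / ‖z - ζ‖ ^ 2) =
      2 * Real.log ‖(z - (starRingEnd ℂ) ζ) / (z - ζ)‖ := by
    rw [norm_div, ← div_pow, Real.log_pow, Nat.cast_ofNat]
  have h1 := Real.log_le_sub_one_of_pos (div_pos hA hB)
  have h2 := Real.one_sub_inv_le_log_of_pos (div_pos hA hB)
  have e3 : ‖z - (starRingEnd ℂ) ζ‖ ^ 2 = ‖z - ζ‖ ^ 2 + 4 * z.im * ζ.im := by rw [eA, eB]; ring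
  rw [e] at h1 h2
  rw [← eA]
  generalize ‖z - (starRingEnd ℂ) ζ‖ ^ 2 = A at *
  generalize ‖z - ζ‖ ^ 2 = B at *
  have a1 : 1 - (A / B)⁻¹ = 2 * (2 * z.im * ζ.im / A) := by
    rw [inv_div]; field_simp; linarith
  have a2 : A / B - 1 = 2 * (2 * z.im * ζ.im / B) := by
    field_simp; linarith
  constructor <;> linarith

theorem gr_le (h0 : 0 < δ) (h1 : δ ≤ 1 / 2) (hz : 0 < z.im) (hζ : 0 < ζ.im) :
    gr δ ζ z ≤ 324 / δ ^ 2 * ∫ t in closedBall ζ.re ζ.im, pk z t := by
  have hi : 0 ≤ ∫ t in closedBall ζ.re ζ.im, pk z t := integral_nonneg fun t => pk_nonneg hz.le t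
  unfold gr
  split_ifs with h
  · positivity
  have h := not_le.1 h
  have hN : 0 < ‖z - ζ‖ := lt_trans (by positivity) h
  refine (gr_two hz hζ (sub_ne_zero.1 (norm_pos_iff.1 hN))).2.trans ?_
  have key := setIntegral_ge_of_const_le_real (μ := volume) (f := pk z)
    (c := z.im / (4 * (9 * ‖z - ζ‖ / δ) ^ 2)) (s := closedBall ζ.re ζ.im) measurableSet_closedBall
    measure_closedBall_lt_top.ne (fun t ht => ?_) (integrable_pk hz).integrableOn
  · rw [Real.volume_real_closedBall hζ.le] at key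
    refine le_trans (le_of_eq ?_) (mul_le_mul_of_nonneg_left key (by positivity))
    field_simp
    ring
  · have e : (t - z.re) ^ 2 + z.im ^ 2 = ‖z - t‖ ^ 2 := by
      rw [Complex.sq_norm, normSq_apply]; simp; ring
    have a1 : ‖ζ - t‖ ≤ 2 * ζ.im := by
      have := norm_le_abs_re_add_abs_im (ζ - t)
      rw [sub_re, sub_im, ofReal_re, ofReal_im, sub_zero, abs_of_pos hζ, abs_sub_comm] at this
      have h3 : |t - ζ.re| ≤ ζ.im := ht
      linarith
    have a2 : ‖z - t‖ ≤ ‖z - ζ‖ + ‖ζ - t‖ := norm_sub_le_norm_sub_add_norm_sub _ _ _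
    have a3 : ‖z - t‖ ≤ 9 * ‖z - ζ‖ / δ := by
      rw [le_div_iff₀ h0]
      have := mul_le_mul_of_nonneg_right (a2.trans (add_le_add le_rfl a1)) h0.le
      have := mul_le_mul_of_nonneg_left h1 hN.le
      linarith
    rw [pk, e]
    have a4 : 0 < ‖z - t‖ ^ 2 := by rw [← e]; positivity
    exact div_le_div_of_nonneg_left hz.le (by positivity)
      (mul_le_mul Real.pi_le_four (pow_le_pow_left₀ (norm_nonneg _) a3 2) a4.le (by norm_num))

theorem gr_le' (h0 : 0 < δ) (hz : 0 < z.im) (hζ : 0 < ζ.im) :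
    gr δ ζ z ≤ 32 / (δ ^ 2 * ζ.im) * z.im := by
  unfold gr
  split_ifs with h
  · positivity
  have h := not_le.1 h
  have h2 : 0 < δ * ζ.im / 4 := by positivity
  refine (gr_two hz hζ (sub_ne_zero.1 (norm_pos_iff.1 (h2.trans h)))).2.trans ?_
  refine (div_le_div_of_nonneg_left (by positivity) (pow_pos h2 2)
    (pow_le_pow_left₀ h2.le h.le 2)).trans (le_of_eq ?_)
  field_simp
  ring

theorem gr_ge (h0 : 0 < δ) (h1 : δ ≤ 1 / 2) (hζ : 0 < ζ.im) (h2 : ζ.im ≤ z.im / 2)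
    (h3 : |ζ.re - z.re| ≤ 4 * z.im) : ζ.im / (10 * z.im) ≤ gr δ ζ z := by
  have hz : 0 < z.im := by linarith
  have a1 : z.im - ζ.im ≤ ‖z - ζ‖ := (le_abs_self _).trans (abs_im_le_norm (z - ζ))
  have a2 := mul_le_mul_of_nonneg_right h1 hζ.le
  have h : ¬ ‖z - ζ‖ ≤ δ * ζ.im / 4 := by linarith
  rw [gr, if_neg h]
  refine le_trans ?_ (gr_two hz hζ (sub_ne_zero.1 (norm_pos_iff.1 (by linarith)))).1
  have a3 : (z.re - ζ.re) ^ 2 ≤ (4 * z.im) ^ 2 := by
    rw [abs_sub_comm] at h3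
    exact sq_le_sq' (abs_le.1 h3).1 (abs_le.1 h3).2
  have a4 : (z.im + ζ.im) ^ 2 ≤ (2 * z.im) ^ 2 := pow_le_pow_left₀ (by linarith) (by linarith) 2
  refine le_trans (le_of_eq ?_) (div_le_div_of_nonneg_left (by positivity) (by positivity)
    (add_le_add a3 a4))
  field_simp
  ring

theorem gr_harm (h0 : 0 < δ) (h1 : δ ≤ 1 / 2) (hz : 0 < z.im) (hζ : 0 < ζ.im)
    (h2 : δ * z.im / 2 < ‖ζ - z‖) : ∀ w ∈ closedBall z (δ / 8 * z.im), Harm (gr δ ζ) w := by
  intro w hw
  have a0 : ‖w - z‖ ≤ δ / 8 * z.im := mem_closedBall_iff_norm.1 hw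
  have a1 : ‖ζ - z‖ ≤ ‖w - ζ‖ + ‖w - z‖ := by
    rw [norm_sub_rev w ζ]; exact norm_sub_le_norm_sub_add_norm_sub _ _ _
  have a2 : ζ.im - z.im ≤ ‖ζ - z‖ := (le_abs_self _).trans (abs_im_le_norm (ζ - z))
  have a3 : -(w.im - z.im) ≤ ‖w - z‖ := (neg_le_abs _).trans (abs_im_le_norm (w - z))
  have a4 := mul_le_mul_of_nonneg_left a2 h0.le
  have a5 := mul_le_mul_of_nonneg_right h1 (norm_nonneg (ζ - z))
  have a6 := mul_le_mul_of_nonneg_right h1 hz.le
  have a7 := mul_pos h0 hζ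
  have h : δ * ζ.im / 4 < ‖w - ζ‖ := by linarith
  have n1 : w - ζ ≠ 0 := norm_pos_iff.1 (by linarith)
  have n2 : w - (starRingEnd ℂ) ζ ≠ 0 := fun e => by
    have := congrArg Complex.im e
    rw [sub_im, conj_im, zero_im] at this
    linarith
  refine (harm_log_norm (g := fun w => (w - (starRingEnd ℂ) ζ) / (w - ζ))
    ((analyticAt_id.sub analyticAt_const).div (analyticAt_id.sub analyticAt_const) n1)
    (div_ne_zero n2 n1)).congr ?_
  have c : ContinuousAt (fun w : ℂ => ‖w - ζ‖) w := by fun_prop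
  filter_upwards [c.eventually (lt_mem_nhds h)] with u hu
  rw [gr, if_neg (not_le.2 hu)]

theorem gr_sum (h0 : 0 < δ) (h1 : δ ≤ 1 / 2) (hz : 0 < z.im) {s : Finset ℂ} (hs : ∀ ζ ∈ s, 0 < ζ.im)
    (hd : (s : Set ℂ).PairwiseDisjoint fun ζ => closedBall ζ.re (2 * ζ.im)) :
    δ ^ 2 / 324 * ∑ ζ ∈ s, gr δ ζ z ≤ 1 := by
  have a := integral_biUnion_finset (μ := volume) (f := pk z) s
    (s := fun ζ : ℂ => closedBall ζ.re ζ.im) (fun _ _ => measurableSet_closedBall)
    (hd.mono_on fun ζ hζ => closedBall_subset_closedBall (by linarith [hs ζ hζ]))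
    fun _ _ => (integrable_pk hz).integrableOn
  have b := setIntegral_le_integral (s := ⋃ ζ ∈ s, closedBall ζ.re ζ.im) (integrable_pk hz)
    (ae_of_all _ (pk_nonneg hz.le))
  rw [a, integral_pk hz] at b
  refine le_trans ?_ b
  rw [Finset.mul_sum]
  refine Finset.sum_le_sum fun ζ hζ => ?_
  refine (mul_le_mul_of_nonneg_left (gr_le h0 h1 hz (hs ζ hζ)) (by positivity)).trans (le_of_eq ?_)
  field_simp

theorem harm_bar {E : Set ℝ} (hE : MeasurableSet E) (hf : volume E ≠ ⊤) (C h : ℝ) (hz : 0 < z.im) :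
    Harm (Bar E C h) z := by
  have hi : Integrable (E.indicator (1 : ℝ → ℝ)) :=
    (integrable_indicator_iff hE).2 (integrableOn_const hf)
  exact (((harm_const 1 z).sub (harm_Po hz hi)).div_const _).add
    ((harm_im analyticAt_id).div_const h)

/-- The hypotheses on `U` and its defect `e`. -/
structure Sub (δ : ℝ) (U e : ℂ → ℝ) : Prop where
  pos : 0 < δ
  le : δ ≤ 1 / 2
  mU : Measurable U
  me : Measurable e
  U0 : ∀ z, 0 ≤ U z
  e0 : ∀ z, 0 < z.im → 0 ≤ e z
  small : ∀ z, 0 < z.im →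
    ∫⁻ ω, ENNReal.ofReal (U (mv (δ / 8) z ω)) ∂dsk ≤ ENNReal.ofReal (U z + 64 * e z)
  near : ∀ z ζ, 0 < z.im → ‖ζ - z‖ ≤ δ * z.im / 2 → U ζ ≤ 4 * (U z + e z)

theorem Green_sum {s : Finset ℂ} {f : ℂ → ℂ → ℝ} (h : ∀ ζ ∈ s, Harm (f ζ) z) :
    Harm (fun w => ∑ ζ ∈ s, f ζ w) z := by
  induction s using Finset.induction_on with
  | empty => simpa using harm_const 0 z
  | insert a s ha ih =>
    simpa only [Finset.sum_insert ha] using (h a (Finset.mem_insert_self a s)).add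
      (ih fun ζ hζ => h ζ (Finset.mem_insert_of_mem hζ))

theorem Green_ofReal {X : Type} [MeasurableSpace X] (μ : Measure X) (f : X → ℝ) :
    ENNReal.ofReal (∫ x, f x ∂μ) ≤ ∫⁻ x, ENNReal.ofReal (f x) ∂μ := by
  by_cases h : Integrable f μ
  · rw [integral_eq_lintegral_pos_part_sub_lintegral_neg_part h]
    exact (ENNReal.ofReal_le_ofReal (sub_le_self _ ENNReal.toReal_nonneg)).trans
      ENNReal.ofReal_toReal_le
  · rw [integral_undef h, ENNReal.ofReal_zero]
    exact zero_le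

theorem Green_cont {E : Set ℝ} (hE : MeasurableSet E) (hf : volume E ≠ ⊤) (C h : ℝ) :
    Continuous fun p => Bar E C h (pt p) :=
  continuous_iff_continuousAt.2 fun p => ContinuousAt.comp (f := pt)
    (harm_bar hE hf C h (pt_im p)).continuousAt cont_pt.continuousAt

theorem Green_meas {U e : ℂ → ℝ} (h : Sub δ U e) {E : Set ℝ} (hE : MeasurableSet E)
    (hf : volume E ≠ ⊤) (η : ℝ) : Measurable ({p | Bar E (1 + δ / 8) η (pt p) < 1}.indicator
      fun p => ENNReal.ofReal (64 * e (pt p))) :=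
  ((h.me.comp cont_pt.measurable).const_mul 64).ennreal_ofReal.indicator
    (measurableSet_lt (Green_cont hE hf _ _).measurable measurable_const)

theorem fam {U e : ℂ → ℝ} (h : Sub δ U e) {E : Set ℝ} (hE : MeasurableSet E) (hf : volume E ≠ ⊤)
    {η lam : ℝ} (hη : 0 < η) (hl : 0 ≤ lam) {s : Finset ℂ} (hs : ∀ ζ ∈ s, 0 < ζ.im ∧ lam ≤ U ζ)
    (hd : (s : Set ℂ).PairwiseDisjoint fun ζ => closedBall ζ.re (2 * ζ.im)) (p : ℝ × ℝ) :
    ENNReal.ofReal (lam / 4 * (δ ^ 2 / 324 * ∑ ζ ∈ s, gr δ ζ (pt p) - Bar E (1 + δ / 8) η (pt p))) ≤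
      ENNReal.ofReal (U (pt p)) + ⨆ n, Wn (δ / 8) ({p | Bar E (1 + δ / 8) η (pt p) < 1}.indicator
        fun p => ENNReal.ofReal (64 * e (pt p))) n p := by
  have h0 := h.pos
  have h1 := h.le
  have hC : 1 < 1 + δ / 8 := by linarith
  have d0 : 0 < δ / 8 := by linarith
  have d1 : δ / 8 ≤ 1 / 2 := by linarith
  have hs0 : ∀ ζ ∈ s, 0 < ζ.im := fun ζ hζ => (hs ζ hζ).1
  have b1 : ∀ p, lam / 4 * (δ ^ 2 / 324 * ∑ ζ ∈ s, gr δ ζ (pt p) - Bar E (1 + δ / 8) η (pt p)) ≤
      lam / 4 * (1 - Bar E (1 + δ / 8) η (pt p)) := fun p =>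
    mul_le_mul_of_nonneg_left (sub_le_sub_right (gr_sum h0 h1 (pt_im p) hs0 hd) _) (by positivity)
  have b0 : ∀ p, 0 ≤ lam / 4 * Bar E (1 + δ / 8) η (pt p) := fun p =>
    mul_nonneg (by positivity) (Comp_bar_nonneg hE hC hη (pt_im p))
  have hK : 0 ≤ lam / 4 * (δ ^ 2 / 324 * ∑ ζ ∈ s, 32 / (δ ^ 2 * ζ.im)) :=
    mul_nonneg (by positivity) (mul_nonneg (by positivity)
      (Finset.sum_nonneg fun ζ hζ => by have := hs0 ζ hζ; positivity))
  refine minp (h := fun p =>
      lam / 4 * (δ ^ 2 / 324 * ∑ ζ ∈ s, gr δ ζ (pt p) - Bar E (1 + δ / 8) η (pt p)))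
    (U := fun p => U (pt p)) d0 d1 (Green_meas h hE hf η) (h.mU.comp cont_pt.measurable)
    (C := lam / 4 + lam / 4 * (δ ^ 2 / 324 * ∑ ζ ∈ s, 32 / (δ ^ 2 * ζ.im))) (fun p => ?_)
    (fun p => ?_) p
  · have e0 := Real.exp_pos (p.1 / 2)
    have c1 := b1 p
    have c0 := b0 p
    rcases le_total 0 p.1 with c | c
    · have c2 := mul_le_mul_of_nonneg_left (Real.one_le_exp (show 0 ≤ p.1 / 2 by linarith))
        (show 0 ≤ lam / 4 by positivity)
      have c3 := mul_nonneg hK e0.le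
      linarith
    · have c2 : ∑ ζ ∈ s, gr δ ζ (pt p) ≤ (∑ ζ ∈ s, 32 / (δ ^ 2 * ζ.im)) * Real.exp (p.1 / 2) := by
        rw [Finset.sum_mul]
        refine Finset.sum_le_sum fun ζ hζ => (gr_le' h0 (pt_im p) (hs0 ζ hζ)).trans ?_
        have := hs0 ζ hζ
        exact mul_le_mul_of_nonneg_left (Real.exp_le_exp.2 (by linarith)) (by positivity)
      have c3 := mul_le_mul_of_nonneg_left c2 (show 0 ≤ lam / 4 * (δ ^ 2 / 324) by positivity)
      have c4 := mul_nonneg (show 0 ≤ lam / 4 by positivity) e0.le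
      linarith
  have c1 := b1 p
  have c0 := b0 p
  by_cases hb : Bar E (1 + δ / 8) η (pt p) < 1
  swap
  · have c2 := mul_le_mul_of_nonneg_left (not_lt.1 hb) (show 0 ≤ lam / 4 by positivity)
    exact Or.inl ((ENNReal.ofReal_of_nonpos (by linarith)).trans_le zero_le)
  rw [indicator_of_mem (show p ∈ {p | Bar E (1 + δ / 8) η (pt p) < 1} from hb)]
  by_cases hn : ∃ ζ ∈ s, ‖ζ - pt p‖ ≤ δ * (pt p).im / 2
  · obtain ⟨ζ, hζ, hn⟩ := hn
    have c2 := h.near _ _ (pt_im p) hn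
    have c3 := h.e0 _ (pt_im p)
    have c4 := (hs ζ hζ).2
    exact Or.inl ((ENNReal.ofReal_le_ofReal (by linarith)).trans ENNReal.ofReal_add_le)
  have hT : ∀ᵐ ω ∂dsk, pt (Tm (δ / 8) ω p) = mv (δ / 8) (pt p) ω :=
    ae_dsk.mono fun ω hω => pt_T d0 d1 hω p
  refine Or.inr ⟨?_, ?_⟩
  · have m := mean_harm (u := fun w =>
        lam / 4 * (δ ^ 2 / 324 * ∑ ζ ∈ s, gr δ ζ w - Bar E (1 + δ / 8) η w))
      (mul_pos d0 (pt_im p)) (z := pt p) fun w hw => by
        have a0 : ‖w - pt p‖ ≤ δ / 8 * (pt p).im := mem_closedBall_iff_norm.1 hw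
        have a3 : -(w.im - (pt p).im) ≤ ‖w - pt p‖ := (neg_le_abs _).trans (abs_im_le_norm (w - pt p))
        have a6 := mul_le_mul_of_nonneg_right d1 (pt_im p).le
        have a7 := pt_im p
        exact (((Green_sum fun ζ hζ => gr_harm h0 h1 (pt_im p) (hs0 ζ hζ)
          (not_le.1 fun c => hn ⟨ζ, hζ, c⟩) w hw).const_mul _).sub
            (harm_bar hE hf _ _ (by linarith))).const_mul _
    rw [← m]
    refine (Green_ofReal _ _).trans (le_of_eq (lintegral_congr_ae (hT.mono fun ω hω => ?_)))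
    simp only [hω, mv]
  · refine le_trans (le_of_eq (lintegral_congr_ae (hT.mono fun ω hω => ?_)))
      ((h.small _ (pt_im p)).trans ENNReal.ofReal_add_le)
    simp only [hω]

theorem ubdd {U e : ℂ → ℝ} (h : Sub δ U e) {E : Set ℝ} (hE : MeasurableSet E) (hf : volume E ≠ ⊤)
    {η : ℝ} (hη : 0 < η)
    (hi : ∫⁻ p in {p | Bar E (1 + δ / 8) η (pt p) < 1}, ENNReal.ofReal (e (pt p)) ≠ ⊤) :
    ∀ᵐ t : ℝ, t ∈ E → ∃ M : ℝ, ∀ᶠ z in 𝓝[cone t 2 1] t, U z ≤ M := by
  have h0 := h.pos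
  have h1 := h.le
  have hm := Green_meas h hE hf η
  have hS : MeasurableSet {p | Bar E (1 + δ / 8) η (pt p) < 1} :=
    measurableSet_lt (Green_cont hE hf _ _).measurable measurable_const
  have hW := Measure.dense_of_ae (fin_W (δ := δ / 8) (by linarith) (by linarith) hm (by
    rw [lintegral_indicator hS]
    simp only [ENNReal.ofReal_mul (show (0 : ℝ) ≤ 64 by norm_num)]
    rw [lintegral_const_mul' _ _ ENNReal.ofReal_ne_top]
    exact ENNReal.mul_ne_top ENNReal.ofReal_ne_top hi))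
  have key := null_of_dens (A := {t : ℝ | (¬ ∃ M : ℝ, ∀ᶠ z in 𝓝[cone t 2 1] t, U z ≤ M) ∧
      Tendsto (Bar E (1 + δ / 8) η) (𝓝[cone t 2 1] t) (𝓝 0)}) fun t ht => ?_
  · filter_upwards [measure_eq_zero_iff_ae_notMem.1 key,
      bar_tendsto hE (show 1 < 1 + δ / 8 by linarith) hη] with t a b ht
    by_contra c
    exact a ⟨c, (b ht 2 two_pos).1⟩
  have c0 : 0 < δ ^ 2 / 324 := by positivity
  obtain ⟨N, hN⟩ := (eventually_cone two_pos).1
    (ht.2.eventually (gt_mem_nhds (show 0 < δ ^ 2 / 324 / 400 by positivity)))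
  refine (nhdsGT_basis 0).frequently_iff.2 fun ε hε => ?_
  have m0 : 0 < min ε (1 / ((N : ℝ) + 1)) := lt_min hε (by positivity)
  have v := vert_mem_cone (θ := t) one_lt_two (half_pos m0) (half_lt_self m0)
  obtain ⟨p, hp, hpW⟩ := hW.inter_open_nonempty _ ((isOpen_cone t 2 _).preimage cont_pt)
    ⟨_, show pt _ ∈ _ from (pt_surj (im_pos_of_cone two_pos v)).symm ▸ v⟩
  have hp : pt p ∈ cone t 2 (min ε (1 / ((N : ℝ) + 1))) := hp
  have y0 := pt_im p
  refine ⟨(pt p).im, ⟨y0, hp.2.trans_le (min_le_left _ _)⟩, ?_⟩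
  have hB := hN _ (cone_mono two_pos le_rfl (min_le_right _ _) hp)
  obtain ⟨K, K0, hK⟩ : ∃ K : ℝ, 0 ≤ K ∧ _ = ENNReal.ofReal K :=
    ⟨_, ENNReal.toReal_nonneg, (ENNReal.ofReal_toReal
      (ENNReal.add_ne_top.2 ⟨ENNReal.ofReal_ne_top (r := U (pt p)), hpW⟩)).symm⟩
  obtain ⟨lam, l0, hl⟩ : ∃ lam : ℝ, 0 < lam ∧ K ≤ lam / 4 * (δ ^ 2 / 324 / 400) :=
    ⟨4 * K / (δ ^ 2 / 324 / 400) + 1, by positivity, by
      rw [add_div, add_mul, show 4 * K / (δ ^ 2 / 324 / 400) / 4 * (δ ^ 2 / 324 / 400) = K by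
        field_simp]
      exact le_add_of_nonneg_right (by positivity)⟩
  obtain ⟨u, hu, hd, hc⟩ := Vitali.exists_disjoint_subfamily_covering_enlargement_closedBall
    {ζ : ℂ | (0 < ζ.im ∧ lam ≤ U ζ) ∧ ζ.im ≤ (pt p).im / 2 ∧ |ζ.re - (pt p).re| ≤ 4 * (pt p).im}
    (fun ζ => ζ.re) (fun ζ => 2 * ζ.im) (pt p).im (fun ζ hζ => by linarith [hζ.2.1]) 5 (by norm_num)
  have hcount : u.Countable := hd.countable_of_nonempty_interior fun ζ hζ =>
    (nonempty_ball.2 (by linarith [(hu hζ).1.1])).mono ball_subset_interior_closedBall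
  refine (measure_mono (t := ⋃ ζ ∈ u, closedBall ζ.re (5 * (2 * ζ.im))) fun x hx => ?_).trans
    ((measure_biUnion_le _ hcount _).trans ?_)
  · obtain ⟨n, hn⟩ := exists_nat_one_div_lt (half_pos y0)
    have f1 : ∃ᶠ z in 𝓝[cone x 2 1] x, ¬ U z ≤ lam := not_eventually.1 fun c => hx.1.1 ⟨lam, c⟩
    obtain ⟨ζ, z1, z2⟩ := (f1.and_eventually ((eventually_cone (p := fun z =>
      z ∈ cone x 2 (1 / ((n : ℝ) + 1))) two_pos).2 ⟨n, fun _ hz => hz⟩)).exists
    have a1 : |ζ.re - x| ≤ ‖ζ - x‖ := by simpa using abs_re_le_norm (ζ - x)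
    have a2 : |(pt p).re - t| ≤ ‖pt p - t‖ := by simpa using abs_re_le_norm (pt p - t)
    have a3 : |x - t| ≤ (pt p).im := hx.2
    have a4 := z2.1
    have a5 := z2.2
    have a6 := hp.1
    obtain ⟨b, hb, hb'⟩ := hc ζ ⟨⟨im_pos_of_cone two_pos z2, (not_le.1 z1).le⟩, by linarith, by
      rw [abs_le] at a1 a2 a3 ⊢
      constructor <;> linarith [a1.1, a1.2, a2.1, a2.2, a3.1, a3.2]⟩
    refine mem_biUnion hb (hb' ?_)
    rw [mem_closedBall, Real.dist_eq, abs_sub_comm]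
    linarith
  · rw [ENNReal.tsum_eq_iSup_sum]
    refine iSup_le fun F => ?_
    have hF : ∀ ζ ∈ F.map (Function.Embedding.subtype _), ζ ∈ u := fun ζ hζ => by
      obtain ⟨a, -, rfl⟩ := Finset.mem_map.1 hζ
      exact a.2
    have e := Finset.sum_map F (Function.Embedding.subtype _)
      fun ζ : ℂ => volume (closedBall ζ.re (5 * (2 * ζ.im)))
    refine le_trans (le_of_eq e.symm) ?_
    generalize F.map (Function.Embedding.subtype _) = s at hF
    have f := fam h hE hf hη l0.le (fun ζ hζ => (hu (hF ζ hζ)).1) (hd.subset hF) p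
    rw [hK, ENNReal.ofReal_le_ofReal_iff K0] at f
    have g1 := le_of_mul_le_mul_left (f.trans hl) (by positivity)
    have g2 : ∑ ζ ∈ s, gr δ ζ (pt p) ≤ 1 / 200 := le_of_mul_le_mul_left (by linarith) c0
    have g3 : ∑ ζ ∈ s, ζ.im / (10 * (pt p).im) ≤ ∑ ζ ∈ s, gr δ ζ (pt p) :=
      Finset.sum_le_sum fun ζ hζ =>
        gr_ge h0 h1 (hu (hF ζ hζ)).1.1 (hu (hF ζ hζ)).2.1 (hu (hF ζ hζ)).2.2
    rw [← Finset.sum_div, div_le_iff₀ (by positivity)] at g3
    have g4 := mul_le_mul_of_nonneg_right g2 (show 0 ≤ 10 * (pt p).im by positivity)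
    simp only [Real.volume_closedBall]
    rw [← ENNReal.ofReal_sum_of_nonneg fun ζ hζ => by linarith [(hu (hF ζ hζ)).1.1]]
    refine ENNReal.ofReal_le_ofReal ?_
    simp only [← Finset.mul_sum]
    linarith

end Pool.Agent.Work.MP_31144c_an.G
end

-- merged part: LemX
section
/-! Divergence of the occupation and the weights (steps 3 and 4 of the paper). -/

namespace Pool.Agent.Work.MP_31144c_an.G

open Set Filter Topology MeasureTheory Complex Metric
open scoped ENNReal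

variable {F : ℂ → ℂ} {δ : ℝ} {G : ℕ → ℝ}

theorem bdd_dQ (n : ℕ) (q : ℤ × ℤ) : Bornology.IsBounded (dQ n q) := by
  obtain ⟨c, -, h⟩ := dQ_ball n q
  exact isBounded_closedBall.subset h

theorem gs_sub (h0 : 0 < δ) (h1 : δ ≤ 1 / 2) {E : Set ℝ} (hE : MeasurableSet E) (k : ℕ) {p : ℝ × ℝ}
    (hp : Bar E (1 + δ / 8) (2 / (δ * 2 ^ k)) (pt p) < 1) : ∃ i j, p ∈ box δ 1 (k + i) j ∧
      ENNReal.ofReal (1 / 2 ^ (k + i)) ≤ 2 * volume (dI (k + i) j ∩ E) := by
  have hz := pt_im p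
  have a1 := Comp_first_nonneg hE (C := 1 + δ / 8) (by linarith) hz
  have a2 : 0 ≤ (pt p).im / (2 / (δ * 2 ^ k)) := by positivity
  rw [Bar] at hp
  obtain ⟨i, hi⟩ := box_ex (k := k) (p := p) h0
    ((div_lt_one (by positivity)).1 (show (pt p).im / (2 / (δ * 2 ^ k)) < 1 by linarith))
  refine ⟨i, _, hi, ?_⟩
  generalize k + i = K at hi
  obtain ⟨b1, b2, -⟩ := box_mem h0 hi
  have hf : volume (dI K (ix K p.2)) ≠ ⊤ := by rw [vol_dI]; exact ENNReal.ofReal_ne_top
  have hf2 : volume (dI K (ix K p.2) ∩ E) ≠ ⊤ := ne_top_of_le_ne_top hf (measure_mono inter_subset_left)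
  have e1 := measureReal_sdiff_add_inter (μ := volume) (s := dI K (ix K p.2)) hE hf
  rw [show volume.real (dI K (ix K p.2)) = 1 / 2 ^ K by
    rw [measureReal_def, vol_dI, ENNReal.toReal_ofReal (by positivity)]] at e1
  have a3 : 1 - Po (E.indicator 1) (pt p) < δ / 32 := by
    have : (1 - Po (E.indicator 1) (pt p)) / (min (1 + δ / 8 - 1) 1 / 4) < 1 := by linarith
    rw [div_lt_one (Comp_gap_pos (by linarith)), min_eq_left (by linarith)] at this
    linarith
  have hb : ∀ t, |E.indicator (1 : ℝ → ℝ) t - 1| ≤ 1 := fun t => by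
    by_cases ht : t ∈ E <;> simp [ht]
  have hm := Comp_ind_meas hE
  have hd := (meas_dI K (ix K p.2)).diff hE
  have a4 := integral_mono (g := fun t => -(pk (pt p) t * (E.indicator 1 t - 1)))
    ((integrableOn_const (C := 1 / (8 * (pt p).im)) (μ := volume) (s := dI K (ix K p.2) \ E)
      (ne_top_of_le_ne_top hf (measure_mono sdiff_subset))).integrable_indicator hd)
    (integrable_pk_mul hz (hm.sub aestronglyMeasurable_const) (ae_of_all _ hb)).neg fun t => by
      by_cases ht : t ∈ dI K (ix K p.2) \ E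
      · have c1 := ix_dist (k := K) (t := t) (t' := p.2) ht.1
        have c2 : 1 / 2 ^ K ≤ (pt p).im := by
          rw [div_le_iff₀ (by positivity)] at b1 ⊢
          change 1 ≤ Real.exp p.1 * 2 ^ K
          have : 0 < Real.exp p.1 * 2 ^ K := by positivity
          nlinarith
        have c3 : (t - (pt p).re) ^ 2 ≤ (pt p).im ^ 2 := by
          rw [← sq_abs]
          exact pow_le_pow_left₀ (abs_nonneg _) (c1.le.trans c2) 2
        simp only [indicator_of_mem ht, indicator_of_notMem ht.2, zero_sub, mul_neg, neg_neg, mul_one]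
        rw [pk, div_le_div_iff₀ (by positivity) (by positivity)]
        nlinarith [mul_le_mul_of_nonneg_left c3 Real.pi_pos.le,
          mul_le_mul_of_nonneg_right Real.pi_le_four (sq_nonneg (pt p).im)]
      · have := pk_nonneg hz.le t
        rw [indicator_of_notMem ht]
        by_cases ht2 : t ∈ E <;> simp [ht2, this]
  rw [integral_neg, ← Pois_sub hz hm (ae_of_all _ hb), integral_indicator hd, setIntegral_const,
    smul_eq_mul, neg_sub, mul_one_div, div_le_iff₀ (by positivity)] at a4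
  rw [← ENNReal.ofReal_toReal hf2, ← ENNReal.ofReal_ofNat, ← ENNReal.ofReal_mul (by norm_num)]
  refine ENNReal.ofReal_le_ofReal ?_
  rw [← measureReal_def]
  have a5 : δ / 32 * (8 * (pt p).im) ≤ 1 / 2 ^ K / 2 := by
    rw [lt_div_iff₀ (by positivity)] at b2
    rw [div_div, le_div_iff₀ (by positivity)]
    change δ / 32 * (8 * Real.exp p.1) * _ ≤ 1
    linarith
  have a6 := mul_le_mul_of_nonneg_right a3.le (show 0 ≤ 8 * (pt p).im by positivity)
  linarith

theorem diverge (h : An F δ) (l : ℕ) (q : ℤ × ℤ) (k : ℕ) :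
    ∀ᵐ t : ℝ, NT F t ∨ ∀ N : ℝ, ∃ d, N < Sm (bm δ (em F δ (dQ l q))) k d t := by
  classical
  obtain ⟨⟨c, hc⟩, hg⟩ := pot_grow l q
  have hD := meas_dQ l q
  have hb := bdd_dQ l q
  have hS : Sub δ (fun z => pot (dQ l q) (F z) + c) (em F δ (dQ l q)) :=
    ⟨h.pos, h.le, ((meas_pot _).comp h.meas).add_const c, meas_em h _, fun z => hc _,
      fun z hz => (occ_eq h hD hb hz).2.1, fun z hz => em_small h hD hb hc hz,
      fun z ζ hz => em_near h hD hb hc hz⟩
  set m := bm δ (em F δ (dQ l q)) with hm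
  have m0 : ∀ k j, 0 ≤ m k j := fun k j => (bm_em h hD hb k j).2.1
  have key : ∀ N R : ℕ, ∀ᵐ t : ℝ, t ∈ Icc (-(R : ℝ)) R ∩ (⋂ d, {t | Sm m k d t ≤ N}) →
      ∃ M : ℝ, ∀ᶠ z in 𝓝[cone t 2 1] t, pot (dQ l q) (F z) + c ≤ M := fun N R => by
    have hE : MeasurableSet (Icc (-(R : ℝ)) R ∩ ⋂ d, {t | Sm m k d t ≤ N}) :=
      measurableSet_Icc.inter (.iInter fun d => measurableSet_le (meas_Sm _ _ _) measurable_const)
    have hf : volume (Icc (-(R : ℝ)) R ∩ ⋂ d, {t | Sm m k d t ≤ N}) ≠ ⊤ :=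
      ne_top_of_le_ne_top measure_Icc_lt_top.ne (measure_mono inter_subset_left)
    have hN : ∀ t ∈ Icc (-(R : ℝ)) R ∩ ⋂ d, {t | Sm m k d t ≤ N},
        ∑' i, ENNReal.ofReal (m (k + i) (ix (k + i) t)) ≤ ENNReal.ofReal N := fun t ht => by
      rw [ENNReal.tsum_eq_iSup_nat]
      refine iSup_le fun d => ?_
      rw [← ENNReal.ofReal_sum_of_nonneg fun i _ => m0 _ _]
      exact ENNReal.ofReal_le_ofReal (mem_iInter.1 ht.2 d)
    generalize Icc (-(R : ℝ)) R ∩ (⋂ d, {t | Sm m k d t ≤ N}) = E at hE hf hN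
    have hδ := h.pos
    refine ubdd hS hE hf (η := 2 / (δ * 2 ^ k)) (by positivity) (ne_top_of_le_ne_top
      (ENNReal.mul_ne_top ENNReal.ofNat_ne_top (ENNReal.mul_ne_top ENNReal.ofReal_ne_top hf) :
        2 * (ENNReal.ofReal N * volume E) ≠ ⊤) ?_)
    calc _ ≤ ∫⁻ p in ⋃ i, ⋃ j, if ENNReal.ofReal (1 / 2 ^ (k + i)) ≤ 2 * volume (dI (k + i) j ∩ E)
          then box δ 1 (k + i) j else ∅, ENNReal.ofReal (em F δ (dQ l q) (pt p)) :=
          lintegral_mono_set fun p hp => by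
            obtain ⟨i, j, h1, h2⟩ := gs_sub h.pos h.le hE k hp
            exact mem_iUnion₂.2 ⟨i, j, by rwa [if_pos h2]⟩
      _ ≤ ∑' i, ∑' j, 2 * (ENNReal.ofReal (m (k + i) j) * volume (dI (k + i) j ∩ E)) := by
          refine (lintegral_iUnion_le _ _).trans (ENNReal.tsum_le_tsum fun i =>
            (lintegral_iUnion_le _ _).trans (ENNReal.tsum_le_tsum fun j => ?_))
          split_ifs with h1
          · rw [← ofReal_integral_eq_lintegral_ofReal (bm_em h hD hb _ j).1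
              (ae_of_all _ fun p => (occ_eq h hD hb (pt_im p)).2.1), mul_left_comm]
            refine le_trans (le_of_eq ?_) (mul_le_mul_right h1 _)
            rw [← ENNReal.ofReal_mul (m0 _ _), hm, bm]
            congr 1
            field_simp
          · simp
      _ ≤ _ := by
          simp only [ENNReal.tsum_mul_left, ← lint_ix]
          rw [← lintegral_tsum (f := fun i t => ENNReal.ofReal (m (k + i) (ix (k + i) t))) fun i =>
            ((measurable_of_countable fun j => ENNReal.ofReal (m (k + i) j)).comp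
              (meas_ix _)).aemeasurable, ← setLIntegral_const]
          exact mul_le_mul_right (setLIntegral_mono' hE hN) _
  filter_upwards [ae_all_iff.2 fun N => ae_all_iff.2 (key N), nt_of_bdd h.diff] with t h1 h2
  refine or_iff_not_imp_right.2 fun hn => h2 ?_
  push Not at hn
  obtain ⟨N, hN⟩ := hn
  obtain ⟨M, hM⟩ := h1 ⌈N⌉₊ _ ⟨Omit_mem t, mem_iInter.2 fun d => (hN d).trans (Nat.le_ceil N)⟩
  obtain ⟨R, hR⟩ := hg (M - c)
  exact ⟨R, hM.mono fun z hz => hR _ (by linarith)⟩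

/-- The node is active when the sum from the level `k₀` on is at most `N`. -/
def Ac (a : ℕ → ℤ → ℝ) (k₀ : ℕ) (N : ℝ) (k : ℕ) (j : ℤ) : Prop :=
  ∃ t, ix k t = j ∧ Sm a k₀ (k + 1 - k₀) t ≤ N

section
variable {a : ℕ → ℤ → ℝ} {k₀ k d : ℕ} {N t : ℝ}

theorem Sm_mono (ha : ∀ k j, 0 ≤ a k j) (k : ℕ) (t : ℝ) : Monotone fun d => Sm a k d t :=
  fun _ _ h => Finset.sum_le_sum_of_subset_of_nonneg (Finset.range_mono h) fun _ _ _ => ha _ _

theorem Ac_her (ha : ∀ k j, 0 ≤ a k j) : Her (Ac a k₀ N) := by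
  rintro k j (⟨t, h1, h2⟩ | ⟨t, h1, h2⟩) <;>
    exact ⟨t, by rw [← ix_half, h1]; omega, (Sm_mono ha _ t (by omega)).trans h2⟩

theorem Ac_iff : Ac a k₀ N k (ix k t) ↔ Sm a k₀ (k + 1 - k₀) t ≤ N := by
  refine ⟨fun ⟨s, h1, h2⟩ => le_of_eq_of_le (Finset.sum_congr rfl fun i hi => ?_) h2,
    fun h => ⟨t, rfl, h⟩⟩
  rw [ix_anc h1 (by have := Finset.mem_range.1 hi; omega)]

theorem cut_nonneg (ha : ∀ k j, 0 ≤ a k j) (Act : ℕ → ℤ → Prop) (k : ℕ) (j : ℤ) :
    0 ≤ cut Act a k j := by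
  unfold cut
  split_ifs
  exacts [ha k j, le_rfl]

theorem cut_le (ha : ∀ k j, 0 ≤ a k j) (hN : 0 ≤ N) (hk : k₀ ≤ k) (d : ℕ) (t : ℝ) :
    Sm (cut (Ac a k₀ N) a) k d t ≤ N := by
  induction d with
  | zero => simpa [Sm] using hN
  | succ d ih =>
    by_cases h : Ac a k₀ N (k + d) (ix (k + d) t)
    · obtain ⟨c, rfl⟩ := Nat.exists_eq_add_of_le hk
      rw [Ac_iff, show k₀ + c + d + 1 - k₀ = c + (d + 1) by omega, Sm, Finset.sum_range_add] at h
      refine le_trans ?_ ((le_add_of_nonneg_left (Finset.sum_nonneg fun _ _ => ha _ _)).trans h)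
      refine Finset.sum_le_sum fun i _ => ?_
      rw [cut, add_assoc]
      split_ifs
      exacts [le_rfl, ha _ _]
    · rwa [Sm, Finset.sum_range_succ, cut, if_neg h, add_zero]

theorem reach (hN : 0 ≤ N) {J : ℝ} (hJ : ∀ i, a (k₀ + i) (ix (k₀ + i) t) ≤ J)
    (h : ∃ d, N < Sm a k₀ d t) : ∃ d, N - J ≤ Sm (cut (Ac a k₀ N) a) k₀ d t := by
  classical
  have h1 := Nat.find_spec h
  obtain ⟨d, hd⟩ : ∃ d, Nat.find h = d + 1 := Nat.exists_eq_succ_of_ne_zero fun h0 => by
    rw [h0, Sm, Finset.sum_range_zero] at h1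
    exact h1.not_ge hN
  rw [hd, Sm, Finset.sum_range_succ] at h1
  refine ⟨d, le_trans (by linarith [hJ d]) (le_of_eq (Finset.sum_congr rfl fun i hi =>
    (if_pos (Ac_iff.2 (not_lt.1 (Nat.find_min h ?_)))).symm))⟩
  have := Finset.mem_range.1 hi
  omega

end

theorem wt_of (hm : Monotone G) {l : ℕ} {O D : Set ℂ} (hD : MeasurableSet D) {ν : ℂ → ℝ≥0∞}
    (hν : Measurable ν) (hs : ∀ x, ν x ≠ 0 → x ∈ O) {n : ℕ → ℕ} (hn : ∀ j, j ≤ n j) {Λ : ℕ → ℝ} {κ : ℝ}
    (hκ : 0 ≤ κ) (h0 : κ * Λ 0 ≤ G l) (h1 : ∀ j, κ * Λ (j + 1) ≤ G (n j)) :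
    ∃ w, Wt G l O w ∧ ENNReal.ofReal κ * ∫⁻ x in D, ν x ≤ (∫⁻ x in D, w x) + ENNReal.ofReal κ *
      ∑' j, ∑' q, if ENNReal.ofReal (Λ j / 4 ^ n j) < ∫⁻ x in dQ (n j) q ∩ D, ν x
        then ∫⁻ x in dQ (n j) q ∩ D, ν x else 0 := by
  classical
  obtain ⟨H, hH⟩ : ∃ H : Set ℂ, H = ⋃ j, ⋃ q, if ENNReal.ofReal (Λ j / 4 ^ n j) <
    ∫⁻ x in dQ (n j) q ∩ D, ν x then dQ (n j) q ∩ D else ∅ := ⟨_, rfl⟩
  have mH : MeasurableSet (D \ H) := hD.diff (hH ▸ .iUnion fun j => .iUnion fun q => by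
    split_ifs
    exacts [(meas_dQ _ _).inter hD, .empty])
  refine ⟨(D \ H).indicator fun x => ENNReal.ofReal κ * ν x, ⟨(hν.const_mul _).indicator mH,
    fun x hx => hs x fun h => hx (by simp [indicator, h]), fun m hl q => ?_⟩, ?_⟩
  · have hex : ∃ j, m ≤ n j := ⟨m, hn m⟩
    have h2 : κ * Λ (Nat.find hex) ≤ G m := by
      rcases h3 : Nat.find hex with _ | j
      · exact h0.trans (hm hl)
      · exact (h1 j).trans (hm (not_le.1 (Nat.find_min hex (by omega))).le)
    have h3 := Nat.find_spec hex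
    generalize Nat.find hex = j at h2 h3
    rw [div_eq_mul_one_div, mul_comm, ENNReal.ofReal_mul (by positivity), ← vol_dQ m q, mul_comm,
      ← setLIntegral_const, dQ_sum (n j), dQ_sum (n j) (dQ m q)]
    refine ENNReal.tsum_le_tsum fun q' => ?_
    rcases (dQ (n j) q' ∩ dQ m q).eq_empty_or_nonempty with h4 | h4
    · simp [h4]
    rw [inter_eq_left.2 (dQ_nest h3 h4), setLIntegral_indicator mH,
      lintegral_const_mul _ hν, setLIntegral_const, vol_dQ]
    by_cases h5 : ENNReal.ofReal (Λ j / 4 ^ n j) < ∫⁻ x in dQ (n j) q' ∩ D, ν x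
    · rw [show D \ H ∩ dQ (n j) q' = ∅ from eq_empty_of_forall_notMem fun x hx => hx.1.2
        (hH ▸ mem_iUnion₂.2 ⟨j, q', by rw [if_pos h5]; exact ⟨hx.2, hx.1.1⟩⟩)]
      simp
    · refine (mul_le_mul_right ((lintegral_mono_set (t := dQ (n j) q' ∩ D)
        fun x hx => ⟨hx.2, hx.1.1⟩).trans (not_lt.1 h5)) _).trans ?_
      rw [← ENNReal.ofReal_mul hκ, mul_comm (ENNReal.ofReal (G m)),
        ← ENNReal.ofReal_mul (by positivity)]
      refine ENNReal.ofReal_le_ofReal ?_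
      rw [← mul_div_assoc, one_div_mul_eq_div]
      gcongr
  · rw [setLIntegral_indicator mH, lintegral_const_mul _ hν, ← mul_add,
      inter_eq_left.2 sdiff_subset]
    refine mul_le_mul_right ((lintegral_mono_set (subset_sdiff_union D H)).trans
      ((lintegral_union_le _ _ _).trans (add_le_add le_rfl ?_))) _
    rw [hH]
    refine (lintegral_iUnion_le _ _).trans (ENNReal.tsum_le_tsum fun j =>
      (lintegral_iUnion_le _ _).trans (ENNReal.tsum_le_tsum fun q => ?_))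
    split_ifs <;> simp

open Classical in
/-- The occupation density along the active nodes of `t`. -/
noncomputable def Nt (F : ℂ → ℂ) (δ : ℝ) (Act : ℕ → ℤ → Prop) (k d : ℕ) (t : ℝ) (x : ℂ) : ℝ≥0∞ :=
  ∑ i ∈ Finset.range d, if Act (k + i) (ix (k + i) t) then dens F δ (k + i) (ix (k + i) t) x else 0

theorem Nt_term (h : An F δ) (p : Prop) [Decidable p] (k : ℕ) (j : ℤ) :
    Measurable fun x => if p then dens F δ k j x else 0 := by
  split_ifs
  exacts [meas_dens h k j, measurable_const]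

theorem Nt_int (h : An F δ) {A : Set ℂ} (hA : MeasurableSet A) (hb : Bornology.IsBounded A)
    (Act : ℕ → ℤ → Prop) (k d : ℕ) (t : ℝ) :
    ∫⁻ x in A, Nt F δ Act k d t x = ENNReal.ofReal (Sm (cut Act (bm δ (em F δ A))) k d t) := by
  classical
  simp only [Nt]
  rw [lintegral_finsetSum _ fun i _ => Nt_term h _ _ _, Sm, ENNReal.ofReal_sum_of_nonneg fun i _ =>
    cut_nonneg (fun k j => (bm_em h hA hb k j).2.1) _ _ _]
  refine Finset.sum_congr rfl fun i _ => ?_
  rw [cut]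
  split_ifs
  · exact (bm_em h hA hb _ _).2.2
  · simp

theorem heavy_le (h : An F δ) {l n k : ℕ} (q : ℤ × ℤ) {N : ℝ} (hN : 0 ≤ N) (hl : l ≤ n) (h1 : 11 ≤ n)
    (h2 : N ≤ n) (Λ : ℝ) (d : ℕ) (j : ℤ) {ν : ℝ → ℂ → ℝ≥0∞}
    (hν : ν = Nt F δ (Ac (bm δ (em F δ (dQ l q))) k (N / 4 ^ l)) k d) :
    (∀ q', Measurable fun t => if ENNReal.ofReal (Λ / 4 ^ n) < ∫⁻ x in dQ n q' ∩ dQ l q, ν t x
        then ∫⁻ x in dQ n q' ∩ dQ l q, ν t x else 0) ∧
      ∑' q', ∫⁻ t in dI k j, (if ENNReal.ofReal (Λ / 4 ^ n) < ∫⁻ x in dQ n q' ∩ dQ l q, ν t x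
        then ∫⁻ x in dQ n q' ∩ dQ l q, ν t x else 0) ≤
      ENNReal.ofReal (8 * Real.exp (-(Λ / (648 * n)))) *
        (ENNReal.ofReal (N / 4 ^ l) * ENNReal.ofReal (1 / 2 ^ k)) := by
  have hD := meas_dQ l q
  have hb := bdd_dQ l q
  have m0 := fun k j => (bm_em h hD hb k j).2.1
  have hA := fun q' => (meas_dQ n q').inter hD
  have hb' := fun q' => hb.subset (inter_subset_right (s := dQ n q'))
  have mI : ∀ q', Measurable fun t => ∫⁻ x in dQ n q' ∩ dQ l q, ν t x := fun q' => by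
    simp only [hν, Nt_int h (hA q') (hb' q')]
    exact (meas_Sm _ _ _).ennreal_ofReal
  refine ⟨fun q' => .ite (measurableSet_lt measurable_const (mI q')) (mI q') measurable_const, ?_⟩
  calc _ ≤ ∑' q', ENNReal.ofReal (8 * Real.exp (-(Λ / (648 * n)))) *
        ∫⁻ t in dI k j, ∫⁻ x in dQ n q' ∩ dQ l q, ν t x := ENNReal.tsum_le_tsum fun q' => ?_
    _ ≤ _ := by
      rw [ENNReal.tsum_mul_left, ← lintegral_tsum fun q' => (mI q').aemeasurable, ← vol_dI k j,
        ← setLIntegral_const]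
      refine mul_le_mul_right (lintegral_mono fun t => ?_) _
      rw [← dQ_sum, hν, Nt_int h hD hb]
      exact ENNReal.ofReal_le_ofReal (cut_le m0 (by positivity) le_rfl d t)
  rcases (dQ n q' ∩ dQ l q).eq_empty_or_nonempty with h4 | h4
  · simp [h4]
  have h5 := dQ_nest hl h4
  have n0 : (11 : ℝ) ≤ n := by exact_mod_cast h1
  have a0 := cut_nonneg (fun k j => (bm_em h (meas_dQ n q') (bdd_dQ n q') k j).2.1)
    (Ac (bm δ (em F δ (dQ l q))) k (N / 4 ^ l))
  have h6 := khas a0 (κ := 81 * n / 4 ^ n) (by positivity) (k₀ := k) (fun d k' j hk =>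
    (carl h (meas_dQ n q') (bdd_dQ n q') hD hb (by positivity) (pot_sq hl h5) (Ac_her m0) d k' j
      (cut_le m0 (by positivity) hk d)).trans (by
        rw [div_mul_div_comm, mul_comm ((4 : ℝ) ^ n), mul_div_mul_left _ _ (by positivity),
          ← mul_div_assoc, ← add_div]
        gcongr
        linarith)) (Λ / 4 ^ n) d j
  rw [show Λ / 4 ^ n / (8 * (81 * n / 4 ^ n)) = Λ / (648 * n) by field_simp; ring] at h6
  simp only [inter_eq_left.2 h5, hν, Nt_int h (meas_dQ n q') (bdd_dQ n q')]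
  refine le_trans (lintegral_mono fun t => ?_) h6
  dsimp only
  split_ifs with h7 h8
  · exact le_rfl
  · exact absurd (ENNReal.ofReal_le_ofReal (not_lt.1 h8)) h7.not_ge
  · exact zero_le
  · exact zero_le

theorem eps_le {C B κ : ℝ} (hG : Gau G C) (hB : 1944 * C ≤ B) (hB' : 648 * 256 ≤ B) {p : ℕ}
    (hp : ∑' m : ℕ, Real.exp (-(C * (G (3 ^ (m + p)) / 3 ^ (m + p)))) ≤ 1 / 256) (hκ : 0 < κ)
    (hκ' : κ * B ≤ 1) {Λ : ℕ → ℝ} (h0 : Λ 0 = B * 3 ^ p) (h1 : ∀ j, Λ (j + 1) = G (3 ^ (j + p)) / κ) :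
    ∑' j, ENNReal.ofReal (8 * Real.exp (-(Λ j / (648 * ((3 ^ (j + p) : ℕ) : ℝ))))) ≤
      ENNReal.ofReal (1 / 16) := by
  have hs := ((summable_nat_add_iff p).2 hG.sum).mul_left 8
  rw [tsum_eq_zero_add' ENNReal.summable, show (1 / 16 : ℝ) = 1 / 32 + 1 / 32 by norm_num,
    ENNReal.ofReal_add (by norm_num) (by norm_num)]
  refine add_le_add (ENNReal.ofReal_le_ofReal ?_) ((ENNReal.tsum_le_tsum fun j =>
    ENNReal.ofReal_le_ofReal ?_).trans ((ENNReal.ofReal_tsum_of_nonneg (fun _ => by positivity)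
      hs).ge.trans (ENNReal.ofReal_le_ofReal (by rw [tsum_mul_left]; linarith))))
  · rw [h0, zero_add, Nat.cast_pow, Nat.cast_ofNat, mul_div_mul_right _ _ (by positivity),
      Real.exp_neg, ← div_eq_mul_inv, div_le_iff₀ (Real.exp_pos _)]
    linarith [Real.add_one_le_exp (B / 648)]
  · refine mul_le_mul_of_nonneg_left (Real.exp_le_exp.2 (neg_le_neg ?_)) (by norm_num)
    have := hG.pos (3 ^ (j + p))
    have := hG.hC
    rw [h1, Nat.cast_pow, Nat.cast_ofNat, add_right_comm, pow_succ, ← mul_div_assoc, div_div,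
      div_le_div_iff₀ (by positivity) (by positivity)]
    have h2 : C * (κ * 1944) ≤ 1 := by nlinarith
    have h3 : 0 < G (3 ^ (j + p)) * 3 ^ (j + p) := by positivity
    nlinarith

theorem jump (hm : Monotone G) (hp : ∀ n, 0 < G n) (h : An F δ) {η t c : ℝ} (hc : c ≤ 1 / 2)
    (ho : MeasurableSet (F '' cone t (1 + 5 * δ) η)) {l : ℕ} {q : ℤ × ℤ}
    (hn : ¬ ∃ w, Wt G l (F '' cone t (1 + 5 * δ) η) w ∧
      ENNReal.ofReal (c * G l / 4 ^ l) ≤ ∫⁻ x in dQ l q, w x) {k : ℕ} (hk : 3 / (δ * 2 ^ k) ≤ η) :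
    bm δ (em F δ (dQ l q)) k (ix k t) ≤ 36 / 4 ^ l := by
  have hD := meas_dQ l q
  have hb := bdd_dQ l q
  have hf : volume (dQ l q) ≠ ⊤ := by rw [vol_dQ]; exact ENNReal.ofReal_ne_top
  have e1 := measureReal_inter_add_sdiff (μ := volume) (s := dQ l q) ho hf
  rw [show volume.real (dQ l q) = 1 / 4 ^ l by
    rw [measureReal_def, vol_dQ, ENNReal.toReal_ofReal (by positivity)]] at e1
  have e2 : 1 / 4 ^ l / 2 ≤ volume.real (dQ l q \ F '' cone t (1 + 5 * δ) η) := by
    by_contra h1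
    refine hn ⟨(F '' cone t (1 + 5 * δ) η).indicator fun _ => ENNReal.ofReal (G l),
      ⟨measurable_const.indicator ho, fun x hx => mem_of_indicator_ne_zero hx, fun n hn q' => ?_⟩, ?_⟩
    · refine (lintegral_mono (indicator_le_self _ _)).trans ?_
      rw [setLIntegral_const, vol_dQ, ← ENNReal.ofReal_mul (hp l).le, mul_one_div]
      exact ENNReal.ofReal_le_ofReal (div_le_div_of_nonneg_right (hm hn) (by positivity))
    · rw [setLIntegral_indicator ho, setLIntegral_const, inter_comm, ← ENNReal.ofReal_toReal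
        (ne_top_of_le_ne_top hf (measure_mono inter_subset_left)), ← ENNReal.ofReal_mul (hp l).le,
        ← measureReal_def]
      refine ENNReal.ofReal_le_ofReal ?_
      rw [mul_comm c, mul_div_assoc]
      refine mul_le_mul_of_nonneg_left ?_ (hp l).le
      have : c / 4 ^ l ≤ 1 / 4 ^ l / 2 := by
        rw [div_right_comm]
        gcongr
      linarith
  obtain ⟨c', hc'⟩ := pot_half (hD.diff ho) sdiff_subset e2
  obtain ⟨ψ, h1, h2, -⟩ := rel h hD hb (hD.diff ho) (hb.subset sdiff_subset) hc'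
  obtain ⟨-, h3, h4⟩ := bm_em h (hD.diff ho) (hb.subset sdiff_subset) k (ix k t)
  rw [setLIntegral_congr_fun (hD.diff ho) (g := fun _ => 0) fun x hx => dens_zero h hk hx.2,
    lintegral_zero] at h4
  rw [h1, le_antisymm (ENNReal.ofReal_eq_zero.1 h4.symm) h3, mul_zero, add_zero]
  exact (le_abs_self _).trans ((h2 _ _).trans_eq (by ring))

theorem lemX {C : ℝ} (hG : Gau G C) : ∃ c : ℝ, 0 < c ∧ ∀ (F : ℂ → ℂ) (δ η : ℝ), An F δ → 0 < η →
    (∀ t, MeasurableSet (F '' cone t (1 + 5 * δ) η)) → ∀ l q, ∀ᵐ t : ℝ, NT F t ∨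
      ∃ w, Wt G l (F '' cone t (1 + 5 * δ) η) w ∧
        ENNReal.ofReal (c * G l / 4 ^ l) ≤ ∫⁻ x in dQ l q, w x := by
  classical
  obtain ⟨B, hB, hB'⟩ : ∃ B : ℝ, 1944 * C ≤ B ∧ 648 * 256 ≤ B := ⟨_, le_max_left _ _, le_max_right _ _⟩
  have B0 : 0 < B := by linarith
  refine ⟨1 / (4 * B), by positivity, fun F δ η h hη ho l q => ?_⟩
  have hδ := h.pos
  have t3 : Tendsto (fun p : ℕ => (3 : ℝ) ^ p) atTop atTop :=
    tendsto_pow_atTop_atTop_of_one_lt (by norm_num)
  obtain ⟨p, p1, p2, p3, p4⟩ := ((t3.eventually_ge_atTop 72).and ((t3.eventually_ge_atTop l).and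
    ((t3.eventually_ge_atTop (G l)).and ((tendsto_sum_nat_add fun m : ℕ =>
      Real.exp (-(C * (G (3 ^ m) / 3 ^ m)))).eventually_le_const
        (show (0 : ℝ) < 1 / 256 by norm_num))))).exists
  obtain ⟨k₁, hk₁⟩ := eventually_atTop.1 ((((tendsto_pow_atTop_atTop_of_one_lt
    (one_lt_two (α := ℝ))).const_mul_atTop hδ).const_div_atTop 3).eventually_le_const hη)
  have G0 := hG.pos l
  obtain ⟨κ, hκ⟩ : ∃ κ, κ = G l / (B * 3 ^ p) := ⟨_, rfl⟩
  have κ0 : 0 < κ := by rw [hκ]; positivity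
  obtain ⟨Λ, Λ0, Λ1⟩ : ∃ Λ : ℕ → ℝ, Λ 0 = B * 3 ^ p ∧ ∀ j, Λ (j + 1) = G (3 ^ (j + p)) / κ :=
    ⟨fun j => Nat.rec (B * 3 ^ p) (fun j _ => G (3 ^ (j + p)) / κ) j, rfl, fun _ => rfl⟩
  have he := eps_le hG hB hB' p4 κ0 (by
    rw [hκ, div_mul_eq_mul_div, div_le_one (by positivity)]
    nlinarith) Λ0 Λ1
  have hD := meas_dQ l q
  have hb := bdd_dQ l q
  have m0 := fun k j => (bm_em h hD hb k j).2.1
  have hn : ∀ j, (3 : ℝ) ^ p ≤ (3 ^ (j + p) : ℕ) := fun j => by
    exact_mod_cast Nat.pow_le_pow_right (by norm_num) (Nat.le_add_left p j)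
  obtain ⟨Bad, hBad⟩ : ∃ Bad : Set ℝ, Bad = {t | (∀ k (N : ℝ), ∃ d,
    N < Sm (bm δ (em F δ (dQ l q))) k d t) ∧ ¬ ∃ w, Wt G l (F '' cone t (1 + 5 * δ) η) w ∧
      ENNReal.ofReal (1 / (4 * B) * G l / 4 ^ l) ≤ ∫⁻ x in dQ l q, w x} := ⟨_, rfl⟩
  have key : volume Bad = 0 := null_of_dI (k₁ := k₁) fun k j hk => by
    obtain ⟨Act, hA⟩ : ∃ Act, Act = Ac (bm δ (em F δ (dQ l q))) k (3 ^ p / 4 ^ l) := ⟨_, rfl⟩
    have a0 := cut_nonneg m0 Act
    refine (measure_mono (t := ⋃ d, {t | t ∈ Bad ∩ dI k j ∧ 3 ^ p / 4 ^ l / 2 ≤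
      Sm (cut Act (bm δ (em F δ (dQ l q)))) k d t}) fun t ht => ?_).trans ?_
    · have h1 := ht.1
      rw [hBad] at h1
      obtain ⟨d, hd⟩ := reach (N := 3 ^ p / 4 ^ l) (by positivity) (fun i => jump hG.mono hG.pos h
        (by rw [div_le_div_iff₀ (by positivity) (by positivity)]; linarith) (ho t) h1.2
          (hk₁ (k + i) (by omega))) (h1.1 k _)
      refine mem_iUnion.2 ⟨d, ht, le_trans ?_ (hA ▸ hd)⟩
      rw [← sub_div, div_right_comm]
      gcongr
      linarith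
    refine (Monotone.measure_iUnion fun d d' hd t ht => ?_).trans_le (iSup_le fun d => ?_)
    · exact ⟨ht.1, ht.2.trans (Sm_mono a0 k t hd)⟩
    have hv := fun i : ℕ => heavy_le h (n := 3 ^ (i + p)) q (N := 3 ^ p) (by positivity)
      (by exact_mod_cast p2.trans (hn i)) (by
        have : ((11 : ℕ) : ℝ) ≤ (3 ^ (i + p) : ℕ) := by linarith [hn i, show ((11 : ℕ) : ℝ) = 11 from rfl]
        exact_mod_cast this) (hn i) (Λ i) d j (k := k) rfl
    rw [← hA] at hv
    have m1 := fun i => Measurable.tsum (L := .unconditional _) (hv i).1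
    have mR := Measurable.tsum (L := .unconditional _) m1
    have h1 := mul_meas_ge_le_lintegral (μ := volume.restrict (dI k j)) mR
      (ENNReal.ofReal (3 ^ p / 4 ^ l / 4))
    rw [lintegral_tsum fun i => (m1 i).aemeasurable] at h1
    simp only [lintegral_tsum fun q' => ((hv _).1 q').aemeasurable] at h1
    replace h1 := h1.trans (ENNReal.tsum_le_tsum fun i => (hv i).2)
    rw [ENNReal.tsum_mul_right, Measure.restrict_apply' (meas_dI k j)] at h1
    replace h1 := h1.trans (mul_le_mul_left he _)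
    rw [← ENNReal.ofReal_mul (by positivity), ← ENNReal.ofReal_mul (by positivity),
      show (1 / 16 * (3 ^ p / 4 ^ l * (1 / 2 ^ k)) : ℝ) = 3 ^ p / 4 ^ l / 4 * (1 / 2 ^ k / 4) by ring,
      ENNReal.ofReal_mul (by positivity), ENNReal.mul_le_mul_iff_right
        (ENNReal.ofReal_pos.2 (by positivity)).ne' ENNReal.ofReal_ne_top] at h1
    refine (measure_mono fun t ht => ?_).trans (h1.trans (ENNReal.ofReal_le_ofReal (by
      gcongr; norm_num)))
    refine ⟨?_, ht.1.2⟩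
    by_contra h2
    have h3 := ht.1.1
    rw [hBad] at h3
    obtain ⟨w, h4, h5⟩ := wt_of hG.mono (l := l) (O := F '' cone t (1 + 5 * δ) η) hD
      (ν := Nt F δ Act k d t) (Finset.measurable_fun_sum _ fun i _ => Nt_term h _ _ _)
      (fun x hx => by_contra fun h6 => hx (Finset.sum_eq_zero fun i _ => by
        rw [dens_zero h (hk₁ (k + i) (by omega)) h6, ite_self])) (n := fun i => 3 ^ (i + p))
      (fun i => (Nat.le_add_right i p).trans (Nat.lt_pow_self (by norm_num)).le) (Λ := Λ) κ0.le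
      (by rw [Λ0, hκ, div_mul_cancel₀ _ (by positivity)])
      (fun i => by rw [Λ1, mul_div_cancel₀ _ κ0.ne'])
    refine h3.2 ⟨w, h4, ENNReal.le_of_add_le_add_right (a := ENNReal.ofReal κ *
      ENNReal.ofReal (3 ^ p / 4 ^ l / 4)) (ENNReal.mul_ne_top ENNReal.ofReal_ne_top
        ENNReal.ofReal_ne_top) (le_trans ?_ (h5.trans (add_le_add le_rfl
          (mul_le_mul_right (not_le.1 h2).le _))))⟩
    rw [Nt_int h hD hb, ← ENNReal.ofReal_mul κ0.le, ← ENNReal.ofReal_mul κ0.le,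
      ← ENNReal.ofReal_add (by positivity) (by positivity)]
    refine ENNReal.ofReal_le_ofReal (le_trans (le_of_eq ?_) (mul_le_mul_of_nonneg_left ht.2 κ0.le))
    rw [hκ]
    field_simp
    ring
  filter_upwards [measure_eq_zero_iff_ae_notMem.1 key, ae_all_iff.2 (diverge h l q)] with t h1 h2
  refine or_iff_not_imp_left.2 fun h3 => by_contra fun h4 => h1 ?_
  rw [hBad]
  exact ⟨fun k => (h2 k).resolve_left h3, h4⟩

theorem Gau.tendsto {C : ℝ} (hG : Gau G C) : Tendsto G atTop atTop := by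
  refine tendsto_atTop_atTop_of_monotone hG.mono fun b => ?_
  have h1 := Real.tendsto_exp_comp_nhds_zero.1 hG.sum.tendsto_atTop_zero
  obtain ⟨m, hm⟩ := (h1.eventually_le_atBot (-(C * b))).exists
  refine ⟨3 ^ m, (le_of_mul_le_mul_left (neg_le_neg_iff.1 hm) hG.hC).trans ?_⟩
  exact div_le_self (hG.pos _).le (one_le_pow₀ (by norm_num))

theorem px {C : ℝ} (hG : Gau G C) (h : An F δ) {η : ℝ} (hη : 0 < η)
    (ho : ∀ t, MeasurableSet (F '' cone t (1 + 5 * δ) η)) :
    ∀ᵐ t : ℝ, NT F t ∨ PX G (F '' cone t (1 + 5 * δ) η) := by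
  obtain ⟨c, hc, h1⟩ := lemX hG
  filter_upwards [ae_all_iff.2 fun l => ae_all_iff.2 (h1 F δ η h hη ho l)] with t ht
  refine or_iff_not_imp_left.2 fun hn M => ?_
  filter_upwards [(hG.tendsto.const_mul_atTop hc).eventually_ge_atTop M] with l hl q
  obtain ⟨w, h2, h3⟩ := (ht l q).resolve_left hn
  exact ⟨w, h2, (ENNReal.ofReal_le_ofReal (div_le_div_of_nonneg_right hl (by positivity))).trans h3⟩

end Pool.Agent.Work.MP_31144c_an.G
end
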